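import Pool.Agent.H71.RN.Defs

/-!
# RN-BASIC: vanishing ideals, Zariski closure, polynomial vector fields, algebraic dimension
-/

set_option autoImplicit false

namespace H71.RN

open MvPolynomial

variable {N m : ℕ}

/-- the ideal of the polynomials vanishing on `X` -/
def vI (X : Set (Pt N)) : Ideal (Pol N) where
  carrier := {g | ∀ x ∈ X, eval x g = 0}
  add_mem' := by
    intro a b ha hb x hx
    rw [map_add, ha x hx, hb x hx, add_zero]
  zero_mem' := by
    intro x _
    rw [map_zero]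
  smul_mem' := by
    intro c a ha x hx
    rw [smul_eq_mul, map_mul, ha x hx, mul_zero]

theorem mem_vI {X : Set (Pt N)} {g : Pol N} : g ∈ vI X ↔ ∀ x ∈ X, eval x g = 0 := Iff.rfl

theorem not_mem_vI {X : Set (Pt N)} {g : Pol N} : g ∉ vI X ↔ ∃ x ∈ X, eval x g ≠ 0 := by
  rw [mem_vI]
  push Not
  rfl

/-- the Zariski closure -/
def zcl (S : Set (Pt N)) : Set (Pt N) := {x | ∀ g ∈ vI S, eval x g = 0}

theorem vI_mono {A B : Set (Pt N)} (h : A ⊆ B) : vI B ≤ vI A := fun _ hg x hx => hg x (h hx)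

theorem subset_zcl (S : Set (Pt N)) : S ⊆ zcl S := fun _ hx _ hg => hg _ hx

theorem isAlgebraic_zcl (S : Set (Pt N)) : IsAlgebraic (zcl S) := ⟨vI S, rfl⟩

theorem vI_zcl (S : Set (Pt N)) : vI (zcl S) = vI S :=
  le_antisymm (vI_mono (subset_zcl S)) fun g hg x hx => hx g hg

theorem zcl_eq {X : Set (Pt N)} (hX : IsAlgebraic X) : zcl X = X := by
  obtain ⟨S, rfl⟩ := hX
  refine Set.Subset.antisymm (fun x hx g hg => ?_) (subset_zcl _)
  exact hx g fun z hz => hz g hg

theorem zcl_min {S X : Set (Pt N)} (hX : IsAlgebraic X) (h : S ⊆ X) : zcl S ⊆ X := by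
  rw [← zcl_eq hX]
  exact fun x hx g hg => hx g (vI_mono h hg)

theorem isAlgebraic_zero {X : Set (Pt N)} (hX : IsAlgebraic X) (g : Pol N) :
    IsAlgebraic {x | x ∈ X ∧ eval x g = 0} := by
  obtain ⟨S, rfl⟩ := hX
  refine ⟨insert g S, ?_⟩
  ext x
  constructor
  · rintro ⟨h1, h2⟩ r hr
    rcases Set.mem_insert_iff.1 hr with rfl | hr
    · exact h2
    · exact h1 r hr
  · intro h
    exact ⟨fun r hr => h r (Set.mem_insert_of_mem _ hr), h g (Set.mem_insert _ _)⟩

/-- the derivative along the polynomial vector field `V` -/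
noncomputable def vf (V : Fin N → Pol N) : Derivation ℝ (Pol N) (Pol N) := mkDerivation ℝ V

theorem vf_X (V : Fin N → Pol N) (k : Fin N) : vf V (X k) = V k := by
  unfold vf
  rw [mkDerivation_X]

theorem vf_apply (V : Fin N → Pol N) (g : Pol N) : vf V g = ∑ k, V k * pderiv k g := by
  induction g using MvPolynomial.induction_on with
  | C a => simp [vf]
  | add p q hp hq =>
    rw [map_add, hp, hq, ← Finset.sum_add_distrib]
    exact Finset.sum_congr rfl fun k _ => by rw [map_add, mul_add]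
  | mul_X p n hp =>
    rw [Derivation.leibniz, vf_X, hp, smul_eq_mul, smul_eq_mul, Finset.mul_sum]
    have h : ∀ k, V k * pderiv k (p * X n) = X n * (V k * pderiv k p) +
        if k = n then p * V n else 0 := by
      intro k
      rw [Derivation.leibniz, smul_eq_mul, smul_eq_mul]
      by_cases hk : k = n
      · subst hk
        rw [pderiv_X_self, if_pos rfl]
        ring
      · rw [pderiv_X_of_ne (Ne.symm hk), if_neg hk]
        ring
    rw [Finset.sum_congr rfl fun k _ => h k, Finset.sum_add_distrib, Finset.sum_ite_eq',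
      if_pos (Finset.mem_univ _), add_comm]

/-- every system of `n` polynomials is algebraically dependent on `S` (`dim S < n`) -/
def DimLt (S : Set (Pt N)) (n : ℕ) : Prop :=
  ∀ g : Fin n → Pol N, ∃ H : MvPolynomial (Fin n) ℝ, H ≠ 0 ∧
    ∀ x ∈ S, eval (fun i => eval x (g i)) H = 0

/-- `phi : X → R` is hereditarily rational -/
def HR (X : Set (Pt N)) (phi : Pt N → ℝ) : Prop :=
  ∀ W : Set (Pt N), IsAlgebraic W → W ⊆ X → W.Nonempty →
    ∃ Q P : Pol N, Q ∉ vI W ∧ ∀ z ∈ W, eval z Q * phi z = eval z P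

/-- the vector valued version -/
def HRv (X : Set (Pt N)) (f : Pt N → Pt m) : Prop :=
  ∀ W : Set (Pt N), IsAlgebraic W → W ⊆ X → W.Nonempty →
    ∃ (Q : Pol N) (P : Fin m → Pol N), Q ∉ vI W ∧ ∀ z ∈ W, ∀ j, eval z Q * f z j = eval z (P j)

/-- `x` is maximal for `phi` and `G` on `X` -/
def IsMx (X : Set (Pt N)) (phi : Pt N → ℝ) (G : Pol N) (x : Pt N) : Prop :=
  x ∈ X ∧ phi x ≠ 0 ∧ ∀ z ∈ X, eval z G ≤ eval x G → |phi z| ≤ |phi x|

/-- the point `(x, y)` of `R^(N+m)` -/
def pr (x : Pt N) (y : Pt m) : Pt (N + m) := Fin.append x y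

/-- first and second coordinates -/
def p1 (w : Pt (N + m)) : Pt N := fun i => w (Fin.castAdd m i)

/-- first and second coordinates -/
def p2 (w : Pt (N + m)) : Pt m := fun j => w (Fin.natAdd N j)

theorem p1_pr (x : Pt N) (y : Pt m) : p1 (pr x y) = x := by
  funext i
  simp [p1, pr]

theorem p2_pr (x : Pt N) (y : Pt m) : p2 (pr x y) = y := by
  funext i
  simp [p2, pr]

theorem pr_p (w : Pt (N + m)) : pr (p1 w) (p2 w) = w := by
  funext i
  refine Fin.addCases (fun i => ?_) (fun i => ?_) i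
  · simp [p1, pr]
  · simp [p2, pr]

/-- the graph of `f` over `S` -/
def gr (S : Set (Pt N)) (f : Pt N → Pt m) : Set (Pt (N + m)) := {w | p1 w ∈ S ∧ p2 w = f (p1 w)}

end H71.RN
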