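import Pool.Agent.H71.RN.Basic

/-!
# [H71 RN CHART] charts: the Cramer vector fields, 90-150 lines

* `chart_M`: `∑_k T.M r k * T.V v k = T.dl * (if T.e r = inr j then v j, else 0)` from `Matrix.mul_adjugate`. `chart_h`, `chart_lin` follow with `vf_apply` (`T.e.symm (inl i)`, `T.e.symm (inr j)`).
* `exists_chart`: the `c` gradients of the `h i` at `x` are linearly independent in `R^N`; complete them by `n = N - c` vectors `l j` to a basis of `R^N` (`LinearIndependent.extend` or `exists_linearIndependent_...`/`Submodule.exists_isCompl` and a basis of a complement), so that the matrix with these rows is invertible; this matrix is `(T.M).map (eval x)` (`pderiv k (T.lin j) = C (T.l j k)`), `RingHom.map_det`.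
* `chart_map_deriv`: componentwise, `eval` of a polynomial has the Frechet derivative `v ↦ ∑ k, eval z (pderiv k g) * v k` (induction on `g`; `hasFDerivAt_eval` is stated in this file).
-/

set_option autoImplicit false

namespace H71.RN

open MvPolynomial

/-- a chart: `c` polynomials and `n` linear forms -/
structure Chart (N c n : ℕ) where
  h : Fin c → Pol N
  l : Fin n → Pt N
  hcn : c + n = N

namespace Chart

variable {N c n : ℕ}

/-- the linear forms -/
noncomputable def lin (T : Chart N c n) (j : Fin n) : Pol N :=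
  ∑ k, MvPolynomial.C (T.l j k) * X k

/-- the enumeration of the components -/
def e (T : Chart N c n) : Fin N ≃ Fin c ⊕ Fin n :=
  (finCongr T.hcn.symm).trans finSumFinEquiv.symm

/-- the components of the chart map -/
noncomputable def Phi (T : Chart N c n) (r : Fin N) : Pol N := Sum.elim T.h T.lin (T.e r)

/-- the Jacobian matrix -/
noncomputable def M (T : Chart N c n) : Matrix (Fin N) (Fin N) (Pol N) :=
  fun r k => pderiv k (T.Phi r)

/-- the Jacobian determinant -/
noncomputable def dl (T : Chart N c n) : Pol N := T.M.det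

/-- the Cramer vector fields -/
noncomputable def V (T : Chart N c n) (v : Fin n → ℝ) (k : Fin N) : Pol N :=
  ∑ j, T.M.adjugate k (T.e.symm (Sum.inr j)) * MvPolynomial.C (v j)

/-- the chart map -/
noncomputable def map (T : Chart N c n) (z : Pt N) : Pt N := fun r => eval z (T.Phi r)

end Chart

variable {N c n : ℕ}

theorem Phi_inl (T : Chart N c n) (i : Fin c) : T.Phi (T.e.symm (Sum.inl i)) = T.h i := by
  unfold Chart.Phi
  rw [Equiv.apply_symm_apply, Sum.elim_inl]

theorem Phi_inr (T : Chart N c n) (j : Fin n) : T.Phi (T.e.symm (Sum.inr j)) = T.lin j := by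
  unfold Chart.Phi
  rw [Equiv.apply_symm_apply, Sum.elim_inr]

theorem pderiv_lin (T : Chart N c n) (j : Fin n) (k : Fin N) :
    pderiv k (T.lin j) = MvPolynomial.C (T.l j k) := by
  classical
  unfold Chart.lin
  rw [map_sum, Finset.sum_eq_single k]
  · rw [pderiv_C_mul, pderiv_X_self, mul_one]
  · intro i _ hi
    rw [pderiv_C_mul, pderiv_X_of_ne hi, mul_zero]
  · intro hk
    exact absurd (Finset.mem_univ k) hk

theorem chart_map_inl (T : Chart N c n) (z : Pt N) (i : Fin c) :
    T.map z (T.e.symm (Sum.inl i)) = eval z (T.h i) := by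
  unfold Chart.map
  rw [Phi_inl]

theorem chart_map_inr (T : Chart N c n) (z : Pt N) (j : Fin n) :
    T.map z (T.e.symm (Sum.inr j)) = ∑ k, T.l j k * z k := by
  unfold Chart.map
  rw [Phi_inr]
  unfold Chart.lin
  rw [map_sum]
  exact Finset.sum_congr rfl fun k _ => by rw [map_mul, eval_C, eval_X]

/-- the polynomial identity -/
theorem chart_poly (T : Chart N c n) (v : Fin n → ℝ) (r : Fin N) :
    ∑ k, T.M r k * T.V v k =
      Sum.elim (fun _ => 0) (fun j => MvPolynomial.C (v j) * T.dl) (T.e r) := by
  have h1 : ∑ k, T.M r k * T.V v k =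
      ∑ j, (T.M * T.M.adjugate) r (T.e.symm (Sum.inr j)) * MvPolynomial.C (v j) := by
    unfold Chart.V
    simp only [Finset.mul_sum, Matrix.mul_apply, Finset.sum_mul]
    rw [Finset.sum_comm]
    exact Finset.sum_congr rfl fun j _ => Finset.sum_congr rfl fun k _ => by ring
  rw [h1, Matrix.mul_adjugate]
  rcases h : T.e r with i | j
  · rw [Sum.elim_inl]
    refine Finset.sum_eq_zero fun j _ => ?_
    have hne : r ≠ T.e.symm (Sum.inr j) := by
      intro h2
      rw [h2, Equiv.apply_symm_apply] at h
      cases h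
    rw [Matrix.smul_apply, Matrix.one_apply_ne hne, smul_zero, zero_mul]
  · have h3 : r = T.e.symm (Sum.inr j) := by
      rw [← h, Equiv.symm_apply_apply]
    rw [Sum.elim_inr, Finset.sum_eq_single j]
    · rw [← h3, Matrix.smul_apply, Matrix.one_apply_eq, smul_eq_mul, mul_one, mul_comm]
      rfl
    · intro j' _ hj
      have hne : r ≠ T.e.symm (Sum.inr j') := by
        intro h2
        rw [h2, Equiv.apply_symm_apply] at h
        exact hj (Sum.inr_injective h)
      rw [Matrix.smul_apply, Matrix.one_apply_ne hne, smul_zero, zero_mul]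
    · intro hj
      exact absurd (Finset.mem_univ j) hj

theorem vf_Phi (T : Chart N c n) (v : Fin n → ℝ) (r : Fin N) : vf (T.V v) (T.Phi r) =
    Sum.elim (fun _ => 0) (fun j => MvPolynomial.C (v j) * T.dl) (T.e r) := by
  rw [← chart_poly, vf_apply]
  exact Finset.sum_congr rfl fun k _ => mul_comm _ _

theorem chart_h (T : Chart N c n) (v : Fin n → ℝ) (i : Fin c) : vf (T.V v) (T.h i) = 0 := by
  rw [← Phi_inl, vf_Phi, Equiv.apply_symm_apply, Sum.elim_inl]

theorem chart_lin (T : Chart N c n) (v : Fin n → ℝ) (j : Fin n) :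
    vf (T.V v) (T.lin j) = MvPolynomial.C (v j) * T.dl := by
  rw [← Phi_inr, vf_Phi, Equiv.apply_symm_apply, Sum.elim_inr]

theorem chart_M (T : Chart N c n) (v : Fin n → ℝ) (z : Pt N) (r : Fin N) :
    ∑ k, eval z (T.M r k) * eval z (T.V v k) =
      Sum.elim (fun _ => 0) (fun j => v j * eval z T.dl) (T.e r) := by
  have h := congrArg (eval z) (chart_poly T v r)
  rw [map_sum] at h
  simp only [map_mul] at h
  rw [h]
  rcases T.e r with i | j
  · simp
  · simp

theorem exists_chart (h : Fin c → Pol N) (hcn : c + n = N) (x : Pt N)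
    (hind : LinearIndependent ℝ (fun (i : Fin c) (k : Fin N) => eval x (pderiv k (h i)))) :
    ∃ T : Chart N c n, T.h = h ∧ eval x T.dl ≠ 0 := by
  classical
  set v : Fin c → (Fin N → ℝ) := fun i k => eval x (pderiv k (h i)) with hv
  obtain ⟨S', hS'⟩ := Submodule.exists_isCompl (Submodule.span ℝ (Set.range v))
  have hd : Module.finrank ℝ S' = n := by
    have h1 := Submodule.finrank_add_eq_of_isCompl hS'
    rw [finrank_span_eq_card hind, Fintype.card_fin, Module.finrank_fin_fun] at h1
    omega
  let b : Module.Basis (Fin n) ℝ S' := Module.finBasisOfFinrankEq ℝ S' hd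
  let l : Fin n → (Fin N → ℝ) := fun j => (b j : Fin N → ℝ)
  have hl : LinearIndependent ℝ l := b.linearIndependent.map' S'.subtype (by simp)
  have hspan : Submodule.span ℝ (Set.range l) ≤ S' := by
    rw [Submodule.span_le]
    rintro _ ⟨j, rfl⟩
    exact (b j).2
  have hsum : LinearIndependent ℝ (Sum.elim v l) :=
    hind.sum_type hl (hS'.disjoint.mono_right hspan)
  let T : Chart N c n := ⟨h, l, hcn⟩
  refine ⟨T, rfl, ?_⟩
  have hM : (T.M.map (eval x)) = Matrix.of fun r => Sum.elim v l (T.e r) := by
    ext r k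
    rw [Matrix.map_apply, Matrix.of_apply]
    change eval x (pderiv k (Sum.elim T.h T.lin (T.e r))) = _
    rcases T.e r with i | j
    · rfl
    · rw [Sum.elim_inr, Sum.elim_inr, pderiv_lin, eval_C]
  have hdet : eval x T.dl = (T.M.map (eval x)).det := by
    unfold Chart.dl
    rw [RingHom.map_det]
    rfl
  rw [hdet, hM]
  have h2 : LinearIndependent ℝ (fun r => Sum.elim v l (T.e r)) := hsum.comp T.e T.e.injective
  have h3 : IsUnit (Matrix.of fun r => Sum.elim v l (T.e r)) :=
    Matrix.linearIndependent_rows_iff_isUnit.1 h2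
  exact ((Matrix.isUnit_iff_isUnit_det _).1 h3).ne_zero

theorem hasFDerivAt_eval (g : Pol N) (z : Pt N) : ∃ L : Pt N →L[ℝ] ℝ,
    (∀ v, L v = ∑ k, eval z (pderiv k g) * v k) ∧
      HasStrictFDerivAt (fun x : Pt N => eval x g) L z := by
  classical
  induction g using MvPolynomial.induction_on with
  | C a =>
    refine ⟨0, fun v => ?_, ?_⟩
    · simp
    · simp only [eval_C]
      exact hasStrictFDerivAt_const a z
  | add p q hp hq =>
    obtain ⟨L1, h1, h1'⟩ := hp
    obtain ⟨L2, h2, h2'⟩ := hq
    refine ⟨L1 + L2, fun v => ?_, ?_⟩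
    · rw [add_apply, h1, h2, ← Finset.sum_add_distrib]
      exact Finset.sum_congr rfl fun k _ => by rw [map_add, map_add, add_mul]
    · simp only [map_add]
      exact h1'.add h2'
  | mul_X p i hp =>
    obtain ⟨L1, h1, h1'⟩ := hp
    have h2' : HasStrictFDerivAt (fun x : Pt N => x i)
        (ContinuousLinearMap.proj (R := ℝ) (φ := fun _ : Fin N => ℝ) i) z :=
      hasStrictFDerivAt_apply i z
    refine ⟨eval z p • (ContinuousLinearMap.proj (R := ℝ) (φ := fun _ : Fin N => ℝ) i) +
      z i • L1, fun v => ?_, ?_⟩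
    · have h3 : ∀ k, eval z (pderiv k (p * X i)) * v k =
          z i * (eval z (pderiv k p) * v k) + if k = i then eval z p * v i else 0 := by
        intro k
        rw [Derivation.leibniz, smul_eq_mul, smul_eq_mul]
        by_cases hk : k = i
        · subst hk
          rw [pderiv_X_self, if_pos rfl]
          simp only [map_add, map_mul, eval_X, map_one]
          ring
        · rw [pderiv_X_of_ne (Ne.symm hk), if_neg hk]
          simp only [map_add, map_mul, eval_X, map_zero]
          ring
      rw [Finset.sum_congr rfl fun k _ => h3 k, Finset.sum_add_distrib, Finset.sum_ite_eq',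
        if_pos (Finset.mem_univ _), ← Finset.mul_sum, ← h1]
      simp only [add_apply, smul_apply,
        ContinuousLinearMap.proj_apply, smul_eq_mul]
      ring
    · simp only [map_mul, eval_X]
      exact h1'.mul h2'

theorem chart_map_deriv (T : Chart N c n) (z : Pt N) : ∃ L : Pt N →L[ℝ] Pt N,
    (∀ v r, L v r = ∑ k, eval z (T.M r k) * v k) ∧ HasStrictFDerivAt T.map L z := by
  choose L hL hL' using fun r => hasFDerivAt_eval (T.Phi r) z
  refine ⟨ContinuousLinearMap.pi L, fun v r => ?_, ?_⟩
  · rw [ContinuousLinearMap.pi_apply, hL]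
    rfl
  · rw [hasStrictFDerivAt_pi']
    exact hL'

end H71.RN
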