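import Pool.Agent.H71.RN.Defs

/-!
# [H71 RN CUR] growth of the zeros of a polynomial in two variables, 70-120 lines

Write `H (s, t) = t^a * H' (s, t)` with `H'` not divisible by `t` (e.g. in `Polynomial (Polynomial ℝ)`: `K = aeval ![C X, X] H`, `K ≠ 0`, `K = X^a * K'` with `K'.coeff 0 ≠ 0`). `h (s) = H' (s, 0)` is a nonzero polynomial in `s`, `h = s^l * h₂` with `h₂ 0 ≠ 0`; by continuity there are `c > 0`, `0 < s₀ ≤ 1` with `|h₂ s| ≥ c` for `|s| ≤ s₀`.
`|H' (s, t) - H' (s, 0)| ≤ C₁ * t` for `|s| ≤ 1`, `0 ≤ t ≤ 1` (the difference is `t` times a polynomial, which is bounded on the compact square). If `H (s, t) = 0`, `0 < t ≤ 1`, `|s| ≤ s₀`: `H' (s, t) = 0`, so `c * |s|^l ≤ |h s| ≤ C₁ * t`. Take `k = l + 1` (`|s| ≤ 1`), `C = C₁ / c + 1`.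
-/

set_option autoImplicit false

namespace H71.RN

open MvPolynomial

/-- evaluation of a polynomial with polynomial coefficients -/
noncomputable def Cur_ev (s t : ℝ) : Polynomial (Polynomial ℝ) →+* ℝ :=
  Polynomial.eval₂RingHom (Polynomial.evalRingHom s) t

theorem Cur_ev_C (s t : ℝ) (p : Polynomial ℝ) : Cur_ev s t (Polynomial.C p) = p.eval s := by
  unfold Cur_ev
  rw [Polynomial.coe_eval₂RingHom, Polynomial.eval₂_C]
  rfl

theorem Cur_ev_X (s t : ℝ) : Cur_ev s t Polynomial.X = t := by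
  unfold Cur_ev
  rw [Polynomial.coe_eval₂RingHom, Polynomial.eval₂_X]

theorem Cur_ev_H (s t : ℝ) (H : MvPolynomial (Fin 2) ℝ) :
    Cur_ev s t (aeval ![Polynomial.C Polynomial.X, Polynomial.X] H) = eval ![s, t] H := by
  have h : (Cur_ev s t).comp (aeval (R := ℝ) ![(Polynomial.C Polynomial.X :
      Polynomial (Polynomial ℝ)), Polynomial.X]).toRingHom = eval ![s, t] := by
    apply MvPolynomial.ringHom_ext
    · intro r
      simp only [RingHom.comp_apply, AlgHom.toRingHom_eq_coe, RingHom.coe_coe, eval_C]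
      rw [MvPolynomial.algHom_C]
      have h1 : (algebraMap ℝ (Polynomial (Polynomial ℝ))) r =
          Polynomial.C (Polynomial.C r) := rfl
      rw [h1, Cur_ev_C, Polynomial.eval_C]
    · intro j
      simp only [RingHom.comp_apply, AlgHom.toRingHom_eq_coe, RingHom.coe_coe, eval_X, aeval_X]
      fin_cases j
      · change Cur_ev s t (Polynomial.C Polynomial.X) = s
        rw [Cur_ev_C, Polynomial.eval_X]
      · change Cur_ev s t Polynomial.X = t
        rw [Cur_ev_X]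
  have h2 := congrArg (fun f => f H) h
  exact h2

theorem Cur_cont (P : Polynomial (Polynomial ℝ)) :
    Continuous fun z : ℝ × ℝ => Cur_ev z.1 z.2 P := by
  have h : (fun z : ℝ × ℝ => Cur_ev z.1 z.2 P) =
      fun z : ℝ × ℝ => ∑ i ∈ Finset.range (P.natDegree + 1), (P.coeff i).eval z.1 * z.2 ^ i := by
    funext z
    unfold Cur_ev
    rw [Polynomial.coe_eval₂RingHom, Polynomial.eval₂_eq_sum_range]
    rfl
  rw [h]
  refine continuous_finsetSum _ fun i _ => ?_
  exact ((P.coeff i).continuous.comp continuous_fst).mul (continuous_snd.pow i)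

theorem Cur_bd (P : Polynomial (Polynomial ℝ)) :
    ∃ C : ℝ, 0 ≤ C ∧ ∀ s t : ℝ, |s| ≤ 1 → |t| ≤ 1 → |Cur_ev s t P| ≤ C := by
  have hK : IsCompact (Set.Icc (-1 : ℝ) 1 ×ˢ Set.Icc (-1 : ℝ) 1) := isCompact_Icc.prod isCompact_Icc
  obtain ⟨C, hC⟩ := hK.exists_bound_of_continuousOn (Cur_cont P).continuousOn
  refine ⟨|C|, abs_nonneg _, fun s t hs ht => ?_⟩
  have h := hC (s, t) ⟨abs_le.1 hs, abs_le.1 ht⟩
  exact h.trans (le_abs_self C)

theorem Cur_fac {R : Type} [CommRing R] (P : Polynomial R) (hP : P ≠ 0) :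
    ∃ (a : ℕ) (Q : Polynomial R), P = Polynomial.X ^ a * Q ∧ Q.coeff 0 ≠ 0 := by
  obtain ⟨Q, h1, h2⟩ := Polynomial.exists_eq_pow_rootMultiplicity_mul_and_not_dvd P hP 0
  rw [Polynomial.C_0, sub_zero] at h1 h2
  exact ⟨_, Q, h1, fun h3 => h2 (Polynomial.X_dvd_iff.2 h3)⟩

theorem curve_bound (H : MvPolynomial (Fin 2) ℝ) (hH : H ≠ 0) :
    ∃ (k : ℕ) (C s₀ : ℝ), 1 ≤ k ∧ 0 < C ∧ 0 < s₀ ∧
      ∀ s t : ℝ, |s| ≤ s₀ → 0 < t → t ≤ 1 → eval ![s, t] H = 0 → |s| ^ k ≤ C * t := by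
  obtain ⟨K, hK⟩ : ∃ K : Polynomial (Polynomial ℝ),
    K = aeval ![(Polynomial.C Polynomial.X : Polynomial (Polynomial ℝ)), Polynomial.X] H :=
      ⟨_, rfl⟩
  have hKe : ∀ s t : ℝ, Cur_ev s t K = eval ![s, t] H := by
    intro s t
    rw [hK, Cur_ev_H]
  have hK0 : K ≠ 0 := by
    intro h0
    apply hH
    apply MvPolynomial.funext
    intro x
    have h1 : x = ![x 0, x 1] := by
      funext j
      fin_cases j <;> rfl
    rw [h1, ← hKe, h0, map_zero, map_zero]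
  obtain ⟨a, K', hKK, hK'⟩ := Cur_fac K hK0
  obtain ⟨l, h2, hh2, h20⟩ := Cur_fac (K'.coeff 0) hK'
  obtain ⟨C₁, hC₁, hb⟩ := Cur_bd K'.divX
  have h2e : h2.eval 0 ≠ 0 := by
    rw [← Polynomial.coeff_zero_eq_eval_zero]
    exact h20
  obtain ⟨c, hc⟩ : ∃ c : ℝ, c = |h2.eval 0| / 2 := ⟨_, rfl⟩
  have hc0 : 0 < c := by
    rw [hc]
    have := abs_pos.2 h2e
    linarith
  have hev : ∀ᶠ s in nhds (0 : ℝ), c < |h2.eval s| := by
    have h3 : Filter.Tendsto (fun s => |h2.eval s|) (nhds 0) (nhds |h2.eval 0|) :=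
      (h2.continuous.abs).tendsto 0
    apply h3.eventually_const_lt
    rw [hc]
    have := abs_pos.2 h2e
    linarith
  obtain ⟨ε, hε, hε2⟩ := Metric.eventually_nhds_iff.1 hev
  refine ⟨l + 1, C₁ / c + 1, min 1 (ε / 2), by omega, by positivity, by positivity, ?_⟩
  intro s t hs ht ht1 hH0
  have hs1 : |s| ≤ 1 := hs.trans (min_le_left _ _)
  have hs2 : |s| ≤ ε / 2 := hs.trans (min_le_right _ _)
  have hcs : c < |h2.eval s| := by
    apply hε2
    rw [Real.dist_eq, sub_zero]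
    linarith
  have e1 : Cur_ev s t K' = 0 := by
    rw [← hKe, hKK, map_mul, map_pow, Cur_ev_X] at hH0
    rcases mul_eq_zero.1 hH0 with h3 | h3
    · exact absurd h3 (pow_ne_zero _ ht.ne')
    · exact h3
  have e2 : Cur_ev s t K' = Cur_ev s t K'.divX * t + (K'.coeff 0).eval s := by
    conv_lhs => rw [← Polynomial.divX_mul_X_add K']
    rw [map_add, map_mul, Cur_ev_X, Cur_ev_C]
  have e3 : |(K'.coeff 0).eval s| ≤ C₁ * t := by
    have h3 : (K'.coeff 0).eval s = -(Cur_ev s t K'.divX * t) := by linarith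
    rw [h3, abs_neg, abs_mul, abs_of_pos ht]
    exact mul_le_mul_of_nonneg_right (hb s t hs1 (by rw [abs_of_pos ht]; exact ht1)) ht.le
  have e4 : |(K'.coeff 0).eval s| = |s| ^ l * |h2.eval s| := by
    rw [hh2, Polynomial.eval_mul, Polynomial.eval_pow, Polynomial.eval_X, abs_mul, abs_pow]
  have e5 : |s| ^ l * c ≤ C₁ * t := by
    refine le_trans ?_ e3
    rw [e4]
    exact mul_le_mul_of_nonneg_left hcs.le (by positivity)
  have e6 : |s| ^ l ≤ C₁ / c * t := by
    rw [div_mul_eq_mul_div, le_div_iff₀ hc0]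
    exact e5
  have e7 : |s| ^ (l + 1) ≤ |s| ^ l := by
    rw [pow_succ]
    exact mul_le_of_le_one_right (by positivity) hs1
  have e8 : (C₁ / c + 1) * t = C₁ / c * t + t := by ring
  rw [e8]
  linarith

end H71.RN
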