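import Mathlib

/-!
# Definitions for MP_f1856f_ag: real algebraic sets, continuous rational maps

* `Pt N = R^N`, `Pol N`: real polynomials in `N` variables.
* `IsAlgebraic X`: `X` is a real algebraic subset of `R^N` (common zero set of a set of polynomials).
* `IsNonsingular n X`: `X` is nonsingular of pure dimension `n`: near every point `x` of `X` (Euclidean
  neighbourhood) `X` is the zero set of `N - n` polynomials which vanish on `X` and have linearly
  independent gradients at `x`.
* `RegularAt X f x`: on a Zariski neighbourhood of `x` in `X` the map `f : X → R^m` is a quotient of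
  polynomials.
* `ContinuousRational X f`: `f` is continuous on `X` and the set of the points where it is regular is
  Zariski dense in `X` (it is Zariski open by definition).
-/

set_option autoImplicit false

namespace H71.RN

open MvPolynomial

/-- points of `R^N` -/
abbrev Pt (N : ℕ) : Type := Fin N → ℝ

/-- real polynomials in `N` variables -/
abbrev Pol (N : ℕ) : Type := MvPolynomial (Fin N) ℝ

/-- real algebraic sets -/
def IsAlgebraic {N : ℕ} (X : Set (Pt N)) : Prop :=
  ∃ S : Set (Pol N), X = {x | ∀ g ∈ S, eval x g = 0}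

/-- nonsingular of pure dimension `n` -/
def IsNonsingular {N : ℕ} (n : ℕ) (X : Set (Pt N)) : Prop :=
  ∀ x ∈ X, ∃ (c : ℕ) (h : Fin c → Pol N), c + n = N ∧
    (∀ i, ∀ z ∈ X, eval z (h i) = 0) ∧
    LinearIndependent ℝ (fun (i : Fin c) (k : Fin N) => eval x (pderiv k (h i))) ∧
    ∃ U ∈ nhds x, ∀ z ∈ U, (∀ i, eval z (h i) = 0) → z ∈ X

/-- the map `f : X → R^m` is regular at `x` -/
def RegularAt {N m : ℕ} (X : Set (Pt N)) (f : Pt N → Pt m) (x : Pt N) : Prop :=
  ∃ (q : Pol N) (P : Fin m → Pol N), eval x q ≠ 0 ∧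
    ∀ z ∈ X, eval z q ≠ 0 → ∀ j, f z j = eval z (P j) / eval z q

/-- continuous rational maps `X → R^m` -/
def ContinuousRational {N m : ℕ} (X : Set (Pt N)) (f : Pt N → Pt m) : Prop :=
  ContinuousOn f X ∧
    ∀ g : Pol N, (∀ z ∈ X, RegularAt X f z → eval z g = 0) → ∀ z ∈ X, eval z g = 0

/-- the unit sphere `S^p` in `R^(p+1)` -/
def Sph (p : ℕ) : Set (Pt (p + 1)) := {y | ∑ j, y j ^ 2 = 1}

/-- `f : X → S^p` is nice: `f (P (f))` is not the whole sphere, where `P (f)` is the set of the points
of `X` where `f` is not regular -/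
def IsNice {N : ℕ} (p : ℕ) (X : Set (Pt N)) (f : Pt N → Pt (p + 1)) : Prop :=
  ∃ y ∈ Sph p, ∀ x ∈ X, ¬ RegularAt X f x → f x ≠ y

end H71.RN
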