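import Pool.Agent.H71.RN.Basic

/-!
# [H71 RN DEN] the common denominator, 50-80 lines

The set of the `q` such that for every `j` there is `P` with `q * f_j = P` on `X` is an ideal of `Pol N`, generated by finitely many `q_i` (Noetherian). `G = ∑ q_i ^ 2` is in the ideal, `G ≥ 0`. If `f` is regular at `x ∈ X`, `f = P / q` on `{q ≠ 0}`, then `q^2 f = q P` on `X`, so `q^2` is in the ideal, `q^2 (x) ≠ 0`, so some `q_i x ≠ 0` and `G x ≠ 0`.
Conversely, if `G x ≠ 0` then `G`, `P` show that `f` is regular at `x` (`f z j = P j z / G z` if `G z ≠ 0`).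
-/

set_option autoImplicit false

namespace H71.RN

open MvPolynomial

variable {N m : ℕ}

theorem regularAt_of_mul {X : Set (Pt N)} {f : Pt N → Pt m} {x : Pt N} (q : Pol N)
    (P : Fin m → Pol N) (hq : eval x q ≠ 0) (h : ∀ z ∈ X, ∀ j, eval z q * f z j = eval z (P j)) :
    RegularAt X f x := by
  refine ⟨q, P, hq, fun z hz hqz j => ?_⟩
  rw [eq_div_iff hqz, mul_comm]
  exact h z hz j

/-- the ideal of the denominators -/
def denIdeal (X : Set (Pt N)) (f : Pt N → Pt m) : Ideal (Pol N) where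
  carrier := {q | ∃ P : Fin m → Pol N, ∀ z ∈ X, ∀ j, eval z q * f z j = eval z (P j)}
  add_mem' := by
    rintro a b ⟨P, hP⟩ ⟨Q, hQ⟩
    refine ⟨fun j => P j + Q j, fun z hz j => ?_⟩
    rw [map_add, map_add, add_mul, hP z hz j, hQ z hz j]
  zero_mem' := ⟨fun _ => 0, fun z _ j => by simp⟩
  smul_mem' := by
    rintro c a ⟨P, hP⟩
    refine ⟨fun j => c * P j, fun z hz j => ?_⟩
    rw [smul_eq_mul, map_mul, map_mul, mul_assoc, hP z hz j]

theorem exists_den (X : Set (Pt N)) (f : Pt N → Pt m) :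
    ∃ (G : Pol N) (P : Fin m → Pol N), (∀ x, 0 ≤ eval x G) ∧
      (∀ z ∈ X, ∀ j, eval z G * f z j = eval z (P j)) ∧
      ∀ x ∈ X, (eval x G = 0 ↔ ¬ RegularAt X f x) := by
  obtain ⟨S, hS⟩ := (inferInstance : IsNoetherianRing (Pol N)).noetherian (denIdeal X f)
  have hmem : ∀ q ∈ S, q ∈ denIdeal X f := fun q hq => by
    rw [← hS]
    exact Ideal.subset_span hq
  have hG : ∑ q ∈ S, q ^ 2 ∈ denIdeal X f := by
    refine Ideal.sum_mem _ fun q hq => ?_
    rw [pow_two]
    exact Ideal.mul_mem_left _ _ (hmem q hq)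
  obtain ⟨P, hP⟩ := hG
  have heG : ∀ x : Pt N, eval x (∑ q ∈ S, q ^ 2) = ∑ q ∈ S, (eval x q) ^ 2 := by
    intro x
    rw [map_sum]
    simp only [map_pow]
  refine ⟨∑ q ∈ S, q ^ 2, P, fun x => ?_, hP, fun x hx => ⟨fun h0 hreg => ?_, fun hn => ?_⟩⟩
  · rw [heG]
    exact Finset.sum_nonneg fun q _ => sq_nonneg _
  · obtain ⟨q, R, hq, hqR⟩ := hreg
    have hq2 : q ^ 2 ∈ denIdeal X f := by
      refine ⟨fun j => q * R j, fun z hz j => ?_⟩
      rw [map_pow, map_mul]
      by_cases hz0 : eval z q = 0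
      · rw [hz0]
        ring
      · rw [hqR z hz hz0 j]
        field_simp
    have hall : ∀ r ∈ S, eval x r = 0 := by
      intro r hr
      rw [heG] at h0
      have := (Finset.sum_eq_zero_iff_of_nonneg (fun q _ => sq_nonneg (eval x q))).1 h0 r hr
      exact pow_eq_zero_iff (two_ne_zero) |>.1 this
    have hker : denIdeal X f ≤ RingHom.ker (eval x) := by
      rw [← hS]
      refine Ideal.span_le.2 fun r hr => ?_
      exact (RingHom.mem_ker).2 (hall r hr)
    have h1 := (RingHom.mem_ker).1 (hker hq2)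
    rw [map_pow] at h1
    exact hq (pow_eq_zero_iff (two_ne_zero) |>.1 h1)
  · by_contra h0
    exact hn (regularAt_of_mul _ P h0 hP)

end H71.RN
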