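import Pool.Agent.H71.RN.Noe

/-!
# [H71 RN DENG] `{G ≠ 0, f ≠ a}` is Zariski dense for all but finitely many `a`
-/

set_option autoImplicit false

namespace H71.RN

open MvPolynomial

variable {N m : ℕ}

open Classical in
theorem deng {X : Set (Pt N)} (hXa : IsAlgebraic X) (f : Pt N → Pt m) (G : Pol N)
    (P : Fin m → Pol N) (hG : ∀ z ∈ X, ∀ j, eval z G * f z j = eval z (P j))
    (hd : ∀ g : Pol N, (∀ z ∈ X, eval z G ≠ 0 → eval z g = 0) → g ∈ vI X) :
    ∃ A0 : Finset (Pt m), ∀ a, a ∉ A0 → ∀ s : Pol N,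
      (∀ z ∈ X, eval z G ≠ 0 → f z ≠ a → eval z s = 0) → s ∈ vI X := by
  obtain ⟨F, hF, hFp, hXF⟩ := decomp hXa
  let c : Set (Pt N) → Pt m := fun W =>
    if h : ∃ c : Pt m, ∀ z ∈ W, eval z G ≠ 0 → f z = c then h.choose else 0
  refine ⟨hF.toFinset.image c, fun a ha s hs => hd s fun z hz hzG => ?_⟩
  rw [hXF] at hz
  obtain ⟨W, hWF, hzW⟩ := hz
  have hWX : W ⊆ X := by
    rw [hXF]
    exact Set.subset_sUnion_of_mem hWF
  have hp := (hFp W hWF).2
  have hGW : G ∉ vI W := fun h => hzG (h z hzW)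
  by_cases hc : ∃ c : Pt m, ∀ z ∈ W, eval z G ≠ 0 → f z = c
  · refine hs z (hWX hzW) hzG ?_
    intro hfa
    apply ha
    rw [Finset.mem_image]
    refine ⟨W, hF.mem_toFinset.2 hWF, ?_⟩
    simp only [c, dif_pos hc]
    rw [← hc.choose_spec z hzW hzG, hfa]
  · have h1 : ∃ j, P j - C (a j) * G ∉ vI W := by
      by_contra hcon
      push Not at hcon
      apply hc
      refine ⟨a, fun x hx hxG => ?_⟩
      funext j
      have h2 := hcon j x hx
      rw [map_sub, map_mul, eval_C, ← hG x (hWX hx) j] at h2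
      have h3 : eval x G * (f x j - a j) = 0 := by linarith
      have h4 := (mul_eq_zero.1 h3).resolve_left hxG
      linarith
    obtain ⟨j, hj⟩ := h1
    have h2 : s * ((P j - C (a j) * G) * G) ∈ vI W := by
      intro x hx
      rw [map_mul, map_mul, map_sub, map_mul, eval_C, ← hG x (hWX hx) j]
      by_cases hxG : eval x G = 0
      · rw [hxG]
        ring
      · by_cases hfa : f x = a
        · rw [hfa]
          ring
        · rw [hs x (hWX hx) hxG hfa, zero_mul]
    have h3 : s ∈ vI W := by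
      rcases hp.mem_or_mem h2 with h | h
      · exact h
      · rcases hp.mem_or_mem h with h | h
        · exact absurd h hj
        · exact absurd h hGW
    exact h3 z hzW

end H71.RN
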