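import Pool.Agent.H71.RN.Linv

/-!
# [H71 RN LDM] a nonsingular set of dimension n has local algebraic dimension >= n, 60-90 lines

Local equations `h` at `x` with `U_x`, chart `T` with `T.h = h` (`exists_chart`), `chart_inv` with `O = U ∩ U_x` (and `ball of radius ρ around T.map x`). Suppose `DimLt (X ∩ U) n`; apply it to `g j = T.lin j` (`eval z (T.lin j) = ∑ k, T.l j k * z k`): `H ≠ 0`, `H (π z) = 0` for all `z ∈ X ∩ U`, where `π z = (∑ k, T.l j k * z k)_j`.
`H` vanishes on the set of all `s : Fin n → ℝ` near `π x`: the point `w` with `w (inl i) = 0`, `w (inr j) = s j` is in the ball around `T.map x` (`h x = 0`, so `T.map x` has components `0` and `π x`), `z = Psi w ∈ U ∩ U_x`, `h z = 0`, so `z ∈ X`, and `π z = s` (`chart_map_inr`).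
A polynomial which vanishes on a product of open intervals is `0`: `MvPolynomial.funext_set`.
(`n = 0` needs no special treatment.)
-/

set_option autoImplicit false

namespace H71.RN

open MvPolynomial

variable {N : ℕ}

theorem not_dimLt {X : Set (Pt N)} {n : ℕ} (hX : IsNonsingular n X) (x : Pt N) (hx : x ∈ X)
    (U : Set (Pt N)) (hU : U ∈ nhds x) : ¬ DimLt (X ∩ U) n := by
  intro hD
  obtain ⟨c, h, hcn, hvan, hind, Ux, hUx, hUxX⟩ := hX x hx
  obtain ⟨T, hTh, hdl⟩ := exists_chart h hcn x hind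
  obtain ⟨ρ, Psi, U', hρ, hU'o, hxU', hU'O, hPsi, hball, hU'b, hdlU'⟩ :=
    chart_inv T x hdl (U ∩ Ux) (Filter.inter_mem hU hUx)
  obtain ⟨H, hH0, hH⟩ := hD (fun j => T.lin j)
  have hlin : ∀ (z : Pt N) (j : Fin n), eval z (T.lin j) = ∑ k, T.l j k * z k := by
    intro z j
    simp [Chart.lin, map_sum]
  apply hH0
  refine MvPolynomial.funext_set
    (fun j => Set.Ioo (T.map x (T.e.symm (Sum.inr j)) - ρ) (T.map x (T.e.symm (Sum.inr j)) + ρ))
    (fun j => Set.Ioo_infinite (by linarith)) fun s hs => ?_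
  rw [map_zero]
  -- the point over `s`
  let w : Pt N := fun r => Sum.elim (fun _ => 0) s (T.e r)
  have hwl : ∀ i, w (T.e.symm (Sum.inl i)) = 0 := by
    intro i
    simp [w]
  have hwr : ∀ j, w (T.e.symm (Sum.inr j)) = s j := by
    intro j
    simp [w]
  have hwb : w ∈ Metric.ball (T.map x) ρ := by
    rw [Metric.mem_ball, dist_pi_lt_iff hρ]
    intro r
    obtain ⟨q, rfl⟩ := T.e.symm.surjective r
    rcases q with i | j
    · rw [hwl, chart_map_inl, hTh, hvan i x hx, dist_self]
      exact hρ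
    · rw [hwr]
      have h1 := hs j (Set.mem_univ _)
      rw [Set.mem_Ioo] at h1
      rw [Real.dist_eq, abs_lt]
      constructor <;> linarith [h1.1, h1.2]
  obtain ⟨hzU, hzw⟩ := hball w hwb
  have hzO := hU'O hzU
  have hzX : Psi w ∈ X := by
    refine hUxX _ hzO.2 fun i => ?_
    have h2 := chart_map_inl T (Psi w) i
    rw [hzw, hwl, hTh] at h2
    exact h2.symm
  have h3 := hH (Psi w) ⟨hzX, hzO.1⟩
  have h4 : (fun i => eval (Psi w) (T.lin i)) = s := by
    funext j
    rw [hlin, ← chart_map_inr, hzw, hwr]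
  rw [← h4]
  exact h3

end H71.RN
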