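import Pool.Agent.H71.RN.Ns
import Pool.Agent.H71.RN.Ldm

/-!
# [H71 RN DENSE] Zariski dense open subsets are dense, 20-30 lines

`S = {z ∈ X, Q z = 0}` has `DimLt S n` (`comp_zero` with `ns_dim_all`). If the statement fails, `X ∩ U ⊆ S`, so `DimLt (X ∩ U) n` (`DimLt.mono`), against `not_dimLt`.
-/

set_option autoImplicit false

namespace H71.RN

open MvPolynomial

variable {N : ℕ}

theorem dense_ne {X : Set (Pt N)} {n : ℕ} (hXa : IsAlgebraic X) (hX : IsNonsingular n X)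
    (Q : Pol N) (hQ : ∀ g : Pol N, (∀ z ∈ X, eval z Q ≠ 0 → eval z g = 0) → g ∈ vI X)
    (x : Pt N) (hx : x ∈ X) (U : Set (Pt N)) (hU : U ∈ nhds x) :
    ∃ z ∈ X, z ∈ U ∧ eval z Q ≠ 0 := by
  by_contra hcon
  push Not at hcon
  have h1 : DimLt {x | x ∈ X ∧ eval x Q = 0} n := comp_zero hXa (ns_dim_all hXa hX) Q hQ
  exact not_dimLt hX x hx U hU (h1.mono fun z hz => ⟨hz.1, hcon z hz.1 hz.2⟩)

end H71.RN
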