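import Pool.Agent.H71.RN.Basic

/-!
# [H71 RN NOE] Noetherian induction and decomposition of real algebraic sets, 120-180 lines

* `isAlgebraic_empty`, `isAlgebraic_union` (products), `zcl_union`.
* `noeth`: well founded induction on `vI X` (`Ideal (Pol N)` is Noetherian: `wellFounded_gt`). For `X` algebraic: if `X` is empty use `h0`. If `vI X` is prime use `hI` (an algebraic `W' ⊆ X`, `W' ≠ X` has `vI X < vI W'` because `zcl_eq`).
  Otherwise there are `a b ∉ vI X` with `a * b ∈ vI X` (`vI X ≠ ⊤` as `X` is not empty), `X = {x ∈ X, a x = 0} ∪ {x ∈ X, b x = 0}`, both algebraic (`isAlgebraic_zero`) and properly contained in `X`.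
* `decomp`: by `noeth`. `comp_split`: in a decomposition `F` of `W` take `W1 ∈ F` maximal for inclusion, `W2` the union of the `W' ∈ F` with `¬ W' ⊆ W1`; for each of them there is `s' ∈ vI W'`, `s' ∉ vI W1` (otherwise `vI W' ≤ vI W1`, `W1 ⊆ W'`, `W' = W1` by maximality); `s` the product (`vI W1` is prime).
* `no_chain`: the ideals `vI (Z i)` would be strictly increasing.
-/

set_option autoImplicit false

namespace H71.RN

open MvPolynomial

variable {N : ℕ}

theorem isAlgebraic_empty : IsAlgebraic (∅ : Set (Pt N)) := by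
  refine ⟨{1}, ?_⟩
  ext x
  constructor
  · intro h
    exact absurd h (Set.notMem_empty x)
  · intro h
    have h1 := h 1 (Set.mem_singleton _)
    rw [map_one] at h1
    exact absurd h1 one_ne_zero

theorem isAlgebraic_union {A B : Set (Pt N)} (hA : IsAlgebraic A) (hB : IsAlgebraic B) :
    IsAlgebraic (A ∪ B) := by
  obtain ⟨S, rfl⟩ := hA
  obtain ⟨T, rfl⟩ := hB
  refine ⟨{g | ∃ a ∈ S, ∃ b ∈ T, g = a * b}, ?_⟩
  ext x
  constructor
  · rintro (h | h)
    · rintro g ⟨a, ha, b, hb, rfl⟩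
      rw [map_mul, h a ha, zero_mul]
    · rintro g ⟨a, ha, b, hb, rfl⟩
      rw [map_mul, h b hb, mul_zero]
  · intro h
    by_cases h1 : ∀ a ∈ S, eval x a = 0
    · exact Or.inl h1
    · push Not at h1
      obtain ⟨a, ha, h2⟩ := h1
      refine Or.inr fun b hb => ?_
      have h3 := h (a * b) ⟨a, ha, b, hb, rfl⟩
      rw [map_mul] at h3
      exact (mul_eq_zero.1 h3).resolve_left h2

theorem zcl_mono {A B : Set (Pt N)} (h : A ⊆ B) : zcl A ⊆ zcl B :=
  fun _ hx g hg => hx g (vI_mono h hg)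

theorem zcl_union (A B : Set (Pt N)) : zcl (A ∪ B) = zcl A ∪ zcl B := by
  refine Set.Subset.antisymm ?_ ?_
  · exact zcl_min (isAlgebraic_union (isAlgebraic_zcl A) (isAlgebraic_zcl B))
      (Set.union_subset_union (subset_zcl A) (subset_zcl B))
  · exact Set.union_subset (zcl_mono Set.subset_union_left) (zcl_mono Set.subset_union_right)

theorem vI_lt {A B : Set (Pt N)} (hA : IsAlgebraic A) (h : A ⊆ B) (hne : A ≠ B) :
    vI B < vI A := by
  refine lt_of_le_of_ne (vI_mono h) fun he => hne (Set.Subset.antisymm h fun x hx => ?_)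
  rw [← zcl_eq hA]
  intro g hg
  rw [← he] at hg
  exact hg x hx

theorem noeth (Φ : Set (Pt N) → Prop) (h0 : Φ ∅)
    (hU : ∀ A B, IsAlgebraic A → IsAlgebraic B → Φ A → Φ B → Φ (A ∪ B))
    (hI : ∀ W, IsAlgebraic W → (vI W).IsPrime →
      (∀ W', IsAlgebraic W' → W' ⊆ W → W' ≠ W → Φ W') → Φ W) :
    ∀ X, IsAlgebraic X → Φ X := by
  have key : ∀ I : Ideal (Pol N), ∀ X, IsAlgebraic X → vI X = I → Φ X := by
    intro I
    induction I using WellFoundedGT.induction with
    | ind I ih =>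
      intro X hX hXI
      have ih' : ∀ W', IsAlgebraic W' → W' ⊆ X → W' ≠ X → Φ W' := by
        intro W' hW' hs hne
        refine ih (vI W') ?_ W' hW' rfl
        rw [← hXI]
        exact vI_lt hW' hs hne
      rcases Set.eq_empty_or_nonempty X with he | hne
      · rw [he]; exact h0
      · by_cases hp : (vI X).IsPrime
        · exact hI X hX hp ih'
        · have htop : vI X ≠ ⊤ := by
            intro ht
            obtain ⟨x, hx⟩ := hne
            have h1 : (1 : Pol N) ∈ vI X := by rw [ht]; trivial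
            have h2 := h1 x hx
            rw [map_one] at h2
            exact one_ne_zero h2
          have h2 : ∃ a b : Pol N, a * b ∈ vI X ∧ a ∉ vI X ∧ b ∉ vI X := by
            by_contra hcon
            push Not at hcon
            refine hp ((Ideal.isPrime_iff).2 ⟨htop, ?_⟩)
            intro a b hab
            by_cases ha : a ∈ vI X
            · exact Or.inl ha
            · exact Or.inr (hcon a b hab ha)
          obtain ⟨a, b, hab, ha, hb⟩ := h2
          have hX2 : X = {x | x ∈ X ∧ eval x a = 0} ∪ {x | x ∈ X ∧ eval x b = 0} := by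
            ext x
            constructor
            · intro hx
              have h3 := hab x hx
              rw [map_mul] at h3
              rcases mul_eq_zero.1 h3 with h4 | h4
              · exact Or.inl ⟨hx, h4⟩
              · exact Or.inr ⟨hx, h4⟩
            · rintro (h | h)
              · exact h.1
              · exact h.1
          have hsub : ∀ c : Pol N, c ∉ vI X → Φ {x | x ∈ X ∧ eval x c = 0} := by
            intro c hc
            refine ih' _ (isAlgebraic_zero hX c) (fun x hx => hx.1) ?_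
            intro he
            obtain ⟨x, hx, hne⟩ := not_mem_vI.1 hc
            have h5 : x ∈ {x | x ∈ X ∧ eval x c = 0} := by rw [he]; exact hx
            exact hne h5.2
          rw [hX2]
          exact hU _ _ (isAlgebraic_zero hX a) (isAlgebraic_zero hX b) (hsub a ha) (hsub b hb)
  exact fun X hX => key (vI X) X hX rfl

theorem decomp {X : Set (Pt N)} (hX : IsAlgebraic X) :
    ∃ F : Set (Set (Pt N)), F.Finite ∧ (∀ W ∈ F, IsAlgebraic W ∧ (vI W).IsPrime) ∧ X = ⋃₀ F := by
  refine noeth (fun X => ∃ F : Set (Set (Pt N)), F.Finite ∧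
    (∀ W ∈ F, IsAlgebraic W ∧ (vI W).IsPrime) ∧ X = ⋃₀ F) ?_ ?_ ?_ X hX
  · exact ⟨∅, Set.finite_empty, fun W hW => absurd hW (Set.notMem_empty W),
      Set.sUnion_empty.symm⟩
  · rintro A B hA hB ⟨F, hF, hF1, hF2⟩ ⟨G, hG, hG1, hG2⟩
    refine ⟨F ∪ G, hF.union hG, ?_, ?_⟩
    · rintro W (hW | hW)
      · exact hF1 W hW
      · exact hG1 W hW
    · rw [Set.sUnion_union, ← hF2, ← hG2]
  · intro W hW hp _
    refine ⟨{W}, Set.finite_singleton W, ?_, (Set.sUnion_singleton W).symm⟩
    intro W' hW'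
    rw [Set.mem_singleton_iff.1 hW']
    exact ⟨hW, hp⟩

theorem comp_split {W : Set (Pt N)} (hW : IsAlgebraic W) (hne : W.Nonempty) :
    ∃ (W1 W2 : Set (Pt N)) (s : Pol N), IsAlgebraic W1 ∧ (vI W1).IsPrime ∧ W = W1 ∪ W2 ∧
      s ∈ vI W2 ∧ s ∉ vI W1 := by
  classical
  obtain ⟨F, hF, hF1, hF2⟩ := decomp hW
  have hFne : F.Nonempty := by
    rw [Set.nonempty_iff_ne_empty]
    rintro rfl
    rw [Set.sUnion_empty] at hF2
    rw [hF2] at hne
    exact Set.not_nonempty_empty hne
  obtain ⟨W1, hW1⟩ := hF.exists_maximal hFne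
  have hW1F : W1 ∈ F := hW1.prop
  obtain ⟨hA1, hp1⟩ := hF1 W1 hW1F
  have hs : ∀ W' : Set (Pt N), ∃ s' : Pol N, W' ∈ F → ¬ W' ⊆ W1 → s' ∈ vI W' ∧ s' ∉ vI W1 := by
    intro W'
    by_cases h : W' ∈ F ∧ ¬ W' ⊆ W1
    · obtain ⟨hW'F, hnot⟩ := h
      have h2 : ¬ vI W' ≤ vI W1 := by
        intro hle
        have h3 : W1 ⊆ W' := by
          intro x hx
          rw [← zcl_eq (hF1 W' hW'F).1]
          exact fun g hg => hle hg x hx
        exact hnot (hW1.le_of_ge hW'F h3)
      obtain ⟨s', h3, h4⟩ := Set.not_subset.1 h2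
      exact ⟨s', fun _ _ => ⟨h3, h4⟩⟩
    · exact ⟨0, fun h1 h2 => absurd ⟨h1, h2⟩ h⟩
  choose s' hs' using hs
  refine ⟨W1, ⋃₀ {W' | W' ∈ F ∧ ¬ W' ⊆ W1},
    ∏ W' ∈ hF.toFinset.filter (fun W' => ¬ W' ⊆ W1), s' W', hA1, hp1, ?_, ?_, ?_⟩
  · ext x
    constructor
    · intro hx
      rw [hF2] at hx
      obtain ⟨W', hW', hxW'⟩ := hx
      by_cases h : W' ⊆ W1
      · exact Or.inl (h hxW')
      · exact Or.inr ⟨W', ⟨hW', h⟩, hxW'⟩
    · intro h
      rw [hF2]
      rcases h with h | ⟨W', ⟨hW', _⟩, hx⟩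
      · exact ⟨W1, hW1F, h⟩
      · exact ⟨W', hW', hx⟩
  · rintro x ⟨W', ⟨hW', hn⟩, hx⟩
    rw [map_prod]
    refine Finset.prod_eq_zero (i := W') ?_ ((hs' W' hW' hn).1 x hx)
    rw [Finset.mem_filter, Set.Finite.mem_toFinset]
    exact ⟨hW', hn⟩
  · intro hmem
    obtain ⟨W', hW', h2⟩ := hp1.prod_mem_iff.1 hmem
    rw [Finset.mem_filter, Set.Finite.mem_toFinset] at hW'
    exact (hs' W' hW'.1 hW'.2).2 h2

theorem no_chain (Z : ℕ → Set (Pt N)) (hZ : ∀ i, IsAlgebraic (Z i))
    (h : ∀ i, Z (i + 1) ⊆ Z i ∧ Z (i + 1) ≠ Z i) : False := by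
  have h1 : StrictMono fun i => vI (Z i) :=
    strictMono_nat_of_lt_succ fun i => vI_lt (hZ (i + 1)) (h i).1 (h i).2
  exact not_strictMono_of_wellFoundedGT _ h1

end H71.RN
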