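import Pool.Agent.H71.RN.Mxp
import Pool.Agent.H71.RN.Noe

/-!
# [H71 RN DEP] an algebraic relation at the maximal points, 30-60 lines

`noeth` with `Φ W = (W ⊆ X → ∃ H ≠ 0, ∀ x ∈ W, IsMx X phi G x → eval ![phi x, eval x G] H = 0)`, applied to `X` (`IsMx` contains `x ∈ X`). Empty set: `H = 1`. Union: product. Prime `W` (nonempty, as `vI W ≠ ⊤`): `hphi W` gives `Q`, `P`. If the hypothesis `hind` of `maxp` holds, take `W'` from `maxp` and `H` from `Φ W'`.
Otherwise there is `H₁ ≠ 0` with `H₁ (phi x, G x) = 0` for all `x ∈ W` with `Q x ≠ 0`; let `H₂` be the polynomial for `{x ∈ W, Q x = 0}` (proper algebraic subset), `H = H₁ * H₂`.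
-/

set_option autoImplicit false

namespace H71.RN

open MvPolynomial

variable {N : ℕ}

theorem dep {X : Set (Pt N)} (hXa : IsAlgebraic X) (phi : Pt N → ℝ) (hphi : HR X phi)
    (G : Pol N) : ∃ H : MvPolynomial (Fin 2) ℝ, H ≠ 0 ∧
      ∀ x, IsMx X phi G x → eval ![phi x, eval x G] H = 0 := by
  have hmain := noeth (fun W => W ⊆ X → ∃ H : MvPolynomial (Fin 2) ℝ, H ≠ 0 ∧
    ∀ x ∈ W, IsMx X phi G x → eval ![phi x, eval x G] H = 0) ?_ ?_ ?_ X hXa
  · obtain ⟨H, h1, h2⟩ := hmain (fun x hx => hx)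
    exact ⟨H, h1, fun x hx => h2 x hx.1 hx⟩
  · intro _
    exact ⟨1, one_ne_zero, fun x hx => absurd hx (Set.notMem_empty x)⟩
  · intro A B _ _ hA hB hAB
    obtain ⟨H, h1, h2⟩ := hA (fun x hx => hAB (Or.inl hx))
    obtain ⟨H', h3, h4⟩ := hB (fun x hx => hAB (Or.inr hx))
    refine ⟨H * H', mul_ne_zero h1 h3, fun x hx hm => ?_⟩
    rw [map_mul]
    rcases hx with hx | hx
    · rw [h2 x hx hm, zero_mul]
    · rw [h4 x hx hm, mul_zero]
  · intro W hWa hWp ih hWX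
    have hne : W.Nonempty := by
      by_contra hne
      rw [Set.not_nonempty_iff_eq_empty] at hne
      apply hWp.ne_top
      rw [Ideal.eq_top_iff_one, mem_vI, hne]
      exact fun x hx => absurd hx (Set.notMem_empty x)
    obtain ⟨Q, P, hQ, hPQ⟩ := hphi W hWa hWX hne
    by_cases hind : ∀ H : MvPolynomial (Fin 2) ℝ, H ≠ 0 →
      ∃ x ∈ W, eval x Q ≠ 0 ∧ eval ![phi x, eval x G] H ≠ 0
    · obtain ⟨W', h1, h2, h3, h4⟩ := maxp hWX hWa hWp phi G P Q hQ hPQ hind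
      obtain ⟨H, h5, h6⟩ := ih W' h1 h2 h3 (h2.trans hWX)
      exact ⟨H, h5, fun x hx hm => h6 x (h4 x hx hm) hm⟩
    · push Not at hind
      obtain ⟨H1, h1, h2⟩ := hind
      have hsub : {x | x ∈ W ∧ eval x Q = 0} ⊆ W := fun x hx => hx.1
      have hneq : {x | x ∈ W ∧ eval x Q = 0} ≠ W := by
        intro h
        apply hQ
        intro x hx
        rw [← h] at hx
        exact hx.2
      obtain ⟨H2, h3, h4⟩ := ih _ (isAlgebraic_zero hWa Q) hsub hneq (hsub.trans hWX)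
      refine ⟨H1 * H2, mul_ne_zero h1 h3, fun x hx hm => ?_⟩
      rw [map_mul]
      by_cases hxQ : eval x Q = 0
      · rw [h4 x ⟨hx, hxQ⟩ hm, mul_zero]
      · rw [h2 x hx hxQ, zero_mul]

end H71.RN
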