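import Pool.Agent.H39.SemDer
import Pool.Agent.H71.RN.Defs

/-!
# RN-DERF: derivations of a field dual to algebraically independent elements
-/

set_option autoImplicit false

namespace H71.RN

theorem exists_der {F : Type} [Field F] [Algebra ℝ F] {d : ℕ} (u : Fin d → F)
    (hu : AlgebraicIndependent ℝ u) :
    ∃ D : Fin d → Derivation ℝ F F, ∀ i j, D i (u j) = if i = j then 1 else 0 := by
  choose D hD using fun i : Fin d =>
    H39.Sem.exists_deriv (k := ℝ) u hu (fun j => if i = j then 1 else 0)
  exact ⟨D, hD⟩

end H71.RN
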