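import Pool.Agent.H71.RN.Basic

/-!
# [H71 RN EVA] evaluation of rational functions modulo the ideal of a prime algebraic set, 50-90 lines

`A = Pol N ⧸ vI W` is a domain, `F = FractionRing A`. Claim: if `aeval u H = 0` in `F`, `u i = mk (a i) / mk (b i)`, then `H (a x / b x) = 0` for all `x ∈ W` with `b i x ≠ 0`. Proof: let `B = ∏ b i`, `L = Localization.Away (mk B)`; evaluation at `x` is a ring homomorphism `A → ℝ` (`Ideal.Quotient.lift`) with `mk B ↦ B x ≠ 0`, so it extends to `L → ℝ` (an `ℝ`-algebra map);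
`L → F` is injective (`mk B ≠ 0` in a domain). The elements `w i = mk (a i) * (inverse of mk (b i)) ∈ L` map to `u i` and to `a i x / b i x`. `aeval w H ∈ L` maps to `aeval u H = 0`, so it is `0`, so `eval (a x / b x) H = 0`.
(Alternative without localization: with `M` the total degree of `H`, `B^M H(a/b)` is a polynomial expression.)
-/

set_option autoImplicit false

namespace H71.RN

open MvPolynomial

variable {N : ℕ}

/-- the polynomial `∏ b i ^ deg_i H * H (a / b)` -/
noncomputable def eva_G {d : ℕ} (a b : Fin d → Pol N) (H : MvPolynomial (Fin d) ℝ) : Pol N :=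
  ∑ m ∈ H.support, C (coeff m H) * ∏ i, (a i ^ m i * b i ^ (degreeOf i H - m i))

theorem eva_hom {K : Type*} [Field K] (ψ : Pol N →+* K) (ι : ℝ →+* K) (hC : ∀ r, ψ (C r) = ι r)
    {d : ℕ} (a b : Fin d → Pol N) (hb : ∀ i, ψ (b i) ≠ 0) (H : MvPolynomial (Fin d) ℝ) :
    ψ (eva_G a b H) = (∏ i, ψ (b i) ^ degreeOf i H) * eval₂ ι (fun i => ψ (a i) / ψ (b i)) H := by
  unfold eva_G
  rw [map_sum, eval₂_eq', Finset.mul_sum]
  apply Finset.sum_congr rfl
  intro m hm
  rw [map_mul, hC, map_prod, mul_left_comm]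
  congr 1
  rw [← Finset.prod_mul_distrib]
  apply Finset.prod_congr rfl
  intro i _
  have hle : m i ≤ degreeOf i H := monomial_le_degreeOf i hm
  rw [map_mul, map_pow, map_pow, div_pow]
  have h1 : ψ (b i) ^ degreeOf i H = ψ (b i) ^ (degreeOf i H - m i) * ψ (b i) ^ m i := by
    rw [← pow_add, Nat.sub_add_cancel hle]
  rw [h1]
  have h2 : ψ (b i) ^ m i ≠ 0 := pow_ne_zero _ (hb i)
  field_simp

theorem eva {W : Set (Pt N)} [hp : (vI W).IsPrime] {d : ℕ} (a b : Fin d → Pol N)
    (hb : ∀ i, b i ∉ vI W) (H : MvPolynomial (Fin d) ℝ)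
    (hH : aeval (fun i => algebraMap (Pol N ⧸ vI W) (FractionRing (Pol N ⧸ vI W))
        (Ideal.Quotient.mk (vI W) (a i)) /
      algebraMap (Pol N ⧸ vI W) (FractionRing (Pol N ⧸ vI W))
        (Ideal.Quotient.mk (vI W) (b i))) H = 0) :
    ∀ x ∈ W, (∀ i, eval x (b i) ≠ 0) → eval (fun i => eval x (a i) / eval x (b i)) H = 0 := by
  intro x hx hbx
  have hinj : Function.Injective (algebraMap (Pol N ⧸ vI W) (FractionRing (Pol N ⧸ vI W))) :=
    IsFractionRing.injective _ _
  have h1 := eva_hom ((algebraMap (Pol N ⧸ vI W) (FractionRing (Pol N ⧸ vI W))).comp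
    (Ideal.Quotient.mk (vI W))) (algebraMap ℝ (FractionRing (Pol N ⧸ vI W)))
    (fun r => by
      rw [IsScalarTower.algebraMap_apply ℝ (Pol N ⧸ vI W) (FractionRing (Pol N ⧸ vI W))]
      rfl) a b (by
      intro i h
      apply hb i
      rw [RingHom.comp_apply] at h
      have h2 : Ideal.Quotient.mk (vI W) (b i) = 0 := by
        apply hinj
        rw [h, map_zero]
      exact Ideal.Quotient.eq_zero_iff_mem.1 h2) H
  have h2 : ((algebraMap (Pol N ⧸ vI W) (FractionRing (Pol N ⧸ vI W))).comp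
    (Ideal.Quotient.mk (vI W))) (eva_G a b H) = 0 := by
    rw [h1]
    rw [aeval_def] at hH
    have h3 : eval₂ (algebraMap ℝ (FractionRing (Pol N ⧸ vI W)))
        (fun i => ((algebraMap (Pol N ⧸ vI W) (FractionRing (Pol N ⧸ vI W))).comp
          (Ideal.Quotient.mk (vI W))) (a i) / ((algebraMap (Pol N ⧸ vI W) (FractionRing (Pol N ⧸ vI W))).comp
          (Ideal.Quotient.mk (vI W))) (b i)) H = 0 := hH
    rw [h3, mul_zero]
  have h3 : eva_G a b H ∈ vI W := by
    rw [RingHom.comp_apply] at h2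
    have h4 : Ideal.Quotient.mk (vI W) (eva_G a b H) = 0 := by
      apply hinj
      rw [h2, map_zero]
    exact Ideal.Quotient.eq_zero_iff_mem.1 h4
  have h4 := eva_hom (eval x : Pol N →+* ℝ) (RingHom.id ℝ) (fun r => by rw [eval_C]; rfl) a b hbx H
  rw [h3 x hx] at h4
  have h5 := mul_eq_zero.1 h4.symm
  rcases h5 with h5 | h5
  · exact absurd h5 (Finset.prod_ne_zero_iff.2 fun i _ => pow_ne_zero _ (hbx i))
  · exact h5

end H71.RN
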