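import Pool.Agent.H71.RN.Derf
import Pool.Agent.H71.RN.Eva

/-!
# [H71 RN DERP] polynomial vector fields dual to algebraically independent rational functions, 100-160 lines

`F = FractionRing (Pol N ⧸ vI W)`, `u j = mk (a j) / mk (b j)`. By `eva` and `hind`, `u` is algebraically independent over `ℝ` (if `aeval u H = 0` with `H ≠ 0`, `hind` gives `x ∈ W` with all `b i x ≠ 0` and `H (a x / b x) ≠ 0`, against `eva`). Take `D i` from `exists_der`.
Let `h ∈ Pol N`, `h ∉ vI W`, be a common denominator of all `D i (mk X_k)`: `mk h * D i (mk X_k) = mk (V i k)` (finitely many `i, k`; e.g. `IsLocalization.exist_integer_multiples_of_finset`). Then for every polynomial `g`: `mk (vf (V i) g) = mk h * D i (mk g)` (both sides are derivations in `g`, or induction on `g`), so `vf (V i)` preserves `vI W`,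
and `D i (a/b) = (b D a - a D b)/b^2 = δ_ij` gives the last statement after multiplication by `h b^2`.
-/

set_option autoImplicit false

namespace H71.RN

open MvPolynomial

variable {N : ℕ}

/-- the map to the field of fractions -/
private noncomputable def derpI (I : Ideal (Pol N)) [I.IsPrime] :
    Pol N →+* FractionRing (Pol N ⧸ I) :=
  (algebraMap (Pol N ⧸ I) (FractionRing (Pol N ⧸ I))).comp (Ideal.Quotient.mk I)

private theorem derpI_zero (I : Ideal (Pol N)) [I.IsPrime] (g : Pol N) :
    derpI I g = 0 ↔ g ∈ I := by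
  unfold derpI
  rw [RingHom.comp_apply, ← Ideal.Quotient.eq_zero_iff_mem]
  exact map_eq_zero_iff _ (IsFractionRing.injective (Pol N ⧸ I) (FractionRing (Pol N ⧸ I)))

private theorem derpI_C (I : Ideal (Pol N)) [I.IsPrime] (r : ℝ) :
    derpI I (C r) = algebraMap ℝ (FractionRing (Pol N ⧸ I)) r := by
  unfold derpI
  rw [RingHom.comp_apply, IsScalarTower.algebraMap_apply ℝ (Pol N ⧸ I) (FractionRing (Pol N ⧸ I))]
  rfl

private theorem derpI_D (I : Ideal (Pol N)) [I.IsPrime]
    (D : Derivation ℝ (FractionRing (Pol N ⧸ I)) (FractionRing (Pol N ⧸ I))) (g : Pol N) :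
    D (derpI I g) = ∑ k, D (derpI I (X k)) * derpI I (pderiv k g) := by
  induction g using MvPolynomial.induction_on with
  | C r =>
    rw [derpI_C, Derivation.map_algebraMap]
    symm
    refine Finset.sum_eq_zero fun k _ => ?_
    rw [pderiv_C, map_zero, mul_zero]
  | add p q hp hq =>
    rw [map_add, map_add, hp, hq, ← Finset.sum_add_distrib]
    exact Finset.sum_congr rfl fun k _ => by rw [map_add, map_add, mul_add]
  | mul_X p n hp =>
    rw [map_mul, Derivation.leibniz, hp, smul_eq_mul, smul_eq_mul, Finset.mul_sum]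
    have h : ∀ k, D (derpI I (X k)) * derpI I (pderiv k (p * X n)) =
        derpI I (X n) * (D (derpI I (X k)) * derpI I (pderiv k p)) +
        if k = n then derpI I p * D (derpI I (X n)) else 0 := by
      intro k
      rw [Derivation.leibniz, smul_eq_mul, smul_eq_mul, map_add, map_mul, map_mul]
      by_cases hk : k = n
      · subst hk
        rw [pderiv_X_self, if_pos rfl, map_one]
        ring
      · rw [pderiv_X_of_ne (Ne.symm hk), if_neg hk, map_zero]
        ring
    rw [Finset.sum_congr rfl fun k _ => h k, Finset.sum_add_distrib, Finset.sum_ite_eq',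
      if_pos (Finset.mem_univ _), add_comm]

theorem exists_vf {W : Set (Pt N)} (hp : (vI W).IsPrime) {d : ℕ} (a b : Fin d → Pol N)
    (hb : ∀ i, b i ∉ vI W)
    (hind : ∀ H : MvPolynomial (Fin d) ℝ, H ≠ 0 → ∃ x ∈ W, (∀ i, eval x (b i) ≠ 0) ∧
      eval (fun i => eval x (a i) / eval x (b i)) H ≠ 0) :
    ∃ (h : Pol N) (V : Fin d → Fin N → Pol N), h ∉ vI W ∧
      (∀ i, ∀ g ∈ vI W, vf (V i) g ∈ vI W) ∧
      ∀ i j, b j * vf (V i) (a j) - a j * vf (V i) (b j) -
        (if i = j then h * b j ^ 2 else 0) ∈ vI W := by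
  have := hp
  set I : Ideal (Pol N) := vI W with hI
  have hbI : ∀ i, derpI I (b i) ≠ 0 := fun i h => hb i ((derpI_zero I (b i)).1 h)
  have hu : AlgebraicIndependent ℝ (fun i => derpI I (a i) / derpI I (b i)) := by
    rw [algebraicIndependent_iff]
    intro H hH
    by_contra hne
    obtain ⟨x, hx, hbx, hxH⟩ := hind H hne
    exact hxH (eva a b hb H hH x hx hbx)
  obtain ⟨D, hD⟩ := exists_der _ hu
  obtain ⟨c, hc⟩ := IsLocalization.exist_integer_multiples_of_finite
    (nonZeroDivisors (Pol N ⧸ I)) (S := FractionRing (Pol N ⧸ I))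
    (fun q : Fin d × Fin N => D q.1 (derpI I (X q.2)))
  choose r hr using hc
  obtain ⟨h, hh⟩ := Ideal.Quotient.mk_surjective (c : Pol N ⧸ I)
  choose V hV using fun q : Fin d × Fin N => Ideal.Quotient.mk_surjective (r q)
  have hVk : ∀ i k, derpI I (V (i, k)) = derpI I h * D i (derpI I (X k)) := by
    intro i k
    unfold derpI
    rw [RingHom.comp_apply, hV, hr (i, k), Algebra.smul_def, ← hh]
    rfl
  have key : ∀ i g, derpI I (vf (fun k => V (i, k)) g) = derpI I h * D i (derpI I g) := by
    intro i g
    rw [vf_apply, map_sum, derpI_D, Finset.mul_sum]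
    refine Finset.sum_congr rfl fun k _ => ?_
    rw [map_mul, hVk]
    ring
  refine ⟨h, fun i k => V (i, k), ?_, ?_, ?_⟩
  · intro hmem
    have h1 : Ideal.Quotient.mk I h = 0 := Ideal.Quotient.eq_zero_iff_mem.2 hmem
    rw [hh] at h1
    exact nonZeroDivisors.ne_zero c.2 h1
  · intro i g hg
    rw [← derpI_zero I, key, (derpI_zero I g).2 hg, map_zero, mul_zero]
  · intro i j
    rw [← derpI_zero I, map_sub, map_sub, map_mul, map_mul, key, key]
    have h1 : derpI I (a j) = (derpI I (a j) / derpI I (b j)) * derpI I (b j) := by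
      rw [div_mul_cancel₀ _ (hbI j)]
    have h2 : D i (derpI I (a j)) = (derpI I (a j) / derpI I (b j)) * D i (derpI I (b j)) +
        derpI I (b j) * (if i = j then 1 else 0) := by
      conv_lhs => rw [h1]
      rw [Derivation.leibniz, smul_eq_mul, smul_eq_mul, hD]
    have h3 : derpI I (if i = j then h * b j ^ 2 else 0) =
        derpI I h * derpI I (b j) ^ 2 * (if i = j then 1 else 0) := by
      split_ifs
      · rw [map_mul, map_pow, mul_one]
      · rw [map_zero, mul_zero]
    rw [h2, h3]
    have h4 : derpI I (b j) * (derpI I (a j) / derpI I (b j)) = derpI I (a j) := by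
      rw [mul_comm, div_mul_cancel₀ _ (hbI j)]
    linear_combination (derpI I h * D i (derpI I (b j))) * h4

end H71.RN
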