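import Pool.Agent.H71.RN.Noe

/-!
# [H71 RN DIM] algebraic dimension: first properties and the dimension drop, 100-160 lines

* `mono`, `union` (product of the two `H`), `zcl` (`eval (fun i => eval x (g i)) H = eval x (aeval g H)`, and `aeval g H ∈ vI A` iff it vanishes on `A`), `succ` (rename the variables by `Fin.castSucc`, injective), `dimLt_zero` (`MvPolynomial (Fin 0) ℝ` are the constants).
* `drop`: given `g : Fin n → Pol N` apply `hW` to `(g, s)` (`Fin.snoc g s`): `H ≠ 0` in `n + 1` variables, `aeval (g, s) H ∈ vI W`. Let `T` be the last variable. Write `H = T^a * H'` with `H'` not divisible by `T` (e.g. take `H` of minimal total degree with these properties; or use `finSuccEquiv`-like isomorphisms and powers of `X`).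
  As `vI W` is prime and `s ∉ vI W`, `aeval (g, s) H' ∈ vI W`. The polynomial `H'' = H'(·, 0)` in `n` variables is `≠ 0` (as `T` does not divide `H'`), and on `W'` (`s = 0`): `0 = H'(g, s) = H''(g)`.
* `comp_zero`: `decomp` gives `X = ⋃ X_i`. Let `F'` be the set of those `X_i` with `Q ∉ vI X_i` and `X'` their union: algebraic; if `g ∈ vI X'` then `g` vanishes at all `z ∈ X` with `Q z ≠ 0` (such a `z` lies in some `X_i`, and `Q ∉ vI X_i`), so `g ∈ vI X` by `hQ`; so `X ⊆ zcl X' = X'`.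
  So `{x ∈ X, Q x = 0}` is the finite union of the `{x ∈ X_i, Q x = 0}`, `X_i ∈ F'`, each `DimLt n` by `drop` with `s = Q` (`mono` for `X_i ⊆ X`).
-/

set_option autoImplicit false

namespace H71.RN

open MvPolynomial

variable {N : ℕ}

private theorem dim_eval_aeval {n : ℕ} (x : Pt N) (g : Fin n → Pol N) (H : MvPolynomial (Fin n) ℝ) :
    eval x (aeval g H) = eval (fun i => eval x (g i)) H := by
  induction H using MvPolynomial.induction_on with
  | C a =>
    rw [aeval_C, eval_C]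
    exact eval_C a
  | add p q hp hq => rw [map_add, map_add, map_add, hp, hq]
  | mul_X p i hp => rw [map_mul, map_mul, map_mul, hp, aeval_X, eval_X]

theorem DimLt.mono {A B : Set (Pt N)} {n : ℕ} (hB : DimLt B n) (h : A ⊆ B) : DimLt A n := by
  intro g
  obtain ⟨H, h1, h2⟩ := hB g
  exact ⟨H, h1, fun x hx => h2 x (h hx)⟩

theorem DimLt.union {A B : Set (Pt N)} {n : ℕ} (hA : DimLt A n) (hB : DimLt B n) :
    DimLt (A ∪ B) n := by
  intro g
  obtain ⟨H, h1, h2⟩ := hA g
  obtain ⟨H', h3, h4⟩ := hB g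
  refine ⟨H * H', mul_ne_zero h1 h3, fun x hx => ?_⟩
  rw [map_mul]
  rcases hx with hx | hx
  · rw [h2 x hx, zero_mul]
  · rw [h4 x hx, mul_zero]

theorem DimLt.zcl {A : Set (Pt N)} {n : ℕ} (hA : DimLt A n) : DimLt (zcl A) n := by
  intro g
  obtain ⟨H, h1, h2⟩ := hA g
  refine ⟨H, h1, fun x hx => ?_⟩
  rw [← dim_eval_aeval]
  apply hx
  intro y hy
  rw [dim_eval_aeval]
  exact h2 y hy

theorem DimLt.succ {A : Set (Pt N)} {n : ℕ} (hA : DimLt A n) : DimLt A (n + 1) := by
  intro g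
  obtain ⟨H, h1, h2⟩ := hA (fun i => g i.castSucc)
  refine ⟨rename Fin.castSucc H, ?_, fun x hx => ?_⟩
  · intro h
    apply h1
    apply rename_injective _ (Fin.castSucc_injective n)
    rw [h, map_zero]
  · rw [eval_rename]
    exact h2 x hx

theorem dimLt_zero {A : Set (Pt N)} : DimLt A 0 ↔ A = ∅ := by
  constructor
  · intro h
    by_contra hne
    obtain ⟨x, hx⟩ := Set.nonempty_iff_ne_empty.2 hne
    obtain ⟨H, h1, h2⟩ := h (fun _ => 0)
    have h3 := h2 x hx
    rw [eq_C_of_isEmpty H, eval_C] at h3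
    apply h1
    rw [eq_C_of_isEmpty H, h3, C_0]
  · rintro rfl g
    exact ⟨1, one_ne_zero, fun x hx => absurd hx (Set.notMem_empty x)⟩

theorem drop {W W' : Set (Pt N)} {n : ℕ} (hp : (vI W).IsPrime) (hW : DimLt W (n + 1))
    (hWW : W' ⊆ W) (s : Pol N) (hs : s ∈ vI W') (hs' : s ∉ vI W) : DimLt W' n := by
  intro g
  obtain ⟨H, h1, h2⟩ := hW (Fin.cons s g)
  have hcons : ∀ x : Pt N, (fun i => eval x ((Fin.cons s g : Fin (n + 1) → Pol N) i)) =
      Fin.cons (eval x s) (fun i => eval x (g i)) := by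
    intro x
    funext i
    refine Fin.cases ?_ (fun i => ?_) i
    · rw [Fin.cons_zero, Fin.cons_zero]
    · rw [Fin.cons_succ, Fin.cons_succ]
  have hF0 : finSuccEquiv ℝ n H ≠ 0 := by
    intro h
    apply h1
    apply (finSuccEquiv ℝ n).injective
    rw [h, map_zero]
  obtain ⟨F', hF, hF'⟩ :=
    Polynomial.exists_eq_pow_rootMultiplicity_mul_and_not_dvd (finSuccEquiv ℝ n H) hF0 0
  rw [Polynomial.C_0, sub_zero] at hF hF'
  rw [Polynomial.X_dvd_iff] at hF'
  obtain ⟨a, ha⟩ : ∃ a : ℕ, a = Polynomial.rootMultiplicity 0 (finSuccEquiv ℝ n H) := ⟨_, rfl⟩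
  rw [← ha] at hF
  obtain ⟨E, hE⟩ : ∃ E : Pol N, E = aeval (Fin.cons s g : Fin (n + 1) → Pol N)
      ((finSuccEquiv ℝ n).symm F') := ⟨_, rfl⟩
  have hEx : ∀ x : Pt N, eval x E = Polynomial.eval (eval x s)
      (Polynomial.map (eval (fun i => eval x (g i))) F') := by
    intro x
    rw [hE, dim_eval_aeval, hcons, eval_eq_eval_mv_eval', AlgEquiv.apply_symm_apply]
  have hprod : s ^ a * E ∈ vI W := by
    intro x hx
    have h3 := h2 x hx
    rw [hcons, eval_eq_eval_mv_eval', hF, Polynomial.map_mul, Polynomial.map_pow, Polynomial.map_X,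
      Polynomial.eval_mul, Polynomial.eval_pow, Polynomial.eval_X] at h3
    rw [map_mul, map_pow, hEx]
    exact h3
  have hEW : E ∈ vI W := by
    rcases hp.mem_or_mem hprod with h3 | h3
    · exact absurd (hp.mem_of_pow_mem _ h3) hs'
    · exact h3
  refine ⟨F'.coeff 0, hF', fun x hx => ?_⟩
  have h3 := hEW x (hWW hx)
  rw [hEx, hs x hx, ← Polynomial.coeff_zero_eq_eval_zero, Polynomial.coeff_map] at h3
  exact h3

private theorem dim_sUnion_alg {F : Set (Set (Pt N))} (hF : F.Finite)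
    (h : ∀ W ∈ F, IsAlgebraic W) : IsAlgebraic (⋃₀ F) := by
  induction F, hF using Set.Finite.induction_on with
  | empty =>
    rw [Set.sUnion_empty]
    exact isAlgebraic_empty
  | @insert W F _ _ ih =>
    rw [Set.sUnion_insert]
    exact isAlgebraic_union (h W (Set.mem_insert _ _))
      (ih fun W' hW' => h W' (Set.mem_insert_of_mem _ hW'))

private theorem dim_biUnion {ι : Type} {S : Set ι} (hS : S.Finite) (f : ι → Set (Pt N)) {n : ℕ}
    (h : ∀ i ∈ S, DimLt (f i) n) : DimLt (⋃ i ∈ S, f i) n := by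
  induction S, hS using Set.Finite.induction_on with
  | empty =>
    rw [Set.biUnion_empty]
    exact fun g => ⟨1, one_ne_zero, fun x hx => absurd hx (Set.notMem_empty x)⟩
  | @insert i S _ _ ih =>
    rw [Set.biUnion_insert]
    exact (h i (Set.mem_insert _ _)).union
      (ih fun j hj => h j (Set.mem_insert_of_mem _ hj))

theorem comp_zero {X : Set (Pt N)} (hXa : IsAlgebraic X) {n : ℕ} (hX : DimLt X (n + 1))
    (Q : Pol N) (hQ : ∀ g : Pol N, (∀ z ∈ X, eval z Q ≠ 0 → eval z g = 0) → g ∈ vI X) :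
    DimLt {x | x ∈ X ∧ eval x Q = 0} n := by
  obtain ⟨F, hF, hFW, hXF⟩ := decomp hXa
  obtain ⟨F', hF'⟩ : ∃ F' : Set (Set (Pt N)), F' = {W | W ∈ F ∧ Q ∉ vI W} := ⟨_, rfl⟩
  have hF'F : F' ⊆ F := by
    rw [hF']
    exact fun W hW => hW.1
  have hfin : F'.Finite := hF.subset hF'F
  have halg : IsAlgebraic (⋃₀ F') := dim_sUnion_alg hfin fun W hW => (hFW W (hF'F hW)).1
  have hsub : X ⊆ ⋃₀ F' := by
    intro x hx
    rw [← zcl_eq halg]
    intro g hg
    refine hQ g (fun z hz hzQ => ?_) x hx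
    rw [hXF] at hz
    obtain ⟨W, hW, hzW⟩ := hz
    apply hg z
    refine ⟨W, ?_, hzW⟩
    rw [hF']
    exact ⟨hW, fun hh => hzQ (hh z hzW)⟩
  have hU : DimLt (⋃ W ∈ F', {x | x ∈ W ∧ eval x Q = 0}) n := by
    refine dim_biUnion hfin _ fun W hW => ?_
    have hWX : W ⊆ X := by
      rw [hXF]
      exact Set.subset_sUnion_of_mem (hF'F hW)
    have hWQ : Q ∉ vI W := by
      rw [hF'] at hW
      exact hW.2
    exact drop (hFW W (hF'F hW)).2 (hX.mono hWX) (fun x hx => hx.1) Q (fun x hx => hx.2) hWQ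
  refine hU.mono ?_
  rintro x ⟨hx, hxQ⟩
  obtain ⟨W, hW, hxW⟩ := hsub hx
  rw [Set.mem_iUnion₂]
  exact ⟨W, hW, hxW, hxQ⟩

end H71.RN
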