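import Pool.Agent.H71.RN.Basic

/-!
# [H71 RN EZ] the polynomial e with zero set {x : (x, a) in the closure of the graph}, 70-110 lines

`vI (gr X f)` is generated by finitely many `R_1, ..., R_s` (`Pol (N + m)` is Noetherian). For `R ∈ Pol (N + m)` let `R^a ∈ Pol N` be `aeval (Fin.append X (fun j => C (a j))) R`, `eval x R^a = eval (pr x a) R`. `E = ∑ (R_l^a)^2`. If `E x = 0` then all `R_l (x, a) = 0`, so all elements of `vI (gr X f)` vanish at `pr x a`.
Estimate: for every `R ∈ Pol (N + m)` there are polynomials `S_j ∈ Pol (N + m)` with `eval (pr x y) R - eval (pr x a) R = ∑ j, (y j - a j) * eval (pr x y) (S_j)` for all `x, y` (induction on `R`: `C`, sums, and products with a variable). For `R ∈ vI (gr X f)` and `x ∈ X`, `y = f x`: `|eval (pr x a) R| ≤ ∑ j, |f x j - a j| * |eval (pr x (f x)) (S_j)|`,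
and `x ↦ eval (pr x (f x)) S_j` is continuous on the compact set `X`, so bounded. Square and use Cauchy-Schwarz.
-/

set_option autoImplicit false

namespace H71.RN

open MvPolynomial

variable {N m : ℕ}

theorem ez_restr (a : Pt m) (R : Pol (N + m)) :
    ∃ Ra : Pol N, ∀ x, eval x Ra = eval (pr x a) R := by
  induction R using MvPolynomial.induction_on with
  | C c => exact ⟨C c, fun x => by rw [eval_C, eval_C]⟩
  | add p q hp hq =>
    obtain ⟨p', hp⟩ := hp
    obtain ⟨q', hq⟩ := hq
    exact ⟨p' + q', fun x => by rw [map_add, map_add, hp, hq]⟩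
  | mul_X p n hp =>
    obtain ⟨p', hp⟩ := hp
    refine Fin.addCases (fun i => ?_) (fun j => ?_) n
    · refine ⟨p' * X i, fun x => ?_⟩
      rw [map_mul, map_mul, hp, eval_X, eval_X]
      congr 1
      exact (Fin.append_left x a i).symm
    · refine ⟨p' * C (a j), fun x => ?_⟩
      rw [map_mul, map_mul, hp, eval_X, eval_C]
      congr 1
      exact (Fin.append_right x a j).symm

theorem ez_div (a : Pt m) (R : Pol (N + m)) :
    ∃ S : Fin m → Pol (N + m), ∀ (x : Pt N) (y : Pt m),
      eval (pr x y) R - eval (pr x a) R = ∑ j, (y j - a j) * eval (pr x y) (S j) := by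
  classical
  induction R using MvPolynomial.induction_on with
  | C c =>
    refine ⟨fun _ => 0, fun x y => ?_⟩
    rw [eval_C, eval_C, sub_self]
    simp
  | add p q hp hq =>
    obtain ⟨S, hp⟩ := hp
    obtain ⟨T, hq⟩ := hq
    refine ⟨fun j => S j + T j, fun x y => ?_⟩
    have h : ∀ j, (y j - a j) * eval (pr x y) (S j + T j)
        = (y j - a j) * eval (pr x y) (S j) + (y j - a j) * eval (pr x y) (T j) := by
      intro j
      rw [map_add, mul_add]
    rw [Finset.sum_congr rfl fun j _ => h j, Finset.sum_add_distrib, ← hp, ← hq, map_add, map_add]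
    ring
  | mul_X p n hp =>
    obtain ⟨S, hp⟩ := hp
    refine Fin.addCases (fun i => ?_) (fun j0 => ?_) n
    · refine ⟨fun j => S j * X (Fin.castAdd m i), fun x y => ?_⟩
      have h : ∀ j, (y j - a j) * eval (pr x y) (S j * X (Fin.castAdd m i))
          = (y j - a j) * eval (pr x y) (S j) * x i := by
        intro j
        have e : pr x y (Fin.castAdd m i) = x i := Fin.append_left x y i
        rw [map_mul, eval_X, e, mul_assoc]
      have e1 : pr x y (Fin.castAdd m i) = x i := Fin.append_left x y i
      have e2 : pr x a (Fin.castAdd m i) = x i := Fin.append_left x a i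
      rw [Finset.sum_congr rfl fun j _ => h j, ← Finset.sum_mul, ← hp, map_mul, map_mul, eval_X,
        eval_X, e1, e2]
      ring
    · refine ⟨fun j => S j * C (a j0) + if j = j0 then p else 0, fun x y => ?_⟩
      have h : ∀ j, (y j - a j) * eval (pr x y) (S j * C (a j0) + if j = j0 then p else 0)
          = (y j - a j) * eval (pr x y) (S j) * a j0
            + if j = j0 then (y j0 - a j0) * eval (pr x y) p else 0 := by
        intro j
        rw [map_add, map_mul, eval_C]
        by_cases hj : j = j0
        · rw [if_pos hj, if_pos hj, hj]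
          ring
        · rw [if_neg hj, if_neg hj, map_zero]
          ring
      have e1 : pr x y (Fin.natAdd N j0) = y j0 := Fin.append_right x y j0
      have e2 : pr x a (Fin.natAdd N j0) = a j0 := Fin.append_right x a j0
      rw [Finset.sum_congr rfl fun j _ => h j, Finset.sum_add_distrib, ← Finset.sum_mul, ← hp,
        Finset.sum_ite_eq', if_pos (Finset.mem_univ _), map_mul, map_mul, eval_X, eval_X, e1, e2]
      ring

theorem ez {X : Set (Pt N)} (hXc : IsCompact X) (f : Pt N → Pt m) (hc : ContinuousOn f X)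
    (a : Pt m) :
    ∃ (E : Pol N) (C : ℝ), 0 < C ∧ (∀ x, 0 ≤ eval x E) ∧
      (∀ x ∈ X, eval x E ≤ C * ∑ j, (f x j - a j) ^ 2) ∧
      ∀ x ∈ X, eval x E = 0 → pr x a ∈ zcl (gr X f) := by
  classical
  obtain ⟨S, hS⟩ := (inferInstance : IsNoetherianRing (Pol (N + m))).noetherian (vI (gr X f))
  have hin : ∀ R ∈ S, R ∈ vI (gr X f) := fun R hR => hS ▸ Ideal.subset_span hR
  choose Ra hRa using fun R : Pol (N + m) => ez_restr a R
  choose Sj hSj using fun R : Pol (N + m) => ez_div a R
  have hpr : ContinuousOn (fun x : Pt N => pr x (f x)) X := by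
    rw [continuousOn_pi]
    intro n
    refine Fin.addCases (fun i => ?_) (fun j => ?_) n
    · have h : (fun x : Pt N => pr x (f x) (Fin.castAdd m i)) = fun x => x i := by
        funext x
        exact Fin.append_left x (f x) i
      rw [h]
      exact (continuous_apply i).continuousOn
    · have h : (fun x : Pt N => pr x (f x) (Fin.natAdd N j)) = fun x => f x j := by
        funext x
        exact Fin.append_right x (f x) j
      rw [h]
      exact (continuous_apply j).comp_continuousOn hc
  have hbd : ∀ R : Pol (N + m), ∃ M : ℝ, ∀ x ∈ X, ∑ j, eval (pr x (f x)) (Sj R j) ^ 2 ≤ M := by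
    intro R
    have hcont : ContinuousOn (fun x : Pt N => ∑ j, eval (pr x (f x)) (Sj R j) ^ 2) X := by
      apply continuousOn_finset_sum
      intro j _
      exact ((MvPolynomial.continuous_eval (Sj R j)).comp_continuousOn hpr).pow 2
    obtain ⟨M, hM⟩ := hXc.exists_bound_of_continuousOn hcont
    refine ⟨M, fun x hx => ?_⟩
    have h := hM x hx
    rw [Real.norm_eq_abs] at h
    exact (le_abs_self _).trans h
  choose M hM using hbd
  have hE : ∀ x, eval x (∑ R ∈ S, Ra R ^ 2) = ∑ R ∈ S, eval (pr x a) R ^ 2 := by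
    intro x
    rw [map_sum]
    apply Finset.sum_congr rfl
    intro R _
    rw [map_pow, hRa]
  refine ⟨∑ R ∈ S, Ra R ^ 2, ∑ R ∈ S, |M R| + 1,
    by have := Finset.sum_nonneg (s := S) (f := fun R => |M R|) fun R _ => abs_nonneg _
       linarith, ?_, ?_, ?_⟩
  · intro x
    rw [hE]
    exact Finset.sum_nonneg fun R _ => sq_nonneg _
  · intro x hx
    rw [hE]
    have hQ : 0 ≤ ∑ j, (f x j - a j) ^ 2 := Finset.sum_nonneg fun j _ => sq_nonneg _
    calc ∑ R ∈ S, eval (pr x a) R ^ 2 ≤ ∑ R ∈ S, |M R| * ∑ j, (f x j - a j) ^ 2 := by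
          apply Finset.sum_le_sum
          intro R hR
          have h0 : eval (pr x (f x)) R = 0 := hin R hR (pr x (f x)) ⟨by rw [p1_pr]; exact hx, by
            rw [p1_pr, p2_pr]⟩
          have h1 := hSj R x (f x)
          rw [h0, zero_sub] at h1
          have h2 : eval (pr x a) R ^ 2 = (∑ j, (f x j - a j) * eval (pr x (f x)) (Sj R j)) ^ 2 := by
            rw [← h1, neg_sq]
          rw [h2]
          calc (∑ j, (f x j - a j) * eval (pr x (f x)) (Sj R j)) ^ 2
              ≤ (∑ j, (f x j - a j) ^ 2) * ∑ j, eval (pr x (f x)) (Sj R j) ^ 2 :=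
                Finset.sum_mul_sq_le_sq_mul_sq _ _ _
            _ ≤ (∑ j, (f x j - a j) ^ 2) * |M R| :=
                mul_le_mul_of_nonneg_left ((hM R x hx).trans (le_abs_self _)) hQ
            _ = |M R| * ∑ j, (f x j - a j) ^ 2 := mul_comm _ _
      _ = (∑ R ∈ S, |M R|) * ∑ j, (f x j - a j) ^ 2 := by rw [Finset.sum_mul]
      _ ≤ (∑ R ∈ S, |M R| + 1) * ∑ j, (f x j - a j) ^ 2 :=
          mul_le_mul_of_nonneg_right (by linarith) hQ
  · intro x _ h
    rw [hE] at h
    have h1 := (Finset.sum_eq_zero_iff_of_nonneg fun R _ => sq_nonneg (eval (pr x a) R)).1 h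
    intro g hg
    have h2 : vI (gr X f) ≤ RingHom.ker (eval (pr x a) : Pol (N + m) →+* ℝ) := by
      rw [← hS, Submodule.span_le]
      intro R hR
      show eval (pr x a) R = 0
      exact pow_eq_zero_iff (two_ne_zero) |>.1 (h1 R hR)
    exact h2 hg

end H71.RN
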