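import Pool.Agent.H71.RN.Defs

/-!
# [H71 RN FORM] the estimate behind the explicit formula (real numbers only), 50-80 lines

`L = k^(i+1)`, `m = k^i`, `L = k * m`, `T = η^Kx(i+1) * g(i+1)^(L-1) * |ψ i|`, `D` the sum on the right; `η^Kx i * g i^m ≤ D` and `η^Kx(i+1) * g(i+1)^L ≤ D` (nonnegative terms, `i + 1 ≤ r`). `|ψ i|^L = (|ψ i|^k)^m ≤ C^m * g i^m` and `Kx (i+1) = Kx i + 2 L`, so
`T^L ≤ C^m * η^(2L) * (η^Kx i * g i^m) * (η^Kx(i+1) * g(i+1)^L)^(L-1) ≤ (C * η^2 * D)^L` (`C ≥ 1`), so `T ≤ C * η^2 * D` (`pow_le_pow_left₀` / `le_of_pow_le_pow_left₀`, `L ≠ 0`). Sum over `i < r`.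
-/

set_option autoImplicit false

namespace H71.RN

open MvPolynomial

/-- the exponents -/
def Kx (k : ℕ) : ℕ → ℕ
  | 0 => 0
  | i + 1 => Kx k i + 2 * k ^ (i + 1)

theorem form (k : ℕ) (hk : 1 ≤ k) (C : ℝ) (hC : 1 ≤ C) (r : ℕ) (g ψ : ℕ → ℝ) (η : ℝ)
    (h0 : 0 ≤ η) (hg : ∀ i, 0 ≤ g i) (hψ : ∀ i, i < r → |ψ i| ^ k ≤ C * g i) :
    |∑ i ∈ Finset.range r, η ^ Kx k (i + 1) * g (i + 1) ^ (k ^ (i + 1) - 1) * ψ i| ≤
      r * C * η ^ 2 * ∑ i ∈ Finset.range (r + 1), η ^ Kx k i * g i ^ (k ^ i) := by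
  set D : ℝ := ∑ i ∈ Finset.range (r + 1), η ^ Kx k i * g i ^ (k ^ i) with hD
  have hnn : ∀ i, 0 ≤ η ^ Kx k i * g i ^ (k ^ i) := fun i =>
    mul_nonneg (pow_nonneg h0 _) (pow_nonneg (hg i) _)
  have hle : ∀ i, i < r + 1 → η ^ Kx k i * g i ^ (k ^ i) ≤ D := fun i hi =>
    Finset.single_le_sum (f := fun i => η ^ Kx k i * g i ^ (k ^ i)) (fun j _ => hnn j)
      (Finset.mem_range.mpr hi)
  have hD0 : 0 ≤ D := Finset.sum_nonneg fun i _ => hnn i
  have hterm : ∀ i, i < r →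
      η ^ Kx k (i + 1) * g (i + 1) ^ (k ^ (i + 1) - 1) * |ψ i| ≤ C * η ^ 2 * D := by
    intro i hi
    obtain ⟨l, hl⟩ : ∃ l, k ^ (i + 1) = l + 1 :=
      ⟨k ^ (i + 1) - 1, (Nat.sub_add_cancel (Nat.one_le_pow _ _ hk)).symm⟩
    have hm1 : 1 ≤ k ^ i := Nat.one_le_pow _ _ hk
    have hml : k ^ i ≤ l + 1 := by
      rw [← hl]
      exact Nat.pow_le_pow_right hk (Nat.le_succ i)
    have hkm : k * k ^ i = l + 1 := by rw [← hl, pow_succ, mul_comm]
    have hK : Kx k (i + 1) = Kx k i + 2 * (l + 1) := by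
      show Kx k i + 2 * k ^ (i + 1) = _
      rw [hl]
    have hA := hle i (by omega)
    have hB := hle (i + 1) (by omega)
    rw [hl] at hB ⊢
    rw [Nat.add_sub_cancel]
    have hψm : |ψ i| ^ (l + 1) ≤ C ^ (l + 1) * g i ^ (k ^ i) := by
      rw [← hkm, pow_mul]
      calc (|ψ i| ^ k) ^ (k ^ i) ≤ (C * g i) ^ (k ^ i) :=
            pow_le_pow_left₀ (pow_nonneg (abs_nonneg _) _) (hψ i hi) _
        _ = C ^ (k ^ i) * g i ^ (k ^ i) := mul_pow _ _ _
        _ ≤ C ^ (k * k ^ i) * g i ^ (k ^ i) := by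
            refine mul_le_mul_of_nonneg_right ?_ (pow_nonneg (hg i) _)
            exact pow_le_pow_right₀ hC (by rw [hkm]; exact hml)
    have hT0 : 0 ≤ C * η ^ 2 * D := by positivity
    refine le_of_pow_le_pow_left₀ (Nat.succ_ne_zero l) hT0 ?_
    have hg1 := hg (i + 1)
    have hg0 := hg i
    calc (η ^ Kx k (i + 1) * g (i + 1) ^ l * |ψ i|) ^ (l + 1)
        = (η ^ Kx k (i + 1)) ^ (l + 1) * (g (i + 1) ^ l) ^ (l + 1) * |ψ i| ^ (l + 1) := by
          rw [mul_pow, mul_pow]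
      _ ≤ (η ^ Kx k (i + 1)) ^ (l + 1) * (g (i + 1) ^ l) ^ (l + 1) *
            (C ^ (l + 1) * g i ^ (k ^ i)) :=
          mul_le_mul_of_nonneg_left hψm (by positivity)
      _ = C ^ (l + 1) * (η ^ 2) ^ (l + 1) * (η ^ Kx k i * g i ^ (k ^ i)) *
            (η ^ Kx k (i + 1) * g (i + 1) ^ (l + 1)) ^ l := by
          have e1 : (η ^ Kx k (i + 1)) ^ (l + 1) =
              (η ^ Kx k (i + 1)) ^ l * (η ^ Kx k i * (η ^ 2) ^ (l + 1)) := by
            rw [pow_succ]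
            congr 1
            rw [hK, pow_add, pow_mul]
          have e2 : (g (i + 1) ^ l) ^ (l + 1) = (g (i + 1) ^ (l + 1)) ^ l := by
            rw [← pow_mul, ← pow_mul, mul_comm]
          rw [e1, e2, mul_pow (η ^ Kx k (i + 1)) (g (i + 1) ^ (l + 1)) l]
          generalize (η ^ Kx k (i + 1)) ^ l = a1
          generalize (g (i + 1) ^ (l + 1)) ^ l = a2
          generalize (η ^ 2) ^ (l + 1) = a3
          generalize C ^ (l + 1) = a4
          ring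
      _ ≤ C ^ (l + 1) * (η ^ 2) ^ (l + 1) * D * D ^ l := by
          refine mul_le_mul (mul_le_mul_of_nonneg_left hA (by positivity))
            (pow_le_pow_left₀ (mul_nonneg (pow_nonneg h0 _) (pow_nonneg hg1 _)) hB l)
            (by positivity) (by positivity)
      _ = (C * η ^ 2 * D) ^ (l + 1) := by
          rw [mul_pow, mul_pow, pow_succ D l]
          ring
  calc |∑ i ∈ Finset.range r, η ^ Kx k (i + 1) * g (i + 1) ^ (k ^ (i + 1) - 1) * ψ i|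
      ≤ ∑ i ∈ Finset.range r, |η ^ Kx k (i + 1) * g (i + 1) ^ (k ^ (i + 1) - 1) * ψ i| :=
        Finset.abs_sum_le_sum_abs _ _
    _ ≤ ∑ i ∈ Finset.range r, C * η ^ 2 * D := by
        refine Finset.sum_le_sum fun i hi => ?_
        rw [abs_mul, abs_of_nonneg (mul_nonneg (pow_nonneg h0 _) (pow_nonneg (hg _) _))]
        exact hterm i (Finset.mem_range.mp hi)
    _ = r * C * η ^ 2 * D := by
        rw [Finset.sum_const, Finset.card_range, nsmul_eq_mul]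
        ring

end H71.RN
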