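import Pool.Agent.H71.RN.Fll
import Pool.Agent.H71.RN.Form

/-!
# [H71 RN FF] the explicit formula, 50-80 lines

`fll` gives `r, g, P', k, C`. `D = ∑ i ∈ range (r+1), E^Kx i * g i^(k^i)`, `Nu j = P j + ∑ i ∈ range r, E^Kx(i+1) * g(i+1)^(k^(i+1) - 1) * P' i j`. The term `i = 0` of `D` is `g 0 = G`. So on `X`: `Nu j - D * f j = ∑ i ∈ range r, E^Kx(i+1) * g(i+1)^(k^(i+1)-1) * (P' i j - f j * g(i+1))` (`Finset.sum_range_succ'`, `hP`); apply `form` with `η = eval x E`. `C' = r * C + 1`.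
If `D x = 0`, `x ∈ X`: all terms are `≥ 0`, so they vanish: `i = 0`: `G x = 0`; `i = r`: `E x^Kx r * (g r x)^(k^r) = 0` and `g r x > 0`, so `E x^Kx r = 0`, so `Kx r ≠ 0` and `E x = 0`.
-/

set_option autoImplicit false

namespace H71.RN

open MvPolynomial

variable {N m : ℕ}

theorem ff {X : Set (Pt N)} (hXc : IsCompact X) (hXa : IsAlgebraic X) (f : Pt N → Pt m)
    (hc : ContinuousOn f X) (hf : HRv X f) (G : Pol N) (P : Fin m → Pol N)
    (hG : ∀ x, 0 ≤ eval x G) (hP : ∀ z ∈ X, ∀ j, eval z G * f z j = eval z (P j)) :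
    ∃ C' : ℝ, 0 < C' ∧ ∀ E : Pol N, (∀ x ∈ X, 0 ≤ eval x E) →
      ∃ (D : Pol N) (Nu : Fin m → Pol N), (∀ x ∈ X, 0 ≤ eval x D) ∧
        (∀ x ∈ X, eval x D = 0 → eval x G = 0 ∧ eval x E = 0) ∧
        ∀ x ∈ X, ∀ j, |eval x (Nu j) - eval x D * f x j| ≤ C' * eval x E ^ 2 * eval x D := by
  obtain ⟨r, g, P', k, C, hg0, hg, hgr, hk, hC, hL⟩ := fll hXc hXa f hc hf G hG
  refine ⟨r * C + 1, by positivity, fun E hE => ?_⟩
  have hD : ∀ x, eval x (∑ i ∈ Finset.range (r + 1), E ^ Kx k i * g i ^ (k ^ i))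
      = ∑ i ∈ Finset.range (r + 1), eval x E ^ Kx k i * eval x (g i) ^ (k ^ i) := by
    intro x
    rw [map_sum]
    simp only [map_mul, map_pow]
  have hnn : ∀ x ∈ X, ∀ i ∈ Finset.range (r + 1), 0 ≤ eval x E ^ Kx k i * eval x (g i) ^ (k ^ i) :=
    fun x hx i _ => mul_nonneg (pow_nonneg (hE x hx) _) (pow_nonneg (hg i x) _)
  have hD0 : ∀ x ∈ X, 0 ≤ eval x (∑ i ∈ Finset.range (r + 1), E ^ Kx k i * g i ^ (k ^ i)) := by
    intro x hx
    rw [hD]
    exact Finset.sum_nonneg (hnn x hx)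
  refine ⟨∑ i ∈ Finset.range (r + 1), E ^ Kx k i * g i ^ (k ^ i),
    fun j => P j + ∑ i ∈ Finset.range r, E ^ Kx k (i + 1) * g (i + 1) ^ (k ^ (i + 1) - 1) * P' i j,
    hD0, ?_, ?_⟩
  · intro x hx h
    rw [hD] at h
    have h1 := (Finset.sum_eq_zero_iff_of_nonneg (hnn x hx)).1 h
    have h2 := h1 0 (Finset.mem_range.2 (Nat.succ_pos r))
    have h3 := h1 r (Finset.mem_range.2 (Nat.lt_succ_self r))
    refine ⟨?_, ?_⟩
    · rw [hg0] at h2
      simpa [Kx] using h2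
    · rcases mul_eq_zero.1 h3 with h4 | h4
      · by_contra hne
        exact pow_ne_zero _ hne h4
      · exact absurd h4 (pow_ne_zero _ (hgr x hx).ne')
  · intro x hx j
    have hform := form k hk C hC r (fun i => eval x (g i))
      (fun i => eval x (P' i j) - f x j * eval x (g (i + 1))) (eval x E) (hE x hx)
      (fun i => hg i x) (fun i hi => hL i hi x hx j)
    have hid : eval x (P j + ∑ i ∈ Finset.range r,
          E ^ Kx k (i + 1) * g (i + 1) ^ (k ^ (i + 1) - 1) * P' i j)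
        - eval x (∑ i ∈ Finset.range (r + 1), E ^ Kx k i * g i ^ (k ^ i)) * f x j
        = ∑ i ∈ Finset.range r, eval x E ^ Kx k (i + 1) * eval x (g (i + 1)) ^ (k ^ (i + 1) - 1)
          * (eval x (P' i j) - f x j * eval x (g (i + 1))) := by
      rw [hD, Finset.sum_range_succ', map_add, map_sum, ← hP x hx j]
      have h1 : eval x E ^ Kx k 0 * eval x (g 0) ^ (k ^ 0) = eval x G := by
        rw [hg0]
        simp [Kx]
      rw [h1, add_mul, Finset.sum_mul]
      have h2 : ∀ i ∈ Finset.range r,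
          eval x E ^ Kx k (i + 1) * eval x (g (i + 1)) ^ (k ^ (i + 1) - 1)
            * (eval x (P' i j) - f x j * eval x (g (i + 1)))
          = eval x (E ^ Kx k (i + 1) * g (i + 1) ^ (k ^ (i + 1) - 1) * P' i j)
            - eval x E ^ Kx k (i + 1) * eval x (g (i + 1)) ^ (k ^ (i + 1)) * f x j := by
        intro i _
        have h3 : eval x (g (i + 1)) ^ (k ^ (i + 1))
            = eval x (g (i + 1)) ^ (k ^ (i + 1) - 1) * eval x (g (i + 1)) := by
          rw [← pow_succ, Nat.sub_add_cancel (Nat.one_le_pow _ _ hk)]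
        rw [h3, map_mul, map_mul, map_pow, map_pow]
        ring
      rw [Finset.sum_congr rfl h2, Finset.sum_sub_distrib]
      ring
    rw [hid]
    refine hform.trans ?_
    rw [← hD]
    have h5 := hD0 x hx
    have h6 : 0 ≤ eval x E ^ 2 * eval x (∑ i ∈ Finset.range (r + 1), E ^ Kx k i * g i ^ (k ^ i)) :=
      mul_nonneg (sq_nonneg _) h5
    nlinarith

end H71.RN
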