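import Pool.Agent.H71.RN.Noe

/-!
# [H71 RN HRA] hereditarily rational functions: reductions, 60-100 lines

* `hr_of_prime`: for `W` nonempty take `comp_split`: `W = W1 ∪ W2`, `(Q, P)` for `W1`; use `(s * Q, s * P)`: on `W2` both sides are `0`.
* `hrv_of_hr`: for `W` take `comp_split` first, and `(Q_j, P_j)` for `W1` and every `j` (`W1` is nonempty since `vI W1` is prime), `Q = s * ∏ Q_j ∉ vI W1`.
* `HRv.psi`: multiply by `Q`.
-/

set_option autoImplicit false

namespace H71.RN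

open MvPolynomial

variable {N m : ℕ}

theorem hr_of_prime {X : Set (Pt N)} {phi : Pt N → ℝ}
    (h : ∀ W : Set (Pt N), IsAlgebraic W → W ⊆ X → (vI W).IsPrime →
      ∃ Q P : Pol N, Q ∉ vI W ∧ ∀ z ∈ W, eval z Q * phi z = eval z P) : HR X phi := by
  intro W hW hWX hne
  obtain ⟨W1, W2, s, h1, h2, h3, h4, h5⟩ := comp_split hW hne
  have h6 : W1 ⊆ W := by
    rw [h3]
    exact Set.subset_union_left
  obtain ⟨Q, P, h7, h8⟩ := h W1 h1 (h6.trans hWX) h2
  refine ⟨s * Q, s * P, fun h9 => ?_, fun z hz => ?_⟩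
  · rcases h2.mem_or_mem (vI_mono h6 h9) with h10 | h10
    · exact h5 h10
    · exact h7 h10
  · rw [map_mul, map_mul]
    rw [h3] at hz
    rcases hz with hz | hz
    · rw [mul_assoc, h8 z hz]
    · rw [h4 z hz, zero_mul, zero_mul, zero_mul]

theorem hrv_of_hr {X : Set (Pt N)} {f : Pt N → Pt m} (h : ∀ j, HR X fun x => f x j) :
    HRv X f := by
  classical
  intro W hW hWX hne
  obtain ⟨W1, W2, s, h1, h2, h3, h4, h5⟩ := comp_split hW hne
  have h6 : W1 ⊆ W := by
    rw [h3]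
    exact Set.subset_union_left
  have h7 : W1.Nonempty := by
    obtain ⟨x, hx, -⟩ := not_mem_vI.1 h5
    exact ⟨x, hx⟩
  choose Q P h8 h9 using fun j => h j W1 h1 (h6.trans hWX) h7
  refine ⟨s * ∏ j, Q j, fun j => s * ((∏ i ∈ Finset.univ.erase j, Q i) * P j),
    fun h10 => ?_, fun z hz j => ?_⟩
  · rcases h2.mem_or_mem (vI_mono h6 h10) with h11 | h11
    · exact h5 h11
    · obtain ⟨j, -, hj⟩ := h2.prod_mem_iff.1 h11
      exact h8 j hj
  · rw [map_mul, map_mul, map_mul]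
    rw [h3] at hz
    rcases hz with hz | hz
    · rw [← h9 j z hz, ← Finset.prod_erase_mul Finset.univ Q (Finset.mem_univ j), map_mul]
      ring
    · rw [h4 z hz, zero_mul, zero_mul, zero_mul]

theorem HRv.psi {X : Set (Pt N)} {f : Pt N → Pt m} (h : HRv X f) (P g : Pol N) (j : Fin m) :
    HR X fun x => eval x P - f x j * eval x g := by
  intro W hW hWX hne
  obtain ⟨Q, R, h1, h2⟩ := h W hW hWX hne
  refine ⟨Q, Q * P - R j * g, h1, fun z hz => ?_⟩
  rw [map_sub, map_mul, map_mul, ← h2 z hz j]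
  ring

end H71.RN
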