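import Pool.Agent.H71.RN.Gra
import Pool.Agent.H71.RN.Hra

/-!
# [H71 RN GAMZ] the part of the Zariski closure of the graph over `Z` has algebraic dimension < n
-/

set_option autoImplicit false

namespace H71.RN

open MvPolynomial

variable {N m : ℕ}

/-- pull back of a polynomial along the first projection -/
theorem eval_ren1 (w : Pt (N + m)) (g : Pol N) :
    eval w (rename (Fin.castAdd m) g) = eval (p1 w) g := by
  rw [eval_rename]
  rfl

theorem gr_mono {A B : Set (Pt N)} (f : Pt N → Pt m) (h : A ⊆ B) : gr A f ⊆ gr B f :=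
  fun _ hw => ⟨h hw.1, hw.2⟩

theorem zcl_empty : zcl (∅ : Set (Pt N)) = ∅ := by
  rw [Set.eq_empty_iff_forall_notMem]
  intro x hx
  have h1 := hx 1 (fun z hz => absurd hz (Set.notMem_empty z))
  rw [map_one] at h1
  exact one_ne_zero h1

theorem dimLt_empty (n : ℕ) : DimLt (∅ : Set (Pt N)) n :=
  fun _ => ⟨1, one_ne_zero, fun x hx => absurd hx (Set.notMem_empty x)⟩

theorem gamZ {X : Set (Pt N)} (hXa : IsAlgebraic X) {n : ℕ} (hX : DimLt X (n + 1))
    {f : Pt N → Pt m} (hf : HRv X f) {Z : Set (Pt N)} (hZa : IsAlgebraic Z) (hZX : Z ⊆ X)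
    (hZ : DimLt Z n) : DimLt {w | w ∈ zcl (gr X f) ∧ p1 w ∈ Z} n := by
  have key : ∀ W, IsAlgebraic W → (W ⊆ X → DimLt {w | w ∈ zcl (gr W f) ∧ p1 w ∈ Z} n) := by
    refine noeth (fun W => W ⊆ X → DimLt {w | w ∈ zcl (gr W f) ∧ p1 w ∈ Z} n) ?_ ?_ ?_
    · intro _
      have h1 : gr (∅ : Set (Pt N)) f = ∅ := by
        rw [Set.eq_empty_iff_forall_notMem]
        intro w hw
        exact hw.1
      refine (dimLt_empty n).mono ?_
      intro w hw
      have h2 := hw.1
      rw [h1, zcl_empty] at h2
      exact h2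
    · intro A B _ _ hA hB hAB
      have h1 : gr (A ∪ B) f = gr A f ∪ gr B f := by
        ext w
        constructor
        · rintro ⟨h1 | h1, h2⟩
          · exact Or.inl ⟨h1, h2⟩
          · exact Or.inr ⟨h1, h2⟩
        · rintro (⟨h1, h2⟩ | ⟨h1, h2⟩)
          · exact ⟨Or.inl h1, h2⟩
          · exact ⟨Or.inr h1, h2⟩
      refine ((hA (Set.subset_union_left.trans hAB)).union
        (hB (Set.subset_union_right.trans hAB))).mono ?_
      rintro w ⟨hw, hz⟩
      rw [h1, zcl_union] at hw
      rcases hw with hw | hw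
      · exact Or.inl ⟨hw, hz⟩
      · exact Or.inr ⟨hw, hz⟩
    · intro W hWa hp IH hWX
      have hne : W.Nonempty := by
        by_contra h
        rw [Set.not_nonempty_iff_eq_empty] at h
        exact hp.ne_top ((Ideal.eq_top_iff_one _).2 fun x hx => by
          rw [h] at hx
          exact absurd hx (Set.notMem_empty x))
      obtain ⟨Q, P, hQ, hQf⟩ := hf W hWa hWX hne
      have hW' : DimLt {w | w ∈ zcl (gr {x | x ∈ W ∧ eval x Q = 0} f) ∧ p1 w ∈ Z} n := by
        refine IH {x | x ∈ W ∧ eval x Q = 0} (isAlgebraic_zero hWa Q) (fun x hx => hx.1) ?_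
          (fun x hx => hWX hx.1)
        intro h
        apply hQ
        intro x hx
        rw [← h] at hx
        exact hx.2
      have hT : DimLt {w | w ∈ zcl (gr {x | x ∈ W ∧ eval x Q ≠ 0} f) ∧ p1 w ∈ Z} n := by
        by_cases hWZ : W ⊆ Z
        · have h1 := graph_dim hp f Q P hQ hQf (hZ.mono hWZ)
          exact h1.zcl.mono fun w hw => hw.1
        · obtain ⟨s, hsZ, hsW⟩ : ∃ s, s ∈ vI Z ∧ s ∉ vI W := by
            by_contra hcon
            push Not at hcon
            apply hWZ
            rw [← zcl_eq hZa]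
            intro x hx g hg
            exact hcon g hg x hx
          have h1 := (graph_dim hp f Q P hQ hQf (hX.mono hWX)).zcl
          have h2 := graph_prime hp f Q P hQ hQf
          rw [← vI_zcl] at h2
          refine drop h2 h1 (fun w hw => hw.1) (rename (Fin.castAdd m) s) ?_ ?_
          · intro w hw
            rw [eval_ren1]
            exact hsZ _ hw.2
          · rw [vI_zcl, not_mem_vI]
            have h3 : s * Q ∉ vI W := fun h => (hp.mem_or_mem h).elim hsW hQ
            rw [not_mem_vI] at h3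
            obtain ⟨x, hx, hx2⟩ := h3
            rw [map_mul] at hx2
            refine ⟨pr x (f x), ⟨?_, ?_⟩, ?_⟩
            · rw [p1_pr]
              exact ⟨hx, right_ne_zero_of_mul hx2⟩
            · rw [p2_pr, p1_pr]
            · rw [eval_ren1, p1_pr]
              exact left_ne_zero_of_mul hx2
      refine (hT.union hW').mono ?_
      rintro w ⟨hw, hz⟩
      have h4 : gr W f = gr {x | x ∈ W ∧ eval x Q ≠ 0} f ∪ gr {x | x ∈ W ∧ eval x Q = 0} f := by
        ext w
        constructor
        · rintro ⟨h1, h2⟩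
          by_cases h3 : eval (p1 w) Q = 0
          · exact Or.inr ⟨⟨h1, h3⟩, h2⟩
          · exact Or.inl ⟨⟨h1, h3⟩, h2⟩
        · rintro (⟨h1, h2⟩ | ⟨h1, h2⟩)
          · exact ⟨h1.1, h2⟩
          · exact ⟨h1.1, h2⟩
      rw [h4, zcl_union] at hw
      rcases hw with hw | hw
      · exact Or.inl ⟨hw, hz⟩
      · exact Or.inr ⟨hw, hz⟩
  exact key X hXa subset_rfl

end H71.RN
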