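import Pool.Agent.H71.RN.Defs

/-!
# [H71 RN RHO] the projection to the sphere from a point a, 70-110 lines

* `rho_sph`: `g = a + t (F - a)`, `t = 2 (1 - a.F) / |F - a|^2`: `|g|^2 = 1 + 2 t (a.F - 1) + t^2 |F - a|^2 = 1`. `rho_self`: `2 (1 - a.y) = |y - a|^2`.
* `rho_bound`: `s = ∑ (y i - a i)^2`, `0 < s ≤ 4`. With `q = ∑ (F i - a i)^2`, `t = 2 (1 - a.F) / q`: `t - 1 = (1 - |F|^2) / q` and `rho a F j - y j = (t - 1) * (y j - a j) + t * (F j - y j)`. `|F j - y j| ≤ κ s ≤ 4 κ`. `|1 - |F|^2| = |∑ (y i - F i) (y i + F i)| ≤ (p+1) * κ s * (2 + 4 κ)` (`|y i| ≤ 1`). `q ≥ s / 4` if `κ` is small: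
`q ≥ s - 2 ∑ |F i - y i| |y i - a i| ≥ s - 4 (p+1) κ s` (`|y i - a i| ≤ 2`). So `|t - 1| ≤ C₁ κ`, and `|y j - a j| ≤ √s`, `|F j - y j| ≤ κ s ≤ 2 κ √s`.
-/

set_option autoImplicit false

namespace H71.RN

open MvPolynomial

variable {m : ℕ}

/-- the projection from `a` -/
noncomputable def rho (a F : Pt m) (j : Fin m) : ℝ :=
  a j + 2 * (1 - ∑ i, a i * F i) / (∑ i, (F i - a i) ^ 2) * (F j - a j)

private theorem rho_sum_abs {n : ℕ} (u : Fin n → ℝ) (c : ℝ) (h : ∀ i, |u i| ≤ c) :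
    |∑ i, u i| ≤ n * c := by
  calc |∑ i, u i| ≤ ∑ i, |u i| := Finset.abs_sum_le_sum_abs _ _
    _ ≤ ∑ _i : Fin n, c := Finset.sum_le_sum fun i _ => h i
    _ = n * c := by rw [Finset.sum_const, Finset.card_univ, Fintype.card_fin, nsmul_eq_mul]

private theorem rho_dist {p : ℕ} {a F : Pt (p + 1)} (ha : a ∈ Sph p) :
    ∑ i, (F i - a i) ^ 2 = ∑ i, F i ^ 2 - 2 * ∑ i, a i * F i + 1 := by
  have ha' : ∑ i, a i ^ 2 = 1 := ha
  have h1 : ∀ i, (F i - a i) ^ 2 = F i ^ 2 - 2 * (a i * F i) + a i ^ 2 := fun i => by ring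
  rw [Finset.sum_congr rfl fun i _ => h1 i, Finset.sum_add_distrib, Finset.sum_sub_distrib,
    ← Finset.mul_sum, ha']

theorem rho_sph {p : ℕ} {a F : Pt (p + 1)} (ha : a ∈ Sph p) (h : ∑ i, (F i - a i) ^ 2 ≠ 0) :
    rho a F ∈ Sph p := by
  have ha' : ∑ i, a i ^ 2 = 1 := ha
  change ∑ j, rho a F j ^ 2 = 1
  unfold rho
  set q : ℝ := ∑ i, (F i - a i) ^ 2 with hq
  set t : ℝ := 2 * (1 - ∑ i, a i * F i) / q with ht
  have h1 : ∀ j, (a j + t * (F j - a j)) ^ 2 =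
      a j ^ 2 + 2 * t * (a j * F j - a j ^ 2) + t ^ 2 * (F j - a j) ^ 2 := fun j => by ring
  rw [Finset.sum_congr rfl fun j _ => h1 j, Finset.sum_add_distrib, Finset.sum_add_distrib,
    ← Finset.mul_sum, ← Finset.mul_sum, Finset.sum_sub_distrib, ha', ← hq]
  have h2 : t * q = 2 * (1 - ∑ i, a i * F i) := by rw [ht, div_mul_cancel₀ _ h]
  have h3 : t ^ 2 * q = t * (2 * (1 - ∑ i, a i * F i)) := by rw [← h2]; ring
  rw [h3]
  ring

theorem rho_self {p : ℕ} {a y : Pt (p + 1)} (ha : a ∈ Sph p) (hy : y ∈ Sph p) (h : y ≠ a) :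
    rho a y = y := by
  have hy' : ∑ i, y i ^ 2 = 1 := hy
  have h1 := rho_dist (F := y) ha
  rw [hy'] at h1
  have h2 : ∑ i, (y i - a i) ^ 2 ≠ 0 := by
    intro h0
    apply h
    funext i
    have h3 := (Finset.sum_eq_zero_iff_of_nonneg (fun i _ => sq_nonneg (y i - a i))).1 h0 i
      (Finset.mem_univ i)
    exact sub_eq_zero.1 (pow_eq_zero_iff (two_ne_zero)|>.1 h3)
  funext j
  unfold rho
  have h4 : 2 * (1 - ∑ i, a i * y i) = ∑ i, (y i - a i) ^ 2 := by rw [h1]; ring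
  rw [h4, div_self h2]
  ring

theorem rho_bound (p : ℕ) : ∃ C κ₀ : ℝ, 0 < C ∧ 0 < κ₀ ∧ ∀ (y a F : Pt (p + 1)) (κ : ℝ),
    y ∈ Sph p → a ∈ Sph p → y ≠ a → 0 ≤ κ → κ ≤ κ₀ →
    (∀ j, |F j - y j| ≤ κ * ∑ i, (y i - a i) ^ 2) →
    ∑ i, (F i - a i) ^ 2 ≠ 0 ∧
      ∀ j, |rho a F j - y j| ≤ C * κ * Real.sqrt (∑ i, (y i - a i) ^ 2) := by
  set P : ℝ := ((p + 1 : ℕ) : ℝ) with hP
  have hP1 : 1 ≤ P := by
    rw [hP]
    push_cast
    linarith [Nat.cast_nonneg (α := ℝ) p]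
  refine ⟨12 * P + 2, 1 / (8 * P), by positivity, by positivity, ?_⟩
  intro y a F κ hy ha hya hκ hκ0 hF
  have hy' : ∑ i, y i ^ 2 = 1 := hy
  have ha' : ∑ i, a i ^ 2 = 1 := ha
  have hκP : κ * (8 * P) ≤ 1 := by
    rwa [le_div_iff₀ (by positivity)] at hκ0
  set s : ℝ := ∑ i, (y i - a i) ^ 2 with hs
  have hs0 : 0 < s := by
    rcases (Finset.sum_nonneg fun i _ => sq_nonneg (y i - a i)).lt_or_eq with h0 | h0
    · exact h0
    · exfalso
      apply hya
      funext i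
      have h3 := (Finset.sum_eq_zero_iff_of_nonneg (fun i _ => sq_nonneg (y i - a i))).1 h0.symm i
        (Finset.mem_univ i)
      exact sub_eq_zero.1 ((pow_eq_zero_iff two_ne_zero).1 h3)
  have hs4 : s ≤ 4 := by
    have h1 := rho_dist (F := y) ha
    rw [hy', ← hs] at h1
    have h2 : 0 ≤ ∑ i, (y i + a i) ^ 2 := Finset.sum_nonneg fun i _ => sq_nonneg _
    have h3 : ∀ i, (y i + a i) ^ 2 = y i ^ 2 + 2 * (a i * y i) + a i ^ 2 := fun i => by ring
    rw [Finset.sum_congr rfl fun i _ => h3 i, Finset.sum_add_distrib, Finset.sum_add_distrib,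
      ← Finset.mul_sum, hy', ha'] at h2
    linarith
  set r : ℝ := Real.sqrt s with hr
  have hr0 : 0 ≤ r := Real.sqrt_nonneg _
  have hrr : r * r = s := Real.mul_self_sqrt hs0.le
  have hr2 : r ≤ 2 := by
    rw [hr, Real.sqrt_le_left (by norm_num)]
    linarith
  have hya_r : ∀ i, |y i - a i| ≤ r := fun i => by
    rw [hr]
    apply Real.abs_le_sqrt
    rw [hs]
    exact Finset.single_le_sum (f := fun i => (y i - a i) ^ 2) (fun i _ => sq_nonneg _)
      (Finset.mem_univ i)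
  have hy1 : ∀ i, |y i| ≤ 1 := fun i => by
    rw [← sq_le_one_iff_abs_le_one, ← hy']
    exact Finset.single_le_sum (f := fun i => y i ^ 2) (fun i _ => sq_nonneg _)
      (Finset.mem_univ i)
  set δ : ℝ := κ * s with hδ
  have hδ0 : 0 ≤ δ := mul_nonneg hκ hs0.le
  have hκ1 : κ * 8 ≤ 1 := by nlinarith
  have hδ1 : δ ≤ 1 := by
    rw [hδ]
    nlinarith
  -- the cross terms
  have hc1 : |∑ i, (F i - y i) * (y i - a i)| ≤ P * (2 * δ) := by
    refine rho_sum_abs _ _ fun i => ?_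
    rw [abs_mul]
    calc |F i - y i| * |y i - a i| ≤ δ * 2 :=
          mul_le_mul (hF i) ((hya_r i).trans hr2) (abs_nonneg _) hδ0
      _ = 2 * δ := by ring
  have hc2 : |∑ i, (y i - F i) * (y i + F i)| ≤ P * (3 * δ) := by
    refine rho_sum_abs _ _ fun i => ?_
    rw [abs_mul]
    have h1 : |y i - F i| ≤ δ := by rw [abs_sub_comm]; exact hF i
    have h2 : |y i + F i| ≤ 3 := by
      have h3 : y i + F i = 2 * y i + (F i - y i) := by ring
      rw [h3]
      calc |2 * y i + (F i - y i)| ≤ |2 * y i| + |F i - y i| := abs_add_le _ _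
        _ ≤ 2 * 1 + 1 := by
            rw [abs_mul, abs_of_pos (by norm_num : (0:ℝ) < 2)]
            exact add_le_add (mul_le_mul_of_nonneg_left (hy1 i) (by norm_num)) ((hF i).trans hδ1)
        _ = 3 := by norm_num
    calc |y i - F i| * |y i + F i| ≤ δ * 3 := mul_le_mul h1 h2 (abs_nonneg _) hδ0
      _ = 3 * δ := by ring
  set q : ℝ := ∑ i, (F i - a i) ^ 2 with hq
  have hq1 : s / 2 ≤ q := by
    have h1 : ∀ i, (F i - a i) ^ 2 =
        (y i - a i) ^ 2 + 2 * ((F i - y i) * (y i - a i)) + (F i - y i) ^ 2 := fun i => by ring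
    have h2 : q = s + 2 * ∑ i, (F i - y i) * (y i - a i) + ∑ i, (F i - y i) ^ 2 := by
      rw [hq, Finset.sum_congr rfl fun i _ => h1 i, Finset.sum_add_distrib,
        Finset.sum_add_distrib, ← Finset.mul_sum]
    have h3 : 0 ≤ ∑ i, (F i - y i) ^ 2 := Finset.sum_nonneg fun i _ => sq_nonneg _
    have h4 := neg_le_of_abs_le hc1
    have h5 : P * (2 * δ) * 2 ≤ s / 2 := by
      rw [hδ]
      nlinarith
    linarith
  have hq0 : 0 < q := by linarith
  refine ⟨hq0.ne', fun j => ?_⟩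
  set t : ℝ := 2 * (1 - ∑ i, a i * F i) / q with ht
  have ht1 : |t - 1| ≤ 6 * P * κ := by
    have h1 := rho_dist (F := F) ha
    rw [← hq] at h1
    have h2 : ∑ i, (y i - F i) * (y i + F i) = 1 - ∑ i, F i ^ 2 := by
      rw [← hy', ← Finset.sum_sub_distrib]
      exact Finset.sum_congr rfl fun i _ => by ring
    have h3 : t - 1 = (∑ i, (y i - F i) * (y i + F i)) / q := by
      rw [h2, ht, div_sub_one hq0.ne']
      congr 1
      linarith
    rw [h3, abs_div, abs_of_pos hq0, div_le_iff₀ hq0]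
    refine hc2.trans ?_
    calc P * (3 * δ) = 6 * P * κ * (s / 2) := by rw [hδ]; ring
      _ ≤ 6 * P * κ * q := mul_le_mul_of_nonneg_left hq1 (by positivity)
  have hδr : δ ≤ 2 * κ * r := by
    rw [hδ, ← hrr]
    nlinarith [mul_nonneg hκ hr0]
  have e : rho a F j - y j = (t - 1) * (F j - a j) + (F j - y j) := by
    unfold rho
    rw [← hq, ← ht]
    ring
  have h6 : |F j - a j| ≤ 2 * r := by
    have h7 : F j - a j = (F j - y j) + (y j - a j) := by ring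
    rw [h7]
    refine (abs_add_le _ _).trans ?_
    have h8 : δ ≤ r := by
      refine hδr.trans ?_
      nlinarith
    linarith [hF j, hya_r j]
  rw [e]
  calc |(t - 1) * (F j - a j) + (F j - y j)| ≤ |(t - 1) * (F j - a j)| + |F j - y j| :=
        abs_add_le _ _
    _ ≤ (6 * P * κ) * (2 * r) + 2 * κ * r := by
        rw [abs_mul]
        exact add_le_add (mul_le_mul ht1 h6 (abs_nonneg _) (by positivity)) ((hF j).trans hδr)
    _ = (12 * P + 2) * κ * r := by ring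

end H71.RN
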