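import Pool.Agent.H71.RN.Fti
import Pool.Agent.H71.RN.Rho

/-!
# [H71 RN GG] the final map g: continuous, close to f, regular, 100-160 lines

`rho_bound p`: `C`, `κ₀`. Choose `τ > 0` with `κ := 4 * C' * τ^2 ≤ κ₀` and `2 * C * κ < ε`. Let `F = Ft f D Nu`, `s x = ∑ j, (f x j - a j)^2 ≤ 4`. `|F x j - f x j| ≤ C' * E^2 ≤ C' * (τ * s x)^2 ≤ κ * s x` (`ft_bound`). Put `g x = a` if `f x = a`, otherwise `g x = rho a (F x)`.
* in the sphere: `rho_sph`; `‖g x - f x‖ < ε`: `g x = a = f x` or all components of `g x - f x` are `≤ C * κ * √(s x) ≤ 2 * C * κ` (sup norm).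
* continuous: at `x₀` with `f x₀ ≠ a`: near `x₀` in `X` `f x ≠ a`, `F` is continuous (`ft_cont`), and `rho a` is continuous at `F x₀` (`∑ (F x₀ i - a i)^2 ≠ 0`). At `x₀` with `f x₀ = a`: `|g x j - a j| ≤ C * κ * √(s x) + |f x j - a j|`, both tend to `0` (`s x₀ = 0`).
* regular (`x ∈ X`, `D x ≠ 0`, `f x ≠ a`): `q = ∑ i, (Nu i - a i * D)^2`, `P j = a j * q + 2 * (D - ∑ i, a i * Nu i) * (Nu j - a j * D)`. `q x = (D x)^2 * ∑ (F x i - a i)^2 ≠ 0`. Let `z ∈ X`, `q z ≠ 0`. Then `D z ≠ 0` (if `D z = 0` then `hNu` gives `Nu z = 0`, `q z = 0`), so `F z = Nu z / D z ≠ a`, and `f z ≠ a` (if `f z = a`: `s z = 0`, `E z = 0`, `F z = f z = a`). So `g z = rho a (Nu z / D z)`, and this is `P z / q z`.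
* `D x = 0`: `F x = f x`, `g x = f x` (`rho_self`).
-/

set_option autoImplicit false

namespace H71.RN

open MvPolynomial

variable {N p : ℕ}

private theorem gg_s4 {y a : Pt (p + 1)} (hy : y ∈ Sph p) (ha : a ∈ Sph p) :
    ∑ j, (y j - a j) ^ 2 ≤ 4 := by
  have h1 : ∑ j, y j ^ 2 = 1 := hy
  have h2 : ∑ j, a j ^ 2 = 1 := ha
  have h3 : ∑ j, (y j - a j) ^ 2 ≤ ∑ j, (2 * y j ^ 2 + 2 * a j ^ 2) :=
    Finset.sum_le_sum fun j _ => by nlinarith [sq_nonneg (y j + a j)]
  rw [Finset.sum_add_distrib, ← Finset.mul_sum, ← Finset.mul_sum, h1, h2] at h3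
  linarith

/-- the common denominator -/
private noncomputable def ggq (a : Pt (p + 1)) (D : Pol N) (Nu : Fin (p + 1) → Pol N) : Pol N :=
  ∑ i, (Nu i - MvPolynomial.C (a i) * D) ^ 2

/-- the numerators -/
private noncomputable def ggP (a : Pt (p + 1)) (D : Pol N) (Nu : Fin (p + 1) → Pol N)
    (j : Fin (p + 1)) : Pol N :=
  MvPolynomial.C (a j) * ggq a D Nu +
    2 * (D - ∑ i, MvPolynomial.C (a i) * Nu i) * (Nu j - MvPolynomial.C (a j) * D)

private theorem ggq_eval (a : Pt (p + 1)) (D : Pol N) (Nu : Fin (p + 1) → Pol N) (z : Pt N) :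
    eval z (ggq a D Nu) = ∑ i, (eval z (Nu i) - a i * eval z D) ^ 2 := by
  unfold ggq
  simp [map_sum]

private theorem ggP_eval (a : Pt (p + 1)) (D : Pol N) (Nu : Fin (p + 1) → Pol N)
    (j : Fin (p + 1)) (z : Pt N) :
    eval z (ggP a D Nu j) = a j * eval z (ggq a D Nu) +
      2 * (eval z D - ∑ i, a i * eval z (Nu i)) * (eval z (Nu j) - a j * eval z D) := by
  unfold ggP
  simp [map_sum]

private theorem gg_rho (a : Pt (p + 1)) (D : Pol N) (Nu : Fin (p + 1) → Pol N)
    (j : Fin (p + 1)) (z : Pt N) (hD : eval z D ≠ 0) (hq : eval z (ggq a D Nu) ≠ 0) :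
    rho a (fun i => eval z (Nu i) / eval z D) j =
      eval z (ggP a D Nu j) / eval z (ggq a D Nu) := by
  rw [ggP_eval]
  unfold rho
  have h1 : ∑ i, (eval z (Nu i) / eval z D - a i) ^ 2 = eval z (ggq a D Nu) / eval z D ^ 2 := by
    rw [ggq_eval, Finset.sum_div]
    refine Finset.sum_congr rfl fun i _ => ?_
    field_simp
  have h2 : ∑ i, a i * (eval z (Nu i) / eval z D) = (∑ i, a i * eval z (Nu i)) / eval z D := by
    rw [Finset.sum_div]
    refine Finset.sum_congr rfl fun i _ => ?_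
    ring
  rw [h1, h2]
  field_simp

theorem gg {X : Set (Pt N)} (f : Pt N → Pt (p + 1)) (hc : ContinuousOn f X)
    (hf : ∀ x ∈ X, f x ∈ Sph p) (a : Pt (p + 1)) (ha : a ∈ Sph p) (C' : ℝ) (hC' : 0 ≤ C')
    (ε : ℝ) (hε : 0 < ε) :
    ∃ τ : ℝ, 0 < τ ∧ ∀ (E D : Pol N) (Nu : Fin (p + 1) → Pol N),
      (∀ x ∈ X, 0 ≤ eval x E) → (∀ x ∈ X, eval x E ≤ τ * ∑ j, (f x j - a j) ^ 2) →
      (∀ x ∈ X, 0 ≤ eval x D) → (∀ x ∈ X, eval x D = 0 → eval x E = 0) →
      (∀ x ∈ X, ∀ j, |eval x (Nu j) - eval x D * f x j| ≤ C' * eval x E ^ 2 * eval x D) →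
      ∃ g : Pt N → Pt (p + 1), ContinuousOn g X ∧ (∀ x ∈ X, g x ∈ Sph p) ∧
        (∀ x ∈ X, ‖g x - f x‖ < ε) ∧
        (∀ x ∈ X, eval x D ≠ 0 → f x ≠ a → RegularAt X g x) ∧
        (∀ x ∈ X, f x = a → g x = a) ∧ ∀ x ∈ X, eval x D = 0 → g x = f x := by
  classical
  obtain ⟨C, κ₀, hC, hκ₀, hrho⟩ := rho_bound p
  -- the choice of `τ`
  obtain ⟨τ, hτ, hτ1, hτ2⟩ : ∃ τ : ℝ, 0 < τ ∧ 4 * C' * τ ^ 2 ≤ κ₀ ∧
      2 * C * (4 * C' * τ ^ 2) < ε := by
    have hδ : 0 < min κ₀ (ε / (4 * C + 1)) := lt_min hκ₀ (by positivity)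
    refine ⟨min 1 (min κ₀ (ε / (4 * C + 1)) / (4 * C' + 1)), lt_min one_pos (by positivity), ?_⟩
    set δ := min κ₀ (ε / (4 * C + 1)) with hδdef
    set τ := min 1 (δ / (4 * C' + 1)) with hτdef
    have hτ0 : 0 < τ := lt_min one_pos (by positivity)
    have hτ1 : τ ≤ 1 := min_le_left _ _
    have hτ2 : τ ≤ δ / (4 * C' + 1) := min_le_right _ _
    have h1 : τ * (4 * C' + 1) ≤ δ := by
      rwa [le_div_iff₀ (by positivity)] at hτ2
    have h2 : 4 * C' * τ ^ 2 ≤ δ := by
      have h3 : τ ^ 2 ≤ τ := by nlinarith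
      nlinarith
    have h3 : δ ≤ ε / (4 * C + 1) := min_le_right _ _
    have h4 : δ * (4 * C + 1) ≤ ε := by
      rwa [le_div_iff₀ (by positivity)] at h3
    refine ⟨h2.trans (min_le_left _ _), ?_⟩
    nlinarith
  refine ⟨τ, hτ, fun E D Nu hE0 hEτ hD0 hDE hNu => ?_⟩
  set κ := 4 * C' * τ ^ 2 with hκ
  have hκ0 : 0 ≤ κ := by positivity
  set F : Pt N → Pt (p + 1) := Ft f D Nu with hF
  have hFb := ft_bound f D E Nu C' hC' hD0 hNu
  have hFc := ft_cont f hc D E Nu C' hC' hD0 hDE hNu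
  -- the bound
  have hFs : ∀ x ∈ X, ∀ j, |F x j - f x j| ≤ κ * ∑ i, (f x i - a i) ^ 2 := by
    intro x hx j
    refine (hFb x hx j).trans ?_
    have h1 := gg_s4 (hf x hx) ha
    have h2 : 0 ≤ ∑ i, (f x i - a i) ^ 2 := Finset.sum_nonneg fun i _ => sq_nonneg _
    have h3 := hEτ x hx
    have h4 := hE0 x hx
    have h5 : eval x E ^ 2 ≤ (τ * ∑ j, (f x j - a j) ^ 2) ^ 2 := by gcongr
    calc C' * eval x E ^ 2 ≤ C' * (τ * ∑ j, (f x j - a j) ^ 2) ^ 2 := by gcongr
      _ = C' * τ ^ 2 * (∑ j, (f x j - a j) ^ 2) * (∑ j, (f x j - a j) ^ 2) := by ring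
      _ ≤ C' * τ ^ 2 * 4 * (∑ j, (f x j - a j) ^ 2) := by gcongr
      _ = κ * ∑ i, (f x i - a i) ^ 2 := by rw [hκ]; ring
  have hmain : ∀ x ∈ X, f x ≠ a → ∑ i, (F x i - a i) ^ 2 ≠ 0 ∧
      ∀ j, |rho a (F x) j - f x j| ≤ C * κ * Real.sqrt (∑ i, (f x i - a i) ^ 2) :=
    fun x hx hxa => hrho (f x) a (F x) κ (hf x hx) ha hxa hκ0 hτ1 (hFs x hx)
  have hs2 : ∀ x ∈ X, Real.sqrt (∑ i, (f x i - a i) ^ 2) ≤ 2 := by
    intro x hx
    rw [Real.sqrt_le_left (by norm_num)]
    have := gg_s4 (hf x hx) ha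
    norm_num
    exact this
  refine ⟨fun x => if f x = a then a else rho a (F x), ?_, ?_, ?_, ?_, ?_, ?_⟩
  · -- continuity
    intro x₀ hx₀
    by_cases h0 : f x₀ = a
    · rw [ContinuousWithinAt, if_pos h0, tendsto_pi_nhds]
      intro j
      have hfc : Filter.Tendsto f (nhdsWithin x₀ X) (nhds a) := by
        have := hc x₀ hx₀
        rw [ContinuousWithinAt, h0] at this
        exact this
      have hfj : ∀ i, Filter.Tendsto (fun x => f x i) (nhdsWithin x₀ X) (nhds (a i)) :=
        fun i => (tendsto_pi_nhds.1 hfc) i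
      have hs : Filter.Tendsto (fun x => ∑ i, (f x i - a i) ^ 2) (nhdsWithin x₀ X) (nhds 0) := by
        have : Filter.Tendsto (fun x => ∑ i, (f x i - a i) ^ 2) (nhdsWithin x₀ X)
            (nhds (∑ i, (a i - a i) ^ 2)) :=
          tendsto_finsetSum _ fun i _ => ((hfj i).sub_const _).pow 2
        simpa using this
      have hbd : Filter.Tendsto (fun x => C * κ * Real.sqrt (∑ i, (f x i - a i) ^ 2) +
          |f x j - a j|) (nhdsWithin x₀ X) (nhds 0) := by
        have h1 := (hs.sqrt).const_mul (C * κ)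
        have h2 := ((hfj j).sub_const (a j)).abs
        have h3 := h1.add h2
        simpa using h3
      rw [tendsto_iff_dist_tendsto_zero]
      refine squeeze_zero' (Filter.Eventually.of_forall fun x => dist_nonneg) ?_ hbd
      filter_upwards [self_mem_nhdsWithin] with x hx
      rw [Real.dist_eq]
      by_cases hxa : f x = a
      · rw [if_pos hxa, sub_self, abs_zero]
        positivity
      · rw [if_neg hxa]
        have h1 := (hmain x hx hxa).2 j
        calc |rho a (F x) j - a j| = |(rho a (F x) j - f x j) + (f x j - a j)| := by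
              congr 1
              ring
          _ ≤ |rho a (F x) j - f x j| + |f x j - a j| := abs_add_le _ _
          _ ≤ _ := by linarith
    · have hne : ∀ᶠ x in nhdsWithin x₀ X, f x ≠ a :=
        (hc x₀ hx₀).eventually (isOpen_ne.mem_nhds h0)
      have hFx := hFc x₀ hx₀
      have hFj : ∀ i, ContinuousWithinAt (fun x => F x i) X x₀ :=
        fun i => (continuousWithinAt_pi.1 hFx) i
      have hrc : ContinuousWithinAt (fun x => rho a (F x)) X x₀ := by
        rw [continuousWithinAt_pi]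
        intro j
        unfold rho
        have hd : ContinuousWithinAt (fun x => ∑ i, (F x i - a i) ^ 2) X x₀ :=
          tendsto_finsetSum _ fun i _ => ((hFj i).sub continuousWithinAt_const).pow 2
        have hn : ContinuousWithinAt (fun x => 2 * (1 - ∑ i, a i * F x i)) X x₀ :=
          continuousWithinAt_const.mul (continuousWithinAt_const.sub
            (tendsto_finsetSum _ fun i _ => continuousWithinAt_const.mul (hFj i)))
        exact continuousWithinAt_const.add
          ((hn.div hd (hmain x₀ hx₀ h0).1).mul ((hFj j).sub continuousWithinAt_const))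
      refine hrc.congr_of_eventuallyEq ?_ ?_
      · filter_upwards [hne] with x hx
        rw [if_neg hx]
      · rw [if_neg h0]
  · intro x hx
    by_cases hxa : f x = a
    · simp only [if_pos hxa]
      exact ha
    · simp only [if_neg hxa]
      exact rho_sph ha (hmain x hx hxa).1
  · intro x hx
    by_cases hxa : f x = a
    · simp only [hxa, if_true, sub_self, norm_zero]
      exact hε
    · simp only [if_neg hxa]
      rw [pi_norm_lt_iff hε]
      intro j
      rw [Pi.sub_apply, Real.norm_eq_abs]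
      refine ((hmain x hx hxa).2 j).trans_lt ?_
      have h1 := hs2 x hx
      have h2 : C * κ * Real.sqrt (∑ i, (f x i - a i) ^ 2) ≤ C * κ * 2 := by gcongr
      linarith
  · intro x hx hDx hxa
    refine ⟨ggq a D Nu, ggP a D Nu, ?_, fun z hz hqz j => ?_⟩
    · intro h0
      apply (hmain x hx hxa).1
      have hFx : F x = fun j => eval x (Nu j) / eval x D := by
        rw [hF]
        unfold Ft
        rw [if_neg hDx]
      rw [hFx]
      have h1 : ∑ i, (eval x (Nu i) / eval x D - a i) ^ 2 =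
          eval x (ggq a D Nu) / eval x D ^ 2 := by
        rw [ggq_eval, Finset.sum_div]
        refine Finset.sum_congr rfl fun i _ => ?_
        field_simp
      rw [h1, h0, zero_div]
    · have hDz : eval z D ≠ 0 := by
        intro h0
        apply hqz
        rw [ggq_eval]
        refine Finset.sum_eq_zero fun i _ => ?_
        have h1 := hNu z hz i
        rw [h0, mul_zero, zero_mul, sub_zero] at h1
        have h2 : eval z (Nu i) = 0 := abs_nonpos_iff.1 h1
        rw [h0, h2]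
        ring
      have hza : f z ≠ a := by
        intro h0
        apply hqz
        rw [ggq_eval]
        have h3 := hEτ z hz
        have h4 := hE0 z hz
        have h5 : ∑ j, (f z j - a j) ^ 2 = 0 :=
          Finset.sum_eq_zero fun i _ => by rw [h0]; ring
        rw [h5, mul_zero] at h3
        have h6 : eval z E = 0 := le_antisymm h3 h4
        refine Finset.sum_eq_zero fun i _ => ?_
        have h1 := hNu z hz i
        rw [h6] at h1
        have h2 : eval z (Nu i) - eval z D * f z i = 0 :=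
          abs_nonpos_iff.1 (by simpa using h1)
        rw [h0] at h2
        have h7 : eval z (Nu i) - a i * eval z D = 0 := by linarith
        rw [h7]
        ring
      simp only [if_neg hza]
      have hFz : F z = fun j => eval z (Nu j) / eval z D := by
        rw [hF]
        unfold Ft
        rw [if_neg hDz]
      rw [hFz]
      exact gg_rho a D Nu j z hDz hqz
  · intro x _ hxa
    simp only [if_pos hxa]
  · intro x hx hDx
    by_cases hxa : f x = a
    · simp only [hxa, if_true]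
    · simp only [if_neg hxa]
      have hFx : F x = f x := by
        rw [hF]
        unfold Ft
        rw [if_pos hDx]
      rw [hFx]
      exact rho_self ha (hf x hx) hxa

end H71.RN
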