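import Pool.Agent.H71.RN.Basic

/-!
# [H71 RN PICK] two points of the sphere at which a nonzero polynomial does not vanish
-/

set_option autoImplicit false

namespace H71.RN

open MvPolynomial

/-- the point of the upper half sphere over `s` -/
private noncomputable def up {p : ℕ} (s : Fin p → ℝ) : Pt (p + 1) :=
  Fin.cons (Real.sqrt (1 - ∑ j, s j ^ 2)) s

private theorem up_mem {p : ℕ} (s : Fin p → ℝ) (hs : ∑ j, s j ^ 2 ≤ 1) : up s ∈ Sph p := by
  show ∑ j, up s j ^ 2 = 1
  rw [Fin.sum_univ_succ]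
  simp only [up, Fin.cons_zero, Fin.cons_succ]
  rw [Real.sq_sqrt (by linarith)]
  ring

private theorem up_succ {p : ℕ} (s : Fin p → ℝ) (j : Fin p) : up s (Fin.succ j) = s j := by
  simp only [up, Fin.cons_succ]

private theorem small_sum {p : ℕ} (hp : 1 ≤ p) (s : Fin p → ℝ)
    (hs : ∀ j, s j ∈ Set.Icc (0 : ℝ) (1 / p)) : ∑ j, s j ^ 2 ≤ 1 := by
  have hp0 : (0 : ℝ) < p := by exact_mod_cast hp
  have hp1 : (1 : ℝ) ≤ p := by exact_mod_cast hp
  have h1 : ∀ j, s j ^ 2 ≤ 1 / p := by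
    intro j
    obtain ⟨h0, h1⟩ := hs j
    have h2 : (1 : ℝ) / p ≤ 1 := by
      rw [div_le_one hp0]
      exact hp1
    nlinarith
  calc ∑ j, s j ^ 2 ≤ ∑ _j : Fin p, (1 : ℝ) / p := Finset.sum_le_sum fun j _ => h1 j
    _ = 1 := by
      rw [Finset.sum_const, Finset.card_univ, Fintype.card_fin, nsmul_eq_mul]
      field_simp

open Classical in
theorem pick {p : ℕ} (hp : 1 ≤ p) (R : MvPolynomial (Fin (p + p)) ℝ) (hR : R ≠ 0)
    (A0 : Finset (Pt (p + 1))) :
    ∃ y ∈ Sph p, ∃ a ∈ Sph p, y ≠ a ∧ a ∉ A0 ∧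
      eval (fun i => Sum.elim y a (Sum.map Fin.succ Fin.succ (finSumFinEquiv.symm i))) R ≠ 0 := by
  have hp0 : (0 : ℝ) < p := by exact_mod_cast hp
  let j0 : Fin p := ⟨0, hp⟩
  let R' : MvPolynomial (Fin (p + p)) ℝ := R *
    ((X (Fin.castAdd p j0) - X (Fin.natAdd p j0)) *
      ∏ c ∈ A0, (X (Fin.natAdd p j0) - C (c (Fin.succ j0))))
  have hR' : R' ≠ 0 := by
    refine mul_ne_zero hR (mul_ne_zero ?_ ?_)
    · rw [sub_ne_zero]
      intro h
      have h1 := X_injective h
      have h2 := congrArg Fin.val h1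
      simp [j0] at h2
      omega
    · rw [Finset.prod_ne_zero_iff]
      intro c _
      rw [sub_ne_zero]
      intro h
      have h1 := congrArg (eval (fun _ => c (Fin.succ j0) + 1)) h
      rw [eval_X, eval_C] at h1
      linarith
  obtain ⟨u, hu, hu0⟩ : ∃ u : Fin (p + p) → ℝ, (∀ i, u i ∈ Set.Icc (0 : ℝ) (1 / p)) ∧
      eval u R' ≠ 0 := by
    by_contra hcon
    push Not at hcon
    apply hR'
    refine MvPolynomial.funext_set (fun _ => Set.Icc (0 : ℝ) (1 / p)) (fun _ => ?_) ?_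
    · exact Set.Icc_infinite (by positivity)
    · intro x hx
      rw [map_zero]
      exact hcon x fun i => hx i (Set.mem_univ i)
  have hs := small_sum hp (fun j => u (Fin.castAdd p j)) fun j => hu _
  have ht := small_sum hp (fun j => u (Fin.natAdd p j)) fun j => hu _
  have h1 : (fun i => Sum.elim (up fun j => u (Fin.castAdd p j)) (up fun j => u (Fin.natAdd p j))
      (Sum.map Fin.succ Fin.succ (finSumFinEquiv.symm i))) = u := by
    funext i
    refine Fin.addCases (fun j => ?_) (fun j => ?_) i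
    · rw [finSumFinEquiv_symm_apply_castAdd]
      simp only [Sum.map_inl, Sum.elim_inl, up_succ]
    · rw [finSumFinEquiv_symm_apply_natAdd]
      simp only [Sum.map_inr, Sum.elim_inr, up_succ]
  simp only [R', map_mul, map_sub, eval_X, map_prod, eval_C] at hu0
  have h2 := left_ne_zero_of_mul hu0
  have h3 := left_ne_zero_of_mul (right_ne_zero_of_mul hu0)
  have h4 := right_ne_zero_of_mul (right_ne_zero_of_mul hu0)
  rw [Finset.prod_ne_zero_iff] at h4
  refine ⟨_, up_mem _ hs, _, up_mem _ ht, ?_, ?_, ?_⟩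
  · intro h
    have h5 := congrFun h (Fin.succ j0)
    rw [up_succ, up_succ] at h5
    exact h3 (sub_eq_zero.2 h5)
  · intro h
    apply h4 _ h
    rw [up_succ, sub_self]
  · rw [h1]
    exact h2

end H71.RN
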