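import Pool.Agent.H71.RN.Rat
import Pool.Agent.H71.RN.Hra

/-!
# [H71 RN THETA] the coordinates of `f (x)` and `y` are algebraically dependent on a set of small dimension
-/

set_option autoImplicit false

namespace H71.RN

open MvPolynomial

variable {N m : ℕ}

private theorem th_ren (w : Pt (N + m)) (g : Pol N) :
    eval w (rename (Fin.castAdd m) g) = eval (p1 w) g := by
  rw [eval_rename]
  rfl

theorem theta {X : Set (Pt N)} (hXa : IsAlgebraic X) {f : Pt N → Pt m} (hf : HRv X f)
    {A : Set (Pt (N + m))} (hA : ∀ w ∈ A, p1 w ∈ X) {n : ℕ} (hd : DimLt A n)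
    (σ : Fin n → Fin m ⊕ Fin m) :
    ∃ R : MvPolynomial (Fin n) ℝ, R ≠ 0 ∧
      ∀ w ∈ A, eval (fun i => Sum.elim (f (p1 w)) (p2 w) (σ i)) R = 0 := by
  have hA' : ∀ w ∈ zcl A, p1 w ∈ X := by
    obtain ⟨S, rfl⟩ := hXa
    intro w hw g hg
    rw [← th_ren]
    refine hw _ fun z hz => ?_
    rw [th_ren]
    exact hA z hz g hg
  have key : ∀ C, IsAlgebraic C → (C ⊆ zcl A → ∃ R : MvPolynomial (Fin n) ℝ, R ≠ 0 ∧
      ∀ w ∈ C, eval (fun i => Sum.elim (f (p1 w)) (p2 w) (σ i)) R = 0) := by
    refine noeth (fun C => C ⊆ zcl A → ∃ R : MvPolynomial (Fin n) ℝ, R ≠ 0 ∧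
      ∀ w ∈ C, eval (fun i => Sum.elim (f (p1 w)) (p2 w) (σ i)) R = 0) ?_ ?_ ?_
    · intro _
      exact ⟨1, one_ne_zero, fun x hx => absurd hx (Set.notMem_empty x)⟩
    · intro A' B' _ _ hA1 hB1 hAB
      obtain ⟨R1, hR1, h1⟩ := hA1 (Set.subset_union_left.trans hAB)
      obtain ⟨R2, hR2, h2⟩ := hB1 (Set.subset_union_right.trans hAB)
      refine ⟨R1 * R2, mul_ne_zero hR1 hR2, ?_⟩
      intro w hw
      rw [map_mul]
      rcases hw with hw | hw
      · rw [h1 w hw, zero_mul]
      · rw [h2 w hw, mul_zero]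
    · intro C hCa hp IH hCA
      have hne : C.Nonempty := by
        by_contra h
        rw [Set.not_nonempty_iff_eq_empty] at h
        exact hp.ne_top ((Ideal.eq_top_iff_one _).2 fun x hx => by
          rw [h] at hx
          exact absurd hx (Set.notMem_empty x))
      have hWX : zcl (p1 '' C) ⊆ X := by
        refine zcl_min hXa ?_
        rintro _ ⟨w, hw, rfl⟩
        exact hA' w (hCA hw)
      obtain ⟨Q, P, hQ, hQf⟩ := hf (zcl (p1 '' C)) (isAlgebraic_zcl _) hWX
        ((hne.image p1).mono (subset_zcl _))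
      rw [vI_zcl] at hQ
      have hsub : ∀ w ∈ C, p1 w ∈ zcl (p1 '' C) := fun w hw =>
        subset_zcl _ (Set.mem_image_of_mem _ hw)
      have hQ' : rename (Fin.castAdd m) Q ∉ vI C := by
        intro h
        apply hQ
        rintro _ ⟨w, hw, rfl⟩
        rw [← th_ren]
        exact h w hw
      obtain ⟨R', hR', h'⟩ := IH {w | w ∈ C ∧ eval w (rename (Fin.castAdd m) Q) = 0}
        (isAlgebraic_zero hCa _) (fun w hw => hw.1) (by
          intro h
          apply hQ'
          intro w hw
          rw [← h] at hw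
          exact hw.2) (fun w hw => hCA hw.1)
      have h1 : (1 : Pol (N + m)) ∉ vI C := fun h =>
        hp.ne_top ((Ideal.eq_top_iff_one _).2 h)
      obtain ⟨H, hH, hH0⟩ := rat hp ((hd.zcl).mono hCA)
        (fun i => Sum.elim (fun j => rename (Fin.castAdd m) (P j))
          (fun j => (MvPolynomial.X (Fin.natAdd N j) : Pol (N + m))) (σ i))
        (fun i => Sum.elim (fun _ => rename (Fin.castAdd m) Q) (fun _ => (1 : Pol (N + m))) (σ i))
        (by
          intro i
          rcases σ i with j | j
          · exact hQ'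
          · exact h1)
      refine ⟨H * R', mul_ne_zero hH hR', ?_⟩
      intro w hw
      rw [map_mul]
      by_cases hw0 : eval w (rename (Fin.castAdd m) Q) = 0
      · rw [h' w ⟨hw, hw0⟩, mul_zero]
      · have h2 := hH0 w hw (by
          intro i
          rcases σ i with j | j
          · exact hw0
          · simp)
        have h3 : (fun i => eval w (Sum.elim (fun j => rename (Fin.castAdd m) (P j))
            (fun j => (MvPolynomial.X (Fin.natAdd N j) : Pol (N + m))) (σ i)) /
            eval w (Sum.elim (fun _ => rename (Fin.castAdd m) Q)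
              (fun _ => (1 : Pol (N + m))) (σ i))) =
            fun i => Sum.elim (f (p1 w)) (p2 w) (σ i) := by
          funext i
          rcases σ i with j | j
          · simp only [Sum.elim_inl]
            rw [div_eq_iff hw0, th_ren, th_ren, mul_comm]
            exact (hQf (p1 w) (hsub w hw) j).symm
          · simp only [Sum.elim_inr, map_one, div_one, eval_X]
            rfl
        rw [h3] at h2
        rw [h2, zero_mul]
  obtain ⟨R, hR, h⟩ := key (zcl A) (isAlgebraic_zcl _) subset_rfl
  exact ⟨R, hR, fun w hw => h w (subset_zcl _ hw)⟩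

end H71.RN
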