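import Pool.Agent.H71.RN.Hrm
import Pool.Agent.H71.RN.Gamz
import Pool.Agent.H71.RN.Theta
import Pool.Agent.H71.RN.Pick
import Pool.Agent.H71.RN.Deng
import Pool.Agent.H71.RN.Ff
import Pool.Agent.H71.RN.Ez
import Pool.Agent.H71.RN.Gg

/-!
# RN-FINAL: continuous rational maps from X to S^p, dim X at most 2 p, are limits of nice ones
-/

set_option autoImplicit false

namespace H71.RN

open MvPolynomial

variable {N : ℕ}

theorem DimLt.le {A : Set (Pt N)} {n k : ℕ} (hA : DimLt A n) (h : n ≤ k) : DimLt A k := by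
  obtain ⟨d, rfl⟩ := Nat.exists_eq_add_of_le h
  induction d with
  | zero => exact hA
  | succ d ih => exact (ih (Nat.le_add_right _ _)).succ

theorem main {p n : ℕ} (hp : 1 ≤ p) (hn : n ≤ 2 * p) {X : Set (Pt N)} (hXc : IsCompact X)
    (hXa : IsAlgebraic X) (hX : IsNonsingular n X) (f : Pt N → Pt (p + 1))
    (hf : ContinuousRational X f) (hfs : ∀ x ∈ X, f x ∈ Sph p) (ε : ℝ) (hε : 0 < ε) :
    ∃ g : Pt N → Pt (p + 1), ContinuousRational X g ∧ (∀ x ∈ X, g x ∈ Sph p) ∧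
      IsNice p X g ∧ ∀ x ∈ X, ‖g x - f x‖ < ε := by
  obtain ⟨G, P, hG0, hGP, hGr⟩ := exists_den X f
  have hden : ∀ g : Pol N, (∀ z ∈ X, eval z G ≠ 0 → eval z g = 0) → g ∈ vI X := by
    intro g hg
    refine hf.2 g fun z hz hr => hg z hz fun h => (hGr z hz).1 h hr
  have hHR : HRv X f := hr_main hXa hX f hf
  have hXd : DimLt X (n + 1) := ns_dim_all hXa hX
  have hZd : DimLt {x | x ∈ X ∧ eval x G = 0} n := comp_zero hXa hXd G hden
  have hΓ : DimLt {w | w ∈ zcl (gr X f) ∧ p1 w ∈ {x | x ∈ X ∧ eval x G = 0}} n :=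
    gamZ hXa hXd hHR (isAlgebraic_zero hXa G) (fun x hx => hx.1) hZd
  have hΓ2 : DimLt {w | w ∈ zcl (gr X f) ∧ p1 w ∈ {x | x ∈ X ∧ eval x G = 0}} (p + p) :=
    hΓ.le (by omega)
  obtain ⟨R, hR, hR0⟩ := theta hXa hHR (fun w hw => hw.2.1) hΓ2
    (fun i => Sum.map Fin.succ Fin.succ (finSumFinEquiv.symm i))
  obtain ⟨A0, hA0⟩ := deng hXa f G P hGP hden
  obtain ⟨y, hy, a, ha, hya, haA, hRya⟩ := pick hp R hR A0
  obtain ⟨E, C, hC, hE0, hEC, hEz⟩ := ez hXc f hf.1 a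
  obtain ⟨C', hC', hff⟩ := ff hXc hXa f hf.1 hHR G P hG0 hGP
  obtain ⟨τ, hτ, hgg⟩ := gg f hf.1 hfs a ha C' hC'.le ε hε
  -- the scaled polynomial
  have hE'e : ∀ x, eval x (MvPolynomial.C (τ / C) * E) = τ / C * eval x E := by
    intro x
    rw [map_mul, eval_C]
  have hE'0 : ∀ x ∈ X, 0 ≤ eval x (MvPolynomial.C (τ / C) * E) := by
    intro x _
    rw [hE'e]
    exact mul_nonneg (div_pos hτ hC).le (hE0 x)
  obtain ⟨D, Nu, hD0, hDz, hDN⟩ := hff (MvPolynomial.C (τ / C) * E) hE'0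
  obtain ⟨g, hgc, hgs, hgf, hgr, hga, hgD⟩ := hgg (MvPolynomial.C (τ / C) * E) D Nu hE'0
    (by
      intro x hx
      rw [hE'e]
      calc τ / C * eval x E ≤ τ / C * (C * ∑ j, (f x j - a j) ^ 2) :=
            mul_le_mul_of_nonneg_left (hEC x hx) (div_pos hτ hC).le
        _ = τ * ∑ j, (f x j - a j) ^ 2 := by
            field_simp)
    hD0 (fun x hx h => (hDz x hx h).2) hDN
  refine ⟨g, ⟨hgc, ?_⟩, hgs, ⟨y, hy, ?_⟩, hgf⟩
  · intro s hs
    refine hA0 a haA s fun z hz hGz hfz => ?_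
    refine hs z hz (hgr z hz (fun h => hGz (hDz z hz h).1) hfz)
  · intro x hx hr hgx
    by_cases hfa : f x = a
    · exact hya (by rw [← hgx, hga x hx hfa])
    by_cases hD : eval x D = 0
    · have h1 := hDz x hx hD
      have h2 : eval x E = 0 := by
        have h3 := h1.2
        rw [hE'e] at h3
        rcases mul_eq_zero.1 h3 with h4 | h4
        · exact absurd h4 (div_pos hτ hC).ne'
        · exact h4
      have h3 : pr x a ∈ zcl (gr X f) := hEz x hx h2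
      have h4 := hR0 (pr x a) ⟨h3, by rw [p1_pr]; exact ⟨hx, h1.1⟩⟩
      rw [p1_pr, p2_pr, ← hgD x hx hD, hgx] at h4
      exact hRya h4
    · exact hr (hgr x hx hD hfa)

end H71.RN
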