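import Pool.Agent.H71.RN.Noe

/-!
# [H71 RN FLAG] the flag of the bad loci, 60-90 lines

Step: let `g ≥ 0` have a zero on `X`, `Z = {x ∈ X, g x = 0}` (algebraic, `isAlgebraic_zero`, nonempty). `hf Z` gives `Q ∉ vI Z`, `P'`; put `g' = g + Q^2`, `P j = Q * P' j`. On `Z`: `P j = Q * (Q * f j) = f j * g'` (`g = 0` there). `{x ∈ X, g' x = 0} ⊆ Z`, and it is not all of `Z` as `Q ∉ vI Z`.
Define `g i` recursively (`g 0 = G`; `g (i+1)` is obtained from `g i` by the step if `g i` has a zero on `X`, otherwise `g (i+1) = g i`). If every `g i` had a zero on `X`, the sets `{x ∈ X, g i x = 0}` would contradict `no_chain`. Let `r` be the least `i` such that `g i` has no zero on `X` (`Nat.find`).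
-/

set_option autoImplicit false

namespace H71.RN

open MvPolynomial

variable {N m : ℕ}

private theorem flag_step {X : Set (Pt N)} (hXa : IsAlgebraic X) (f : Pt N → Pt m)
    (hf : HRv X f) (g : {g : Pol N // ∀ x, 0 ≤ eval x g}) :
    ∃ (g' : {g : Pol N // ∀ x, 0 ≤ eval x g}) (P : Fin m → Pol N),
      (∀ x ∈ X, eval x g.1 = 0 → ∀ j, eval x (P j) = f x j * eval x g'.1) ∧
      (∀ x, eval x g'.1 = 0 → eval x g.1 = 0) ∧
      ((∃ x ∈ X, eval x g.1 = 0) → ∃ x ∈ X, eval x g.1 = 0 ∧ eval x g'.1 ≠ 0) := by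
  by_cases hz : ∃ x ∈ X, eval x g.1 = 0
  · obtain ⟨x₀, hx₀, hgx₀⟩ := hz
    obtain ⟨Q, P', hQ, hP'⟩ := hf {x | x ∈ X ∧ eval x g.1 = 0} (isAlgebraic_zero hXa g.1)
      (fun x hx => hx.1) ⟨x₀, hx₀, hgx₀⟩
    have hev : ∀ x, eval x (g.1 + Q ^ 2) = eval x g.1 + eval x Q ^ 2 := fun x => by
      rw [map_add, map_pow]
    refine ⟨⟨g.1 + Q ^ 2, fun x => ?_⟩, fun j => Q * P' j, ?_, ?_, ?_⟩
    · rw [hev]
      exact add_nonneg (g.2 x) (sq_nonneg _)
    · intro x hx hgx j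
      have h1 := hP' x ⟨hx, hgx⟩ j
      show eval x (Q * P' j) = f x j * eval x (g.1 + Q ^ 2)
      rw [hev, hgx, map_mul, ← h1]
      ring
    · intro x hx
      have h2 : eval x g.1 + eval x Q ^ 2 = 0 := by
        rw [← hev]
        exact hx
      have h3 := g.2 x
      have h4 := sq_nonneg (eval x Q)
      linarith
    · intro _
      rw [not_mem_vI] at hQ
      obtain ⟨x, hx, hQx⟩ := hQ
      refine ⟨x, hx.1, hx.2, ?_⟩
      show eval x (g.1 + Q ^ 2) ≠ 0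
      rw [hev, hx.2, zero_add]
      exact pow_ne_zero 2 hQx
  · exact ⟨g, fun _ => 0, fun x hx hgx => absurd ⟨x, hx, hgx⟩ hz, fun x hx => hx,
      fun h => absurd h hz⟩

theorem flag {X : Set (Pt N)} (hXa : IsAlgebraic X) (f : Pt N → Pt m) (hf : HRv X f) (G : Pol N)
    (hG : ∀ x, 0 ≤ eval x G) :
    ∃ (r : ℕ) (g : ℕ → Pol N) (P : ℕ → Fin m → Pol N), g 0 = G ∧ (∀ i x, 0 ≤ eval x (g i)) ∧
      (∀ x ∈ X, 0 < eval x (g r)) ∧
      ∀ i, i < r → ∀ x ∈ X, eval x (g i) = 0 →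
        ∀ j, eval x (P i j) = f x j * eval x (g (i + 1)) := by
  choose S P hS1 hS2 hS3 using flag_step hXa f hf
  set g : ℕ → {g : Pol N // ∀ x, 0 ≤ eval x g} := fun i => S^[i] ⟨G, hG⟩ with hg
  have hsucc : ∀ i, g (i + 1) = S (g i) := fun i => Function.iterate_succ_apply' S i _
  have hr : ∃ r, ∀ x ∈ X, 0 < eval x (g r).1 := by
    by_contra hcon
    push Not at hcon
    have hz : ∀ i, ∃ x ∈ X, eval x (g i).1 = 0 := by
      intro i
      obtain ⟨x, hx, hxi⟩ := hcon i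
      exact ⟨x, hx, le_antisymm hxi ((g i).2 x)⟩
    refine no_chain (fun i => {x | x ∈ X ∧ eval x (g i).1 = 0})
      (fun i => isAlgebraic_zero hXa _) (fun i => ⟨?_, ?_⟩)
    · rintro x ⟨hx, hxi⟩
      rw [hsucc] at hxi
      exact ⟨hx, hS2 (g i) x hxi⟩
    · intro heq
      obtain ⟨x, hx, hx1, hx2⟩ := hS3 (g i) (hz i)
      have h1 : x ∈ {x | x ∈ X ∧ eval x (g i).1 = 0} := ⟨hx, hx1⟩
      rw [← heq] at h1
      have h2 := h1.2
      rw [hsucc] at h2
      exact hx2 h2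
  obtain ⟨r, hr⟩ := hr
  refine ⟨r, fun i => (g i).1, fun i => P (g i), rfl, fun i x => (g i).2 x, hr, ?_⟩
  intro i _ x hx hxi j
  show eval x (P (g i) j) = f x j * eval x (g (i + 1)).1
  rw [hsucc]
  exact hS1 (g i) x hx hxi j

end H71.RN
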