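import Pool.Agent.H71.RN.Linv

/-!
# [H71 RN FLAT] flat polynomials vanish, 100-160 lines

Take `chart_inv` at `x` (`O = univ`). Let `z ∈ U` with `h i z = 0` for all `i`. `w₀ = T.map x`, `w₁ = T.map z` are in the ball, their difference has components `0` at the indices `T.e.symm (inl i)` and `v j = ∑ l j k * (z k - x k)` at `T.e.symm (inr j)`. `γ t = Psi (w₀ + t (w₁ - w₀))` is analytic on the open set `I` of the `t` with `w₀ + t (w₁ - w₀)` in the ball, which is convex and contains `[0, 1]`; `γ 0 = x`, `γ 1 = z`.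
`γ' t` is the vector with `∑_k eval (γ t) (T.M r k) * γ' t k = (w₁ - w₀) r` (differentiate `T.map (γ t) = w₀ + t (w₁ - w₀)`, `chart_map_deriv`), so, the matrix `M (γ t)` being invertible, by `chart_M`: `eval (γ t) T.dl * γ' t k = eval (γ t) (T.V v k)`. So for a polynomial `g`, `(g ∘ γ)' = (vf (T.V v) g / dl) ∘ γ` (`hasDerivAt_eval`, `vf_apply`).
By induction `(Q ∘ γ)^(k) = ((∑_{i ≤ k} r_{k,i} * (vf V)^[i] Q) / dl^(2k)) ∘ γ` with polynomials `r_{k,i}`; so all derivatives of the analytic function `Q ∘ γ` vanish at `0`, and `Q ∘ γ = 0` on `I` (identity theorem: `AnalyticOnNhd.eqOn_zero_of_preconnected_of_eventuallyEq_zero` and a vanishing Taylor series at `0`). So `Q z = 0`.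
(Alternative: the set of `s ∈ I` where all `(vf V)^[k] Q (γ s) = 0`: analytic `Q ∘ γ` near `s`.)
-/

set_option autoImplicit false

namespace H71.RN

open MvPolynomial Filter Topology

variable {N c n : ℕ}

/-- a chain of functions vanishing at `0`, each of which is a unit times the derivative of the preceding one,
has no element with a zero of finite order -/
private theorem flat_ord {D : ℝ → ℝ} (hD : AnalyticAt ℝ D 0) (hD0 : D 0 ≠ 0) {F : ℕ → ℝ → ℝ}
    (hF : ∀ k, F k 0 = 0) (hF' : ∀ k, ∀ᶠ t in 𝓝 (0 : ℝ), D t * deriv (F k) t = F (k + 1) t)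
    (m : ℕ) : ∀ (k : ℕ) (g : ℝ → ℝ), AnalyticAt ℝ g 0 → g 0 ≠ 0 →
      (∀ᶠ t in 𝓝 (0 : ℝ), F k t = t ^ m * g t) → False := by
  induction m with
  | zero =>
    intro k g _ hg0 hk
    have h := hk.self_of_nhds
    rw [hF k, pow_zero, one_mul] at h
    exact hg0 h.symm
  | succ m ih =>
    intro k g hg hg0 hk
    have hg' : AnalyticAt ℝ (deriv g) 0 := hg.deriv
    refine ih (k + 1) (fun t => D t * (((m : ℝ) + 1) * g t + t * deriv g t)) ?_ ?_ ?_
    · exact hD.mul ((analyticAt_const.mul hg).add (analyticAt_id.mul hg'))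
    · have h1 : ((m : ℝ) + 1) ≠ 0 := by positivity
      simp only [zero_mul, add_zero]
      exact mul_ne_zero hD0 (mul_ne_zero h1 hg0)
    · have hd : ∀ᶠ t in 𝓝 (0 : ℝ), DifferentiableAt ℝ g t :=
        hg.eventually_analyticAt.mono fun t ht => ht.differentiableAt
      have hk' : ∀ᶠ t in 𝓝 (0 : ℝ), (F k) =ᶠ[𝓝 t] fun t => t ^ (m + 1) * g t :=
        hk.eventually_nhds
      filter_upwards [hF' k, hd, hk'] with t h1 h2 h3
      rw [← h1, h3.deriv_eq]
      have h4 : HasDerivAt (fun t => t ^ (m + 1) * g t)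
          ((((m + 1 : ℕ) : ℝ) * t ^ m) * g t + t ^ (m + 1) * deriv g t) t := by
        exact (hasDerivAt_pow (m + 1) t).mul h2.hasDerivAt
      rw [h4.deriv]
      push_cast
      ring

private theorem analyticAt_eval (g : Pol N) (z : Pt N) :
    AnalyticAt ℝ (fun x : Pt N => eval x g) z :=
  (contDiff_eval g (⊤ : WithTop ℕ∞)).contDiffAt.analyticAt

private theorem flat_deriv (T : Chart N c n) (v : Fin n → ℝ) (δ : Pt N)
    (hδ : ∀ r, δ r = Sum.elim (fun _ => 0) v (T.e r)) (w₀ : Pt N) (γ : ℝ → Pt N) (t : ℝ)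
    (hγ : DifferentiableAt ℝ γ t) (hT : ∀ᶠ s in 𝓝 t, T.map (γ s) = w₀ + s • δ)
    (hd : eval (γ t) T.dl ≠ 0) (g : Pol N) :
    eval (γ t) T.dl * deriv (fun s => eval (γ s) g) t = eval (γ t) (vf (T.V v) g) := by
  obtain ⟨L, hL, hL'⟩ := chart_map_deriv T (γ t)
  have h1 : HasDerivAt (fun s => T.map (γ s)) (L (deriv γ t)) t :=
    hL'.hasFDerivAt.comp_hasDerivAt t hγ.hasDerivAt
  have h2 : HasDerivAt (fun s : ℝ => w₀ + s • δ) δ t := by
    have h3 := ((hasDerivAt_id t).smul_const δ).const_add w₀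
    simpa using h3
  have h4 : HasDerivAt (fun s => T.map (γ s)) δ t := h2.congr_of_eventuallyEq hT
  have h5 : L (deriv γ t) = δ := h1.unique h4
  have hdet : ((T.M).map (eval (γ t))).det ≠ 0 := by
    have h6 : eval (γ t) T.dl = ((T.M).map (eval (γ t))).det := by
      unfold Chart.dl
      rw [RingHom.map_det, RingHom.mapMatrix_apply]
    rwa [← h6]
  have h7 : (fun k => eval (γ t) T.dl * deriv γ t k - eval (γ t) (T.V v k)) = 0 := by
    refine Matrix.eq_zero_of_mulVec_eq_zero hdet ?_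
    funext r
    have h8 := chart_M T v (γ t) r
    have h9 : ∑ k, eval (γ t) (T.M r k) * deriv γ t k = δ r := by
      rw [← hL, h5]
    have h10 : (Sum.elim (fun _ => 0) (fun j => v j * eval (γ t) T.dl) (T.e r) : ℝ) =
        eval (γ t) T.dl * δ r := by
      rw [hδ]
      rcases T.e r with i | j
      · simp
      · simp [mul_comm]
    simp only [Matrix.mulVec, dotProduct, Matrix.map_apply, Pi.zero_apply, mul_sub,
      Finset.sum_sub_distrib]
    rw [h8, h10, ← h9, Finset.mul_sum, sub_eq_zero]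
    exact Finset.sum_congr rfl fun k _ => by ring
  rw [(hasDerivAt_eval γ (deriv γ t) t hγ.hasDerivAt g).deriv, vf_apply, map_sum,
    Finset.mul_sum]
  refine Finset.sum_congr rfl fun k _ => ?_
  have h11 := congrFun h7 k
  simp only [Pi.zero_apply, sub_eq_zero] at h11
  rw [map_mul, ← h11]
  ring

theorem flat (T : Chart N c n) (x : Pt N) (hx : eval x T.dl ≠ 0)
    (hh : ∀ i, eval x (T.h i) = 0) (Q : Pol N)
    (hQ : ∀ (v : Fin n → ℝ) (k : ℕ), eval x ((vf (T.V v))^[k] Q) = 0) :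
    ∃ U ∈ nhds x, ∀ z ∈ U, (∀ i, eval z (T.h i) = 0) → eval z Q = 0 := by
  obtain ⟨ρ, Psi, U, hρ, hU, hxU, -, hPsi, hw, hz, hdl⟩ := chart_inv T x hx Set.univ univ_mem
  refine ⟨U, hU.mem_nhds hxU, fun z hzU hzh => ?_⟩
  set w₀ : Pt N := T.map x with hw₀
  set δ : Pt N := T.map z - w₀ with hδ'
  set v : Fin n → ℝ := fun j => δ (T.e.symm (Sum.inr j)) with hv
  have hδ : ∀ r, δ r = Sum.elim (fun _ => 0) v (T.e r) := by
    intro r
    rcases h : T.e r with i | j
    · have h1 : r = T.e.symm (Sum.inl i) := by rw [← h, Equiv.symm_apply_apply]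
      rw [h1, hδ', Pi.sub_apply, hw₀, chart_map_inl, chart_map_inl, hzh, hh]
      simp
    · have h1 : r = T.e.symm (Sum.inr j) := by rw [← h, Equiv.symm_apply_apply]
      rw [Sum.elim_inr, hv, h1]
  set ln : ℝ → Pt N := fun t => w₀ + t • δ with hln
  have hlnc : Continuous ln := by
    rw [hln]
    fun_prop
  set I : Set ℝ := ln ⁻¹' Metric.ball w₀ ρ with hI
  have hIo : IsOpen I := Metric.isOpen_ball.preimage hlnc
  have h0I : (0 : ℝ) ∈ I := by
    rw [hI, Set.mem_preimage, hln]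
    simp only [zero_smul, add_zero]
    exact Metric.mem_ball_self hρ
  have h1I : (1 : ℝ) ∈ I := by
    rw [hI, Set.mem_preimage, hln]
    simp only [one_smul]
    rw [hδ', add_sub_cancel]
    exact (hz z hzU).1
  have hIc : Convex ℝ I := by
    intro a ha b hb p q hp hq hpq
    rw [hI, Set.mem_preimage] at ha hb ⊢
    have h1 := (convex_ball w₀ ρ) ha hb hp hq hpq
    have h2 : p • ln a + q • ln b = ln (p • a + q • b) := by
      rw [hln]
      simp only [smul_add, smul_smul, smul_eq_mul]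
      have h3 : p • w₀ + q • w₀ = w₀ := by rw [← add_smul, hpq, one_smul]
      calc p • w₀ + (p * a) • δ + (q • w₀ + (q * b) • δ)
          = (p • w₀ + q • w₀) + ((p * a) • δ + (q * b) • δ) := by abel
        _ = w₀ + (p * a + q * b) • δ := by rw [h3, ← add_smul]
    rw [h2] at h1
    exact h1
  have hIp : IsPreconnected I := hIc.isPreconnected
  set γ : ℝ → Pt N := fun t => Psi (ln t) with hγ
  have hlna : ∀ t, AnalyticAt ℝ ln t := by
    intro t
    rw [hln]
    fun_prop
  have hγa : ∀ t ∈ I, AnalyticAt ℝ γ t := fun t ht => (hPsi (ln t) ht).comp (hlna t)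
  have hTγ : ∀ t ∈ I, T.map (γ t) = w₀ + t • δ := fun t ht => (hw (ln t) ht).2
  have hdγ : ∀ t ∈ I, eval (γ t) T.dl ≠ 0 := fun t ht => hdl _ (hw (ln t) ht).1
  have hγ0 : γ 0 = x := by
    have h1 : ln 0 = T.map x := by
      rw [hln]
      simp only [zero_smul, add_zero]
      exact hw₀
    rw [hγ]
    simp only
    rw [h1]
    exact (hz x hxU).2
  have hγ1 : γ 1 = z := by
    have h1 : ln 1 = T.map z := by
      rw [hln]
      simp only [one_smul]
      rw [hδ', add_sub_cancel]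
    rw [hγ]
    simp only
    rw [h1]
    exact (hz z hzU).2
  have hga : ∀ g : Pol N, ∀ t ∈ I, AnalyticAt ℝ (fun s => eval (γ s) g) t := fun g t ht =>
    (analyticAt_eval g (γ t)).comp (hγa t ht)
  have hev : ∀ᶠ s in 𝓝 (0 : ℝ), s ∈ I := hIo.mem_nhds h0I
  have hzero : ∀ᶠ t in 𝓝 (0 : ℝ), eval (γ t) Q = 0 := by
    by_contra hcon
    obtain ⟨m, g, hg, hg0, hgm⟩ :=
      ((hga Q 0 h0I).exists_eventuallyEq_pow_smul_nonzero_iff).2 hcon
    refine flat_ord (D := fun t => eval (γ t) T.dl)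
      (F := fun k t => eval (γ t) ((vf (T.V v))^[k] Q)) (hga T.dl 0 h0I) (hdγ 0 h0I) ?_ ?_ m 0 g
      hg hg0 ?_
    · intro k
      show eval (γ 0) ((vf (T.V v))^[k] Q) = 0
      rw [hγ0]
      exact hQ v k
    · intro k
      filter_upwards [hev] with t ht
      rw [Function.iterate_succ_apply']
      exact flat_deriv T v δ hδ w₀ γ t (hγa t ht).differentiableAt
        (Filter.mem_of_superset (hIo.mem_nhds ht) fun s hs => hTγ s hs) (hdγ t ht) _
    · filter_upwards [hgm] with t ht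
      rw [Function.iterate_zero, id_eq, ht, sub_zero, smul_eq_mul]
  have hall : Set.EqOn (fun s => eval (γ s) Q) 0 I :=
    AnalyticOnNhd.eqOn_zero_of_preconnected_of_eventuallyEq_zero (fun t ht => hga Q t ht) hIp h0I
      hzero
  have h := hall h1I
  simp only [Pi.zero_apply] at h
  rw [hγ1] at h
  exact h

end H71.RN
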