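import Pool.Agent.H71.RN.Dep
import Pool.Agent.H71.RN.Cur

/-!
# [H71 RN LOJ] the Lojasiewicz inequality for continuous hereditarily rational functions, 60-100 lines

`dep`: `H`; `curve_bound`: `k`, `C₁`, `s₀`. `|phi| ≤ M` on `X` (compact). There is `0 < τ₀ ≤ 1` such that `|phi y| ≤ s₀` for all `y ∈ X` with `G y ≤ τ₀`: the set `{y ∈ X : s₀ ≤ |phi y|}` is compact and `G > 0` on it (`h0`, `hG`), so `G ≥ 2 τ₀` on it.
Let `x ∈ X`. If `phi x = 0` clear (`k ≥ 1`). If `G x > τ₀`: `|phi x|^k ≤ M^k ≤ (M^k / τ₀) * G x`. Otherwise `0 < G x ≤ τ₀` (`h0`); let `y` be a point of the compact set `{z ∈ X : G z ≤ G x}` where `|phi|` is maximal. `|phi y| ≥ |phi x| > 0`, so `IsMx X phi G y` and `H (phi y, G y) = 0`; `0 < G y ≤ 1`, `|phi y| ≤ s₀`, so `|phi x|^k ≤ |phi y|^k ≤ C₁ * G y ≤ C₁ * G x`. `C = C₁ + M^k / τ₀`.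
-/

set_option autoImplicit false

namespace H71.RN

open MvPolynomial

variable {N : ℕ}

theorem loj {X : Set (Pt N)} (hXc : IsCompact X) (hXa : IsAlgebraic X) (phi : Pt N → ℝ)
    (hc : ContinuousOn phi X) (hphi : HR X phi) (G : Pol N) (hG : ∀ x ∈ X, 0 ≤ eval x G)
    (h0 : ∀ x ∈ X, eval x G = 0 → phi x = 0) :
    ∃ (k : ℕ) (C : ℝ), 1 ≤ k ∧ 0 < C ∧ ∀ x ∈ X, |phi x| ^ k ≤ C * eval x G := by
  obtain ⟨H, hH, hHx⟩ := dep hXa phi hphi G
  obtain ⟨k, C₁, s₀, hk, hC₁, hs₀, hb⟩ := curve_bound H hH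
  obtain ⟨M, hM⟩ := hXc.exists_bound_of_continuousOn hc
  have hGc : Continuous (fun x : Pt N => eval x G) := MvPolynomial.continuous_eval G
  have habs : ContinuousOn (fun y => |phi y|) X := hc.abs
  have hτ : ∃ τ : ℝ, 0 < τ ∧ τ ≤ 1 ∧ ∀ y ∈ X, eval y G ≤ τ → |phi y| ≤ s₀ := by
    have hAcl : IsClosed (X ∩ (fun y => |phi y|) ⁻¹' (Set.Ici s₀)) :=
      habs.preimage_isClosed_of_isClosed hXc.isClosed isClosed_Ici
    have hAc : IsCompact (X ∩ (fun y => |phi y|) ⁻¹' (Set.Ici s₀)) :=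
      hXc.of_isClosed_subset hAcl Set.inter_subset_left
    rcases (X ∩ (fun y => |phi y|) ⁻¹' (Set.Ici s₀)).eq_empty_or_nonempty with he | hne
    · refine ⟨1, one_pos, le_rfl, fun y hy _ => ?_⟩
      by_contra hcon
      push Not at hcon
      have : y ∈ X ∩ (fun y => |phi y|) ⁻¹' (Set.Ici s₀) := ⟨hy, hcon.le⟩
      rw [he] at this
      exact this
    · obtain ⟨y₀, hy₀, hmin⟩ := hAc.exists_isMinOn hne hGc.continuousOn
      have hpos : 0 < eval y₀ G := by
        refine lt_of_le_of_ne (hG y₀ hy₀.1) fun h => ?_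
        have h1 := h0 y₀ hy₀.1 h.symm
        have h2 : s₀ ≤ |phi y₀| := hy₀.2
        rw [h1, abs_zero] at h2
        exact absurd h2 (not_le.mpr hs₀)
      refine ⟨min 1 (eval y₀ G / 2), lt_min one_pos (half_pos hpos), min_le_left _ _,
        fun y hy hyτ => ?_⟩
      by_contra hcon
      push Not at hcon
      have h3 : eval y₀ G ≤ eval y G := hmin (show y ∈ _ from ⟨hy, hcon.le⟩)
      have h4 : eval y G ≤ eval y₀ G / 2 := hyτ.trans (min_le_right _ _)
      linarith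
  obtain ⟨τ, hτ0, hτ1, hτs⟩ := hτ
  have hMk : 0 ≤ |M| ^ k / τ := div_nonneg (pow_nonneg (abs_nonneg _) _) hτ0.le
  refine ⟨k, C₁ + |M| ^ k / τ, hk, by linarith, fun x hx => ?_⟩
  have hGx := hG x hx
  by_cases hphi0 : phi x = 0
  · rw [hphi0, abs_zero, zero_pow (by omega)]
    exact mul_nonneg (by linarith) hGx
  by_cases hxτ : τ < eval x G
  · have h1 : |phi x| ≤ |M| := by
      have := hM x hx
      rw [Real.norm_eq_abs] at this
      exact this.trans (le_abs_self M)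
    calc |phi x| ^ k ≤ |M| ^ k := pow_le_pow_left₀ (abs_nonneg _) h1 k
      _ = |M| ^ k / τ * τ := by rw [div_mul_cancel₀ _ hτ0.ne']
      _ ≤ |M| ^ k / τ * eval x G := mul_le_mul_of_nonneg_left hxτ.le hMk
      _ ≤ (C₁ + |M| ^ k / τ) * eval x G :=
          mul_le_mul_of_nonneg_right (by linarith) hGx
  · push Not at hxτ
    have hBcl : IsClosed (X ∩ {z | eval z G ≤ eval x G}) :=
      hXc.isClosed.inter (isClosed_le hGc continuous_const)
    have hBc : IsCompact (X ∩ {z | eval z G ≤ eval x G}) :=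
      hXc.of_isClosed_subset hBcl Set.inter_subset_left
    obtain ⟨y, hy, hmax⟩ := hBc.exists_isMaxOn ⟨x, hx, le_refl (eval x G)⟩
      (habs.mono Set.inter_subset_left)
    have hyx : |phi x| ≤ |phi y| := hmax (show x ∈ X ∩ {z | eval z G ≤ eval x G} from ⟨hx, le_refl (eval x G)⟩)
    have hy1 : 0 < |phi y| := (abs_pos.mpr hphi0).trans_le hyx
    have hyG : eval y G ≤ eval x G := hy.2
    have hyG0 : 0 < eval y G := by
      refine lt_of_le_of_ne (hG y hy.1) fun h => ?_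
      have h1 := h0 y hy.1 h.symm
      rw [h1, abs_zero] at hy1
      exact lt_irrefl _ hy1
    have hmx : IsMx X phi G y := by
      refine ⟨hy.1, abs_pos.mp hy1, fun z hz hzy => ?_⟩
      exact hmax (show z ∈ X ∩ {z | eval z G ≤ eval x G} from ⟨hz, hzy.trans hyG⟩)
    have h5 := hb (phi y) (eval y G) (hτs y hy.1 (hyG.trans hxτ)) hyG0
      ((hyG.trans hxτ).trans hτ1) (hHx y hmx)
    calc |phi x| ^ k ≤ |phi y| ^ k := pow_le_pow_left₀ (abs_nonneg _) hyx k
      _ ≤ C₁ * eval y G := h5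
      _ ≤ C₁ * eval x G := mul_le_mul_of_nonneg_left hyG hC₁.le
      _ ≤ (C₁ + |M| ^ k / τ) * eval x G :=
          mul_le_mul_of_nonneg_right (by linarith) hGx

end H71.RN
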