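import Pool.Agent.H71.RN.Flag
import Pool.Agent.H71.RN.Loj
import Pool.Agent.H71.RN.Hra

/-!
# [H71 RN FLL] the flag with Lojasiewicz estimates, 60-90 lines

`flag`. For `i < r` and `j` the function `psi i j x = eval x (P i j) - f x j * eval x (g (i+1))` is continuous on `X`, hereditarily rational (`HRv.psi`), and zero where `g i = 0`. `loj` (with `G = g i`) gives `k i j`, `C i j` (choose arbitrary values `1` for `i ≥ r`). Let `M ≥ 1` bound all `|psi i j|` on `X` (`i < r`, finitely many, compactness),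
`k` the sum (or maximum) of all `k i j`, plus `1`: `|psi|^k = |psi|^(k i j) * |psi|^(k - k i j) ≤ C i j * g i * M^k`; `C = 1 + ∑ C i j * M^k`.
-/

set_option autoImplicit false

namespace H71.RN

open MvPolynomial

variable {N m : ℕ}

theorem fll {X : Set (Pt N)} (hXc : IsCompact X) (hXa : IsAlgebraic X) (f : Pt N → Pt m)
    (hc : ContinuousOn f X) (hf : HRv X f) (G : Pol N) (hG : ∀ x, 0 ≤ eval x G) :
    ∃ (r : ℕ) (g : ℕ → Pol N) (P : ℕ → Fin m → Pol N) (k : ℕ) (C : ℝ), g 0 = G ∧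
      (∀ i x, 0 ≤ eval x (g i)) ∧ (∀ x ∈ X, 0 < eval x (g r)) ∧ 1 ≤ k ∧ 1 ≤ C ∧
      ∀ i, i < r → ∀ x ∈ X, ∀ j,
        |eval x (P i j) - f x j * eval x (g (i + 1))| ^ k ≤ C * eval x (g i) := by
  obtain ⟨r, g, P, hg0, hgn, hgr, hz⟩ := flag hXa f hf G hG
  have hcont : ∀ q : Pol N, ContinuousOn (fun x => eval x q) X := fun q =>
    (MvPolynomial.continuous_eval q).continuousOn
  have hpc : ∀ i j, ContinuousOn (fun x => eval x (P i j) - f x j * eval x (g (i + 1))) X := by
    intro i j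
    refine (hcont _).sub (ContinuousOn.mul ?_ (hcont _))
    exact (continuous_apply j).comp_continuousOn hc
  have hl : ∀ (i : ℕ) (j : Fin m), ∃ (k : ℕ) (C : ℝ), 1 ≤ k ∧ 0 < C ∧ (i < r → ∀ x ∈ X,
      |eval x (P i j) - f x j * eval x (g (i + 1))| ^ k ≤ C * eval x (g i)) := by
    intro i j
    by_cases hi : i < r
    · obtain ⟨k, C, hk, hC, h⟩ := loj hXc hXa
        (fun x => eval x (P i j) - f x j * eval x (g (i + 1))) (hpc i j)
        (hf.psi (P i j) (g (i + 1)) j) (g i) (fun x _ => hgn i x) (fun x hx h0 => by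
          show eval x (P i j) - f x j * eval x (g (i + 1)) = 0
          rw [hz i hi x hx h0 j, sub_self])
      exact ⟨k, C, hk, hC, fun _ => h⟩
    · exact ⟨1, 1, le_rfl, one_pos, fun h => absurd h hi⟩
  choose k C hk hC hkc using hl
  have hM : ∀ (i : ℕ) (j : Fin m), ∃ M : ℝ, ∀ x ∈ X,
      ‖eval x (P i j) - f x j * eval x (g (i + 1))‖ ≤ M := fun i j =>
    hXc.exists_bound_of_continuousOn (hpc i j)
  choose Mf hMf using hM
  obtain ⟨M, hMdef⟩ : ∃ M, M = 1 + ∑ i ∈ Finset.range r, ∑ j, |Mf i j| := ⟨_, rfl⟩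
  have hM0 : ∀ i, 0 ≤ ∑ j, |Mf i j| := fun i => Finset.sum_nonneg fun j _ => abs_nonneg _
  have hM1 : 1 ≤ M := by
    rw [hMdef]
    have : 0 ≤ ∑ i ∈ Finset.range r, ∑ j, |Mf i j| := Finset.sum_nonneg fun i _ => hM0 i
    linarith
  have hMb : ∀ i, i < r → ∀ x ∈ X, ∀ j,
      |eval x (P i j) - f x j * eval x (g (i + 1))| ≤ M := by
    intro i hi x hx j
    have h1 := hMf i j x hx
    rw [Real.norm_eq_abs] at h1
    have h2 : |Mf i j| ≤ ∑ j, |Mf i j| :=
      Finset.single_le_sum (f := fun j => |Mf i j|) (fun _ _ => abs_nonneg _) (Finset.mem_univ j)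
    have h3 : ∑ j, |Mf i j| ≤ ∑ i ∈ Finset.range r, ∑ j, |Mf i j| :=
      Finset.single_le_sum (f := fun i => ∑ j, |Mf i j|) (fun i _ => hM0 i)
        (Finset.mem_range.2 hi)
    have h4 := le_abs_self (Mf i j)
    rw [hMdef]
    linarith
  obtain ⟨K, hKdef⟩ : ∃ K, K = 1 + ∑ i ∈ Finset.range r, ∑ j, k i j := ⟨_, rfl⟩
  have hKk : ∀ i, i < r → ∀ j, k i j ≤ K := by
    intro i hi j
    have h2 : k i j ≤ ∑ j, k i j :=
      Finset.single_le_sum (f := fun j => k i j) (fun _ _ => Nat.zero_le _) (Finset.mem_univ j)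
    have h3 : ∑ j, k i j ≤ ∑ i ∈ Finset.range r, ∑ j, k i j :=
      Finset.single_le_sum (f := fun i => ∑ j, k i j) (fun i _ => Nat.zero_le _)
        (Finset.mem_range.2 hi)
    omega
  have hMK : 0 < M ^ K := by positivity
  have hC0 : ∀ i, 0 ≤ ∑ j, C i j * M ^ K := fun i =>
    Finset.sum_nonneg fun j _ => (mul_pos (hC i j) hMK).le
  refine ⟨r, g, P, K, 1 + ∑ i ∈ Finset.range r, ∑ j, C i j * M ^ K, hg0, hgn, hgr, ?_, ?_, ?_⟩
  · omega
  · have : 0 ≤ ∑ i ∈ Finset.range r, ∑ j, C i j * M ^ K := Finset.sum_nonneg fun i _ => hC0 i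
    linarith
  · intro i hi x hx j
    have h1 := hkc i j hi x hx
    have h2 := hMb i hi x hx j
    have h3 := hgn i x
    have h0 : 0 ≤ |eval x (P i j) - f x j * eval x (g (i + 1))| := abs_nonneg _
    have h4 : |eval x (P i j) - f x j * eval x (g (i + 1))| ^ K ≤
        (C i j * eval x (g i)) * M ^ K := by
      have h5 : |eval x (P i j) - f x j * eval x (g (i + 1))| ^ K =
          |eval x (P i j) - f x j * eval x (g (i + 1))| ^ (k i j) *
            |eval x (P i j) - f x j * eval x (g (i + 1))| ^ (K - k i j) := by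
        rw [← pow_add]
        congr 1
        have := hKk i hi j
        omega
      rw [h5]
      refine mul_le_mul h1 ?_ (pow_nonneg h0 _) (mul_nonneg (hC i j).le h3)
      calc |eval x (P i j) - f x j * eval x (g (i + 1))| ^ (K - k i j) ≤ M ^ (K - k i j) :=
            pow_le_pow_left₀ h0 h2 _
        _ ≤ M ^ K := pow_le_pow_right₀ hM1 (Nat.sub_le _ _)
    have h6 : C i j * M ^ K ≤ ∑ i ∈ Finset.range r, ∑ j, C i j * M ^ K := by
      have h7 : C i j * M ^ K ≤ ∑ j, C i j * M ^ K :=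
        Finset.single_le_sum (f := fun j => C i j * M ^ K)
          (fun j _ => (mul_pos (hC i j) hMK).le) (Finset.mem_univ j)
      have h8 : ∑ j, C i j * M ^ K ≤ ∑ i ∈ Finset.range r, ∑ j, C i j * M ^ K :=
        Finset.single_le_sum (f := fun i => ∑ j, C i j * M ^ K) (fun i _ => hC0 i)
          (Finset.mem_range.2 hi)
      linarith
    calc |eval x (P i j) - f x j * eval x (g (i + 1))| ^ K ≤
        (C i j * eval x (g i)) * M ^ K := h4
      _ = (C i j * M ^ K) * eval x (g i) := by ring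
      _ ≤ (1 + ∑ i ∈ Finset.range r, ∑ j, C i j * M ^ K) * eval x (g i) :=
          mul_le_mul_of_nonneg_right (by linarith) h3

end H71.RN
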