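import Pool.Agent.H71.RN.Basic

/-!
# [H71 RN FLOW] flows of polynomial vector fields, 60-110 lines

* `contDiff_eval`: induction on the polynomial.
* `hasDerivAt_eval`: induction on `g` (`induction_on`), or chain rule.
* `flow`: the vector field `y ↦ (fun k => eval y (V k))` is `C^1` (`contDiff_pi`), use the Picard-Lindelöf theorem of Mathlib (e.g. `ContDiffAt.exists_forall_mem_closedBall_exists_eq_forall_mem_Ioo_hasDerivAt`, `exists_forall_hasDerivAt_Ioo_eq_of_contDiffAt` or similar).
* `flow_eval`: `hasDerivAt_eval` and `vf_apply`.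
-/

set_option autoImplicit false

namespace H71.RN

open MvPolynomial

variable {N : ℕ}

theorem contDiff_eval (g : Pol N) (r : WithTop ℕ∞) : ContDiff ℝ r fun x : Pt N => eval x g := by
  induction g using MvPolynomial.induction_on with
  | C a =>
    simp only [eval_C]
    exact contDiff_const
  | add p q hp hq =>
    simp only [map_add]
    exact hp.add hq
  | mul_X p n hp =>
    simp only [map_mul, eval_X]
    exact hp.mul (contDiff_apply ℝ ℝ n)

theorem hasDerivAt_eval (c : ℝ → Pt N) (v : Pt N) (t : ℝ) (hc : HasDerivAt c v t) (g : Pol N) :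
    HasDerivAt (fun s => eval (c s) g) (∑ k, v k * eval (c t) (pderiv k g)) t := by
  induction g using MvPolynomial.induction_on with
  | C a =>
    simp only [eval_C, pderiv_C, map_zero, mul_zero, Finset.sum_const_zero]
    exact hasDerivAt_const t a
  | add p q hp hq =>
    simp only [map_add, mul_add, Finset.sum_add_distrib]
    exact hp.add hq
  | mul_X p n hp =>
    have h1 : HasDerivAt (fun s => eval (c s) p * c s n)
        ((∑ k, v k * eval (c t) (pderiv k p)) * c t n + eval (c t) p * v n) t :=
      hp.mul ((hasDerivAt_pi.1 hc) n)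
    have h2 : ∑ k, v k * eval (c t) (pderiv k (p * X n))
        = (∑ k, v k * eval (c t) (pderiv k p)) * c t n + eval (c t) p * v n := by
      have h : ∀ k, v k * eval (c t) (pderiv k (p * X n))
          = v k * eval (c t) (pderiv k p) * c t n + if k = n then eval (c t) p * v n else 0 := by
        intro k
        rw [Derivation.leibniz, smul_eq_mul, smul_eq_mul, map_add, map_mul, map_mul, eval_X]
        by_cases hk : k = n
        · subst hk
          rw [pderiv_X_self, if_pos rfl, map_one]
          ring
        · rw [pderiv_X_of_ne (Ne.symm hk), if_neg hk, map_zero]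
          ring
      rw [Finset.sum_congr rfl fun k _ => h k, Finset.sum_add_distrib, Finset.sum_ite_eq',
        if_pos (Finset.mem_univ _), Finset.sum_mul]
    rw [h2]
    simp only [map_mul, eval_X]
    exact h1

theorem flow (V : Fin N → Pol N) (x : Pt N) :
    ∃ (c : ℝ → Pt N) (δ : ℝ), 0 < δ ∧ c 0 = x ∧
      ∀ t, |t| < δ → HasDerivAt c (fun k => eval (c t) (V k)) t := by
  have hf : ContDiff ℝ 1 (fun y : Pt N => fun k => eval y (V k)) :=
    contDiff_pi.2 fun k => contDiff_eval (V k) 1
  obtain ⟨c, h0, ε, hε, h⟩ :=
    ContDiffAt.exists_forall_mem_closedBall_exists_eq_forall_mem_Ioo_hasDerivAt₀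
      (hf.contDiffAt (x := x)) 0
  refine ⟨c, ε, hε, h0, fun t ht => ?_⟩
  have h2 := abs_lt.1 ht
  exact h t ⟨by linarith [h2.1], by linarith [h2.2]⟩

theorem flow_eval (V : Fin N → Pol N) (c : ℝ → Pt N) (t : ℝ)
    (hc : HasDerivAt c (fun k => eval (c t) (V k)) t) (g : Pol N) :
    HasDerivAt (fun s => eval (c s) g) (eval (c t) (vf V g)) t := by
  have h := hasDerivAt_eval c _ t hc g
  rw [vf_apply, map_sum]
  simp only [map_mul]
  exact h

end H71.RN
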