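import Pool.Agent.H71.RN.Basic

/-!
# [H71 RN FTI] the modified map is continuous, 40-70 lines

* `ft_bound`: if `D x = 0` the left side is `0`; otherwise divide `hNu` by `D x > 0`.
* `ft_cont`: at `x₀ ∈ X` with `D x₀ ≠ 0`: near `x₀` the map is `Nu / D` (componentwise quotient of continuous functions, `MvPolynomial.continuous_eval` or similar). At `x₀` with `D x₀ = 0`: `E x₀ = 0`, `Ft x₀ = f x₀` and `|Ft x j - f x₀ j| ≤ C' * (E x)^2 + |f x j - f x₀ j| → 0` for `x → x₀` in `X`.
-/

set_option autoImplicit false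

namespace H71.RN

open MvPolynomial

variable {N m : ℕ}

open Classical in
/-- the modified map -/
noncomputable def Ft (f : Pt N → Pt m) (D : Pol N) (Nu : Fin m → Pol N) (x : Pt N) : Pt m :=
  if eval x D = 0 then f x else fun j => eval x (Nu j) / eval x D

theorem ft_bound {X : Set (Pt N)} (f : Pt N → Pt m) (D E : Pol N) (Nu : Fin m → Pol N) (C' : ℝ)
    (hC' : 0 ≤ C') (hD : ∀ x ∈ X, 0 ≤ eval x D)
    (hNu : ∀ x ∈ X, ∀ j, |eval x (Nu j) - eval x D * f x j| ≤ C' * eval x E ^ 2 * eval x D) :
    ∀ x ∈ X, ∀ j, |Ft f D Nu x j - f x j| ≤ C' * eval x E ^ 2 := by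
  intro x hx j
  unfold Ft
  by_cases h : eval x D = 0
  · rw [if_pos h, sub_self, abs_zero]
    positivity
  · rw [if_neg h]
    have hpos : 0 < eval x D := lt_of_le_of_ne (hD x hx) (Ne.symm h)
    have h1 : eval x (Nu j) / eval x D - f x j = (eval x (Nu j) - eval x D * f x j) / eval x D := by
      field_simp
    rw [h1, abs_div, abs_of_pos hpos, div_le_iff₀ hpos]
    exact hNu x hx j

theorem ft_cont {X : Set (Pt N)} (f : Pt N → Pt m) (hc : ContinuousOn f X) (D E : Pol N)
    (Nu : Fin m → Pol N) (C' : ℝ) (hC' : 0 ≤ C') (hD : ∀ x ∈ X, 0 ≤ eval x D)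
    (hDE : ∀ x ∈ X, eval x D = 0 → eval x E = 0)
    (hNu : ∀ x ∈ X, ∀ j, |eval x (Nu j) - eval x D * f x j| ≤ C' * eval x E ^ 2 * eval x D) :
    ContinuousOn (Ft f D Nu) X := by
  have hb := ft_bound f D E Nu C' hC' hD hNu
  have hev : ∀ g : Pol N, Continuous fun x : Pt N => eval x g := fun g =>
    MvPolynomial.continuous_eval g
  intro x₀ hx₀
  by_cases h : eval x₀ D = 0
  · rw [continuousWithinAt_pi]
    intro j
    have h0 : Ft f D Nu x₀ j = f x₀ j := by
      unfold Ft
      rw [if_pos h]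
    have h1 : Filter.Tendsto (fun x => f x j) (nhdsWithin x₀ X) (nhds (f x₀ j)) :=
      (continuous_apply j).continuousAt.comp_continuousWithinAt (hc x₀ hx₀)
    have h2 : Filter.Tendsto (fun x => C' * eval x E ^ 2) (nhdsWithin x₀ X) (nhds 0) := by
      have h3 : Continuous fun x : Pt N => C' * eval x E ^ 2 :=
        continuous_const.mul ((hev E).pow 2)
      have h4 := h3.tendsto x₀
      rw [hDE x₀ hx₀ h] at h4
      have h5 : C' * (0 : ℝ) ^ 2 = 0 := by ring
      rw [h5] at h4
      exact h4.mono_left nhdsWithin_le_nhds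
    have h6 : Filter.Tendsto (fun x => Ft f D Nu x j - f x j) (nhdsWithin x₀ X) (nhds 0) := by
      refine squeeze_zero_norm' ?_ h2
      filter_upwards [self_mem_nhdsWithin] with x hx
      exact hb x hx j
    have h7 := h6.add h1
    rw [zero_add, ← h0] at h7
    refine h7.congr fun x => ?_
    ring
  · have hne : ∀ᶠ x in nhdsWithin x₀ X, eval x D ≠ 0 :=
      ((hev D).continuousAt.eventually_ne h).filter_mono nhdsWithin_le_nhds
    have h1 : ContinuousWithinAt (fun x : Pt N => fun j => eval x (Nu j) / eval x D) X x₀ := by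
      rw [continuousWithinAt_pi]
      intro j
      exact ((hev (Nu j)).continuousWithinAt).div ((hev D).continuousWithinAt) h
    refine h1.congr_of_eventuallyEq ?_ ?_
    · filter_upwards [hne] with x hx
      unfold Ft
      rw [if_neg hx]
    · unfold Ft
      rw [if_neg h]

end H71.RN
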