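import Pool.Agent.H71.RN.Rat

/-!
# [H71 RN GRA] the graph of a rational map over a prime algebraic set, 90-150 lines

For `g ∈ Pol (N + m)` there are `e` and `g' ∈ Pol N` with `eval x g' = eval x Q ^ e * eval (pr x (f x)) g` for all `x ∈ W` with `Q x ≠ 0`, and one may take `g' = Q * ...` (so that `e ≥ 1` and both sides vanish if `Q x = 0`) (`subst_exists`; induction on `g`: `X_i` with `i < N`: `Q * X_i`; with `i = N + j`: `P j`; sums: common power; products).
* `graph_prime`: if `g1 * g2` vanishes on the graph `T`, then `g1' * g2'` vanishes on `W`, so `g1' ∈ vI W` or `g2' ∈ vI W`, and `g1` or `g2` vanishes on `T` (`Q x ≠ 0` there). `vI T ≠ ⊤` as `Q ∉ vI W`, so `T` is not empty.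
* `graph_dim`: given `g : Fin n → Pol (N + m)`, apply `rat` to `a i = (g i)'`, `b i = Q ^ e_i`.
-/

set_option autoImplicit false

namespace H71.RN

open MvPolynomial

variable {N m : ℕ}

theorem subst_exists {W : Set (Pt N)} (f : Pt N → Pt m) (Q : Pol N) (P : Fin m → Pol N)
    (hf : ∀ z ∈ W, ∀ j, eval z Q * f z j = eval z (P j)) (g : Pol (N + m)) :
    ∃ (e : ℕ) (g' : Pol N), ∀ x ∈ W,
      eval x g' = eval x Q ^ (e + 1) * eval (pr x (f x)) g := by
  induction g using MvPolynomial.induction_on with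
  | C a =>
    refine ⟨0, Q * C a, fun x _ => ?_⟩
    rw [map_mul, eval_C, eval_C, zero_add, pow_one]
  | add p q hp hq =>
    obtain ⟨e1, p', h1⟩ := hp
    obtain ⟨e2, q', h2⟩ := hq
    refine ⟨e1 + e2 + 1, Q ^ (e2 + 1) * p' + Q ^ (e1 + 1) * q', fun x hx => ?_⟩
    rw [map_add, map_mul, map_mul, map_pow, map_pow, h1 x hx, h2 x hx, map_add]
    ring
  | mul_X p i hp =>
    obtain ⟨e, p', h1⟩ := hp
    refine Fin.addCases (fun i => ?_) (fun j => ?_) i
    · refine ⟨e, p' * X i, fun x hx => ?_⟩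
      have h2 : pr x (f x) (Fin.castAdd m i) = x i := by
        unfold pr
        exact Fin.append_left _ _ _
      rw [map_mul, eval_X, h1 x hx, map_mul, eval_X, h2]
      ring
    · refine ⟨e + 1, p' * P j, fun x hx => ?_⟩
      have h2 : pr x (f x) (Fin.natAdd N j) = f x j := by
        unfold pr
        exact Fin.append_right _ _ _
      rw [map_mul, h1 x hx, map_mul, eval_X, h2, ← hf x hx j]
      ring

private theorem gra_mem {W : Set (Pt N)} (f : Pt N → Pt m) (Q : Pol N)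
    {g : Pol (N + m)} {e : ℕ} {g' : Pol N}
    (h : ∀ x ∈ W, eval x g' = eval x Q ^ (e + 1) * eval (pr x (f x)) g) :
    g ∈ vI (gr {x | x ∈ W ∧ eval x Q ≠ 0} f) ↔ g' ∈ vI W := by
  constructor
  · intro hg x hx
    rw [h x hx]
    by_cases hQ : eval x Q = 0
    · rw [hQ, zero_pow (by omega), zero_mul]
    · have h1 : pr x (f x) ∈ gr {x | x ∈ W ∧ eval x Q ≠ 0} f := by
        refine ⟨?_, ?_⟩
        · rw [p1_pr]
          exact ⟨hx, hQ⟩
        · rw [p1_pr, p2_pr]
      rw [hg _ h1, mul_zero]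
  · rintro hg w ⟨⟨hx, hQ⟩, hw⟩
    have h1 := h _ hx
    rw [hg _ hx, ← hw, pr_p] at h1
    rcases mul_eq_zero.1 h1.symm with h2 | h2
    · exact absurd (pow_eq_zero_iff (by omega) |>.1 h2) hQ
    · exact h2

theorem graph_prime {W : Set (Pt N)} (hp : (vI W).IsPrime) (f : Pt N → Pt m) (Q : Pol N)
    (P : Fin m → Pol N) (hQ : Q ∉ vI W) (hf : ∀ z ∈ W, ∀ j, eval z Q * f z j = eval z (P j)) :
    (vI (gr {x | x ∈ W ∧ eval x Q ≠ 0} f)).IsPrime := by
  refine ⟨?_, ?_⟩
  · intro htop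
    obtain ⟨x, hx, hQx⟩ := not_mem_vI.1 hQ
    have h1 : (1 : Pol (N + m)) ∈ vI (gr {x | x ∈ W ∧ eval x Q ≠ 0} f) := by
      rw [htop]
      exact Submodule.mem_top
    have h2 := h1 (pr x (f x)) (by
      refine ⟨?_, ?_⟩
      · rw [p1_pr]
        exact ⟨hx, hQx⟩
      · rw [p1_pr, p2_pr])
    rw [map_one] at h2
    exact one_ne_zero h2
  · intro g1 g2 hg
    obtain ⟨e1, g1', h1⟩ := subst_exists f Q P hf g1
    obtain ⟨e2, g2', h2⟩ := subst_exists f Q P hf g2
    have h3 : ∀ x ∈ W, eval x (g1' * g2') = eval x Q ^ (e1 + e2 + 1 + 1) *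
        eval (pr x (f x)) (g1 * g2) := by
      intro x hx
      rw [map_mul, h1 x hx, h2 x hx, map_mul]
      ring
    rcases hp.mem_or_mem ((gra_mem f Q h3).1 hg) with h4 | h4
    · exact Or.inl ((gra_mem f Q h1).2 h4)
    · exact Or.inr ((gra_mem f Q h2).2 h4)

theorem graph_dim {W : Set (Pt N)} (hp : (vI W).IsPrime) (f : Pt N → Pt m) (Q : Pol N)
    (P : Fin m → Pol N) (hQ : Q ∉ vI W) (hf : ∀ z ∈ W, ∀ j, eval z Q * f z j = eval z (P j))
    {n : ℕ} (hW : DimLt W n) : DimLt (gr {x | x ∈ W ∧ eval x Q ≠ 0} f) n := by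
  intro g
  choose e g' h using fun i => subst_exists f Q P hf (g i)
  obtain ⟨H, hH0, hH⟩ := rat hp hW g' (fun i => Q ^ (e i + 1))
    (fun i hi => hQ (hp.mem_of_pow_mem _ hi))
  refine ⟨H, hH0, ?_⟩
  rintro w ⟨⟨hx, hQx⟩, hw⟩
  have h1 := hH _ hx (fun i => by
    rw [map_pow]
    exact pow_ne_zero _ hQx)
  have h2 : (fun i => eval (p1 w) (g' i) / eval (p1 w) (Q ^ (e i + 1))) =
      fun i => eval w (g i) := by
    funext i
    rw [map_pow, h i _ hx, ← hw, pr_p, mul_div_cancel_left₀ _ (pow_ne_zero _ hQx)]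
  rw [h2] at h1
  exact h1

end H71.RN
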