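import Pool.Agent.H71.RN.Hrp
import Pool.Agent.H71.RN.Hra
import Pool.Agent.H71.RN.Den

/-!
# [H71 RN HRM] continuous rational maps are hereditarily rational, 20-30 lines

`exists_den`: `G`, `P`; `{G ≠ 0}` is the set of regular points in `X`, Zariski dense by hypothesis. Apply `hr_prime` to every component, then `hr_of_prime`, `hrv_of_hr`.
-/

set_option autoImplicit false

namespace H71.RN

open MvPolynomial

variable {N m : ℕ}

theorem hr_main {X : Set (Pt N)} {n : ℕ} (hXa : IsAlgebraic X) (hX : IsNonsingular n X)
    (f : Pt N → Pt m) (hf : ContinuousRational X f) : HRv X f := by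
  obtain ⟨G, P, -, hGP, hG⟩ := exists_den X f
  refine hrv_of_hr fun j => hr_of_prime fun W _ hWX hWp => ?_
  refine hr_prime hXa hX (fun x => f x j) ?_ (P j) G (fun z hz => hGP z hz j) ?_ hWX hWp
  · intro x hx
    exact ((continuous_apply j).continuousAt.comp_continuousWithinAt (hf.1 x hx))
  · intro g hg
    refine hf.2 g fun z hz hreg => hg z hz fun h0 => ?_
    exact (hG z hz).1 h0 hreg

end H71.RN
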