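import Pool.Agent.H71.RN.Linv

/-!
# [H71 RN LEQ] local equations of a nonsingular set, 110-170 lines

`hX z` gives `c', h'` with `c' + n = N`, so `c' = c`; `h'` vanishes on `X`, its gradients at `z` are independent, and `Z(h') ∩ U' ⊆ X`.
(1) `ker dh'(z) ⊆ ker dh(z)` (`h = T.h`; `ker dh(z) = {ξ | ∀ i, ∑ k, eval z (pderiv k (h i)) * ξ k = 0}`): let `T'' ` be a chart with `T''.h = h'`, `dl (z) ≠ 0` (`exists_chart`), `Psi''` from `chart_inv` with `O = U'`. For `ξ ∈ ker dh'(z)` let `η r = ∑ k, eval z (T''.M r k) * ξ k` (it vanishes at the indices `inl`), `γ t = Psi'' (T''.map z + t η)`: `h' (γ t) = 0`, so `γ t ∈ X`, `h (γ t) = 0`, and `γ' 0 = ξ`.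
So `dh(z) ξ = 0`. Both kernels have dimension `N - c = n` (the `c` gradients are independent; for `h` since `dl z ≠ 0`), so they are equal.
(2) Let `T'` be the chart with `T'.h = h'`, `T'.l = T.l`: `eval z T'.dl ≠ 0`, because a vector in the kernel of its matrix at `z` is in `ker dh'(z) = ker dh(z)` and is killed by the linear forms of `T`, so it is in the kernel of the matrix of `T`.
(3) `chart_inv` for `T'` at `z` (`O = U'`): `Psi'`, ball of radius `ρ'`; for `T` at `z`: `U₀`, on which `T.map` is injective. For `y` near `z` with `h y = 0`: the point `w` with `w (inl i) = 0`, `w (inr j) = ∑ l j k * y k` is in the ball around `T'.map z` (`h' z = 0`), `y' = Psi' w ∈ U'`, `h' y' = 0`, so `y' ∈ X`, so `h y' = 0` and `T.map y' = T.map y`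
(same linear forms). `y' → z` as `y → z` (`Psi'` is continuous, `Psi' (T'.map z) = z`), so `y, y' ∈ U₀` for `y` near `z`, and `y = y' ∈ X`.
-/

set_option autoImplicit false

namespace H71.RN

open MvPolynomial

variable {N c n : ℕ}

/-- the derivative of a chart map is injective -/
private theorem leq_inj (T : Chart N c n) (z : Pt N) (hd : eval z T.dl ≠ 0) (L : Pt N →L[ℝ] Pt N)
    (hL : ∀ v r, L v r = ∑ k, eval z (T.M r k) * v k) (v : Pt N) (hv : L v = 0) : v = 0 := by
  have hdet : (T.M.map (eval z)).det ≠ 0 := by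
    have h1 : (T.M.map (eval z)).det = eval z T.dl := by
      unfold Chart.dl
      exact (RingHom.map_det (eval z) T.M).symm
    rw [h1]
    exact hd
  refine Matrix.eq_zero_of_mulVec_eq_zero hdet ?_
  funext r
  rw [← hv, hL]
  rfl

theorem loc_eq {X : Set (Pt N)} (hX : IsNonsingular n X) (T : Chart N c n)
    (hT : ∀ i, T.h i ∈ vI X) (z : Pt N) (hz : z ∈ X) (hd : eval z T.dl ≠ 0) :
    ∃ U ∈ nhds z, ∀ y ∈ U, (∀ i, eval y (T.h i) = 0) → y ∈ X := by
  obtain ⟨c', h', hcn', hv', hind', U', hU', hXU'⟩ := hX z hz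
  have hc : c' = c := by
    have := T.hcn
    omega
  subst hc
  obtain ⟨T', hT', hd'⟩ := exists_chart h' hcn' z hind'
  obtain ⟨ρ, Psi, U1, hρ, hU1o, hzU1, hU1U', hPsi, hP1, hP2, -⟩ := chart_inv T' z hd' U' hU'
  obtain ⟨ρT, PsiT, UT, -, hUTo, hzUT, -, -, -, hPT2, -⟩ := chart_inv T z hd Set.univ
    Filter.univ_mem
  obtain ⟨LT, hLT, hLT'⟩ := chart_map_deriv T z
  obtain ⟨L1, hL1, hL1'⟩ := chart_map_deriv T' z
  have he : T'.e = T.e := rfl
  -- the inclusion of the last coordinates
  let ι : Pt n →L[ℝ] Pt N := ContinuousLinearMap.pi fun r =>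
    Sum.elim (fun _ => 0) (fun j => ContinuousLinearMap.proj j) (T.e r)
  have hιl : ∀ s i, ι s (T.e.symm (Sum.inl i)) = 0 := by
    intro s i
    simp [ι]
  have hιr : ∀ s j, ι s (T.e.symm (Sum.inr j)) = s j := by
    intro s j
    simp [ι]
  set w0 : Pt N := T'.map z with hw0
  have hPz : Psi w0 = z := (hP2 z hzU1).2
  have hw0b : w0 ∈ Metric.ball w0 ρ := Metric.mem_ball_self hρ
  have hDPsi : HasStrictFDerivAt Psi (fderiv ℝ Psi w0) w0 := (hPsi w0 hw0b).hasStrictFDerivAt
  set DP := fderiv ℝ Psi w0 with hDP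
  -- `L1 ∘ DP = id`
  have hid : L1.comp DP = ContinuousLinearMap.id ℝ (Pt N) := by
    have h1 : HasFDerivAt (fun w => T'.map (Psi w)) (L1.comp DP) w0 := by
      have h2 : HasFDerivAt T'.map L1 (Psi w0) := by
        rw [hPz]
        exact hL1'.hasFDerivAt
      exact h2.comp w0 hDPsi.hasFDerivAt
    have h2 : HasFDerivAt (fun w => T'.map (Psi w)) (ContinuousLinearMap.id ℝ (Pt N)) w0 := by
      refine (hasFDerivAt_id w0).congr_of_eventuallyEq ?_
      filter_upwards [Metric.isOpen_ball.mem_nhds hw0b] with w hw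
      exact (hP1 w hw).2
    exact h1.unique h2
  -- the parametrisation
  set φ : Pt n → Pt N := fun s => Psi (w0 + ι s) with hφ
  have hφ0 : φ 0 = z := by
    simp only [hφ, map_zero, add_zero]
    exact hPz
  have hin : HasStrictFDerivAt (fun s : Pt n => w0 + ι s) ι 0 := ι.hasStrictFDerivAt.const_add w0
  have hφd : HasStrictFDerivAt φ (DP.comp ι) 0 := by
    have h1 : HasStrictFDerivAt Psi DP (w0 + ι 0) := by
      rw [map_zero, add_zero]
      exact hDPsi
    exact h1.comp 0 hin
  have hφX : ∀ᶠ s in nhds (0 : Pt n), φ s ∈ X := by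
    have hcont : Filter.Tendsto (fun s : Pt n => w0 + ι s) (nhds 0) (nhds w0) := by
      have := hin.continuousAt
      rw [ContinuousAt, map_zero, add_zero] at this
      exact this
    filter_upwards [hcont.eventually (Metric.isOpen_ball.mem_nhds hw0b)] with s hs
    obtain ⟨h1, h2⟩ := hP1 _ hs
    refine hXU' _ (hU1U' h1) fun i => ?_
    have h3 := congrFun h2 (T.e.symm (Sum.inl i))
    have h4 := chart_map_inl T' (Psi (w0 + ι s)) i
    rw [he, hT'] at h4
    rw [h4] at h3
    change eval (Psi (w0 + ι s)) (h' i) = 0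
    rw [h3, Pi.add_apply, hιl, add_zero, hw0]
    have h5 := chart_map_inl T' z i
    rw [he, hT'] at h5
    rw [h5]
    exact hv' i z hz
  have hφc : Filter.Tendsto φ (nhds 0) (nhds z) := by
    have := hφd.continuousAt
    rw [ContinuousAt, hφ0] at this
    exact this
  -- the composition with the chart map of `T`
  have hG : HasStrictFDerivAt (fun s => T.map (φ s)) (LT.comp (DP.comp ι)) 0 := by
    have h1 : HasStrictFDerivAt T.map LT (φ 0) := by
      rw [hφ0]
      exact hLT'
    exact h1.comp 0 hφd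
  let P : Pt N →L[ℝ] Pt n := ContinuousLinearMap.pi fun j =>
    ContinuousLinearMap.proj (T.e.symm (Sum.inr j))
  have hP : ∀ w j, P w j = w (T.e.symm (Sum.inr j)) := fun w j => rfl
  have hF : HasStrictFDerivAt (fun s => P (T.map (φ s))) (P.comp (LT.comp (DP.comp ι))) 0 :=
    P.hasStrictFDerivAt.comp 0 hG
  have hinl : ∀ s i, (LT (DP (ι s))) (T.e.symm (Sum.inl i)) = 0 := by
    intro s i
    have h1 : HasFDerivAt (fun s => T.map (φ s) (T.e.symm (Sum.inl i)))
        ((ContinuousLinearMap.proj (T.e.symm (Sum.inl i))).comp (LT.comp (DP.comp ι))) 0 :=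
      (ContinuousLinearMap.proj (R := ℝ) (φ := fun _ : Fin N => ℝ)
        (T.e.symm (Sum.inl i))).hasFDerivAt.comp 0 hG.hasFDerivAt
    have h2 : HasFDerivAt (fun s => T.map (φ s) (T.e.symm (Sum.inl i)))
        (0 : Pt n →L[ℝ] ℝ) 0 := by
      refine (hasFDerivAt_const (0 : ℝ) (0 : Pt n)).congr_of_eventuallyEq ?_
      filter_upwards [hφX] with s hs
      rw [chart_map_inl]
      exact hT i _ hs
    have h3 := h1.unique h2
    have h4 := congrArg (fun f => f s) h3
    simpa using h4
  have hFinj : ∀ s, (P.comp (LT.comp (DP.comp ι))) s = 0 → s = 0 := by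
    intro s hs
    have h1 : LT (DP (ι s)) = 0 := by
      funext r
      obtain ⟨q, rfl⟩ := T.e.symm.surjective r
      rcases q with i | j
      · exact hinl s i
      · have h2 := congrFun hs j
        rw [ContinuousLinearMap.comp_apply, hP] at h2
        exact h2
    have h2 := leq_inj T z hd LT hLT _ h1
    have h3 : ι s = 0 := by
      have h4 := congrArg (fun f => f (ι s)) hid
      simp only [ContinuousLinearMap.comp_apply, ContinuousLinearMap.id_apply] at h4
      rw [← h4, h2, map_zero]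
    funext j
    rw [← hιr s j, h3]
    rfl
  have hFsurj : (P.comp (LT.comp (DP.comp ι))).range = ⊤ := by
    have h1 : Function.Injective (P.comp (LT.comp (DP.comp ι))).toLinearMap :=
      (injective_iff_map_eq_zero _).2 hFinj
    exact LinearMap.range_eq_top.2 (LinearMap.injective_iff_surjective.1 h1)
  have hmap := hF.map_nhds_eq_of_surj hFsurj
  have hN : {s | φ s ∈ UT ∧ φ s ∈ X} ∈ nhds (0 : Pt n) := by
    filter_upwards [hφX, hφc.eventually (hUTo.mem_nhds hzUT)] with s h1 h2
    exact ⟨h2, h1⟩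
  have hN2 : (fun s => P (T.map (φ s))) '' {s | φ s ∈ UT ∧ φ s ∈ X} ∈ nhds (P (T.map (φ 0))) := by
    rw [← hmap]
    exact Filter.image_mem_map hN
  rw [hφ0] at hN2
  have hTc : Filter.Tendsto (fun y => P (T.map y)) (nhds z) (nhds (P (T.map z))) :=
    (P.continuous.tendsto _).comp hLT'.continuousAt
  refine ⟨_, Filter.inter_mem (hTc hN2) (hUTo.mem_nhds hzUT), ?_⟩
  rintro y ⟨hy1, hy2⟩ hy
  obtain ⟨s, ⟨hs1, hs2⟩, hs3⟩ := hy1
  have hs3' : P (T.map (φ s)) = P (T.map y) := hs3
  have heq : T.map (φ s) = T.map y := by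
    funext r
    obtain ⟨q, rfl⟩ := T.e.symm.surjective r
    rcases q with i | j
    · rw [chart_map_inl, chart_map_inl, hy i]
      exact hT i _ hs2
    · have := congrFun hs3' j
      rw [hP, hP] at this
      exact this
  have h1 := (hPT2 _ hs1).2
  have h2 := (hPT2 _ hy2).2
  rw [heq, h2] at h1
  rw [h1]
  exact hs2

end H71.RN
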