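import Pool.Agent.H71.RN.Flow

/-!
# [H71 RN TAY] Taylor expansion along a flow, 90-140 lines

* `taylor_lim`: `q` is smooth near `0` with derivatives given by `D k` (`HasDerivAt (D k) (D (k+1) t) t` for `|t| < δ`). If `D k 0 = 0` for `k < b` then `D 0 t / t^b → D b 0 / b!` as `t → 0`, `t ≠ 0`. (Induction on `b` with L'Hopital (`HasDerivAt.lhopital_zero_nhdsNE`, applied to `D 0` and `t^b`, the quotient of the derivatives is `D 1 t / (b t^(b-1))`), or Taylor's theorem.)
* `taylor_step`: `q t = eval (c t) Q`, `D k t = eval (c t) ((vf V)^[k] Q)` (`flow_eval`, `Function.iterate_succ_apply'`), the same for `P`. `q t / t^b → D_Q b 0 / b!`, so `p t / t^b = phi t * q t / t^b → L = phi 0 * D_Q b 0 / b!`. By induction on `k < b`: `D_P k 0 = 0`, because `p t / t^k → D_P k 0 / k!` (`taylor_lim`) and `p t / t^k = t^(b-k) * (p t / t^b) → 0`. Then `p t / t^b → D_P b 0 / b!`; uniqueness of limits.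
-/

set_option autoImplicit false

namespace H71.RN

open MvPolynomial

variable {N : ℕ}

theorem tay_small {δ : ℝ} (hδ : 0 < δ) {p : ℝ → Prop} (h : ∀ t, |t| < δ → p t) :
    ∀ᶠ t in nhdsWithin (0 : ℝ) {0}ᶜ, p t := by
  have h1 : ∀ᶠ t in nhds (0 : ℝ), p t := by
    rw [Metric.eventually_nhds_iff]
    refine ⟨δ, hδ, fun {t} ht => h t ?_⟩
    rwa [Real.dist_eq, sub_zero] at ht
  exact h1.filter_mono nhdsWithin_le_nhds

theorem taylor_lim (D : ℕ → ℝ → ℝ) (δ : ℝ) (hδ : 0 < δ)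
    (hD : ∀ k t, |t| < δ → HasDerivAt (D k) (D (k + 1) t) t) (b : ℕ)
    (h0 : ∀ k, k < b → D k 0 = 0) :
    Filter.Tendsto (fun t => D 0 t / t ^ b) (nhdsWithin 0 {0}ᶜ) (nhds (D b 0 / b.factorial)) := by
  induction b generalizing D with
  | zero =>
    have h1 : ContinuousAt (D 0) 0 := (hD 0 0 (by rwa [abs_zero])).continuousAt
    have h2 : Filter.Tendsto (D 0) (nhdsWithin 0 {0}ᶜ) (nhds (D 0 0)) :=
      h1.tendsto.mono_left nhdsWithin_le_nhds
    simpa only [pow_zero, div_one, Nat.factorial_zero, Nat.cast_one] using h2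
  | succ b ih =>
    have h1 := ih (fun k => D (k + 1)) (fun k t ht => hD (k + 1) t ht)
      (fun k hk => h0 (k + 1) (Nat.succ_lt_succ hk))
    have h2 : ContinuousAt (D 0) 0 := (hD 0 0 (by rwa [abs_zero])).continuousAt
    have h3 : Filter.Tendsto (D 0) (nhdsWithin 0 {0}ᶜ) (nhds 0) := by
      have h4 := h2.tendsto.mono_left (nhdsWithin_le_nhds (s := ({0}ᶜ : Set ℝ)))
      rwa [h0 0 (Nat.succ_pos b)] at h4
    have h5 : Filter.Tendsto (fun t : ℝ => t ^ (b + 1)) (nhdsWithin 0 {0}ᶜ) (nhds 0) := by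
      have h6 : ContinuousAt (fun t : ℝ => t ^ (b + 1)) 0 := by fun_prop
      have h7 := h6.tendsto.mono_left (nhdsWithin_le_nhds (s := ({0}ᶜ : Set ℝ)))
      have h8 : (0 : ℝ) ^ (b + 1) = 0 := by
        rw [pow_succ, mul_zero]
      rwa [h8] at h7
    have hne : ((b + 1 : ℕ) : ℝ) ≠ 0 := by
      exact_mod_cast Nat.succ_ne_zero b
    refine HasDerivAt.lhopital_zero_nhdsNE (f' := fun t => D 1 t)
      (g' := fun t : ℝ => ((b + 1 : ℕ) : ℝ) * t ^ b) (tay_small hδ fun t ht => hD 0 t ht)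
      (tay_small hδ fun t _ => ?_) ?_ h3 h5 ?_
    · exact hasDerivAt_pow (b + 1) t
    · filter_upwards [self_mem_nhdsWithin] with t ht
      exact mul_ne_zero hne (pow_ne_zero _ ht)
    · have h9 := h1.div_const ((b + 1 : ℕ) : ℝ)
      have h10 : D (b + 1) 0 / ((b + 1).factorial : ℝ) =
          D (b + 1) 0 / (b.factorial : ℝ) / ((b + 1 : ℕ) : ℝ) := by
        rw [Nat.factorial_succ, Nat.cast_mul, div_div, mul_comm]
      rw [h10]
      refine h9.congr fun t => ?_
      show D 1 t / t ^ b / ((b + 1 : ℕ) : ℝ) = D 1 t / (((b + 1 : ℕ) : ℝ) * t ^ b)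
      rw [div_div, mul_comm]

theorem tay_der (V : Fin N → Pol N) (c : ℝ → Pt N) (δ : ℝ)
    (hc : ∀ t, |t| < δ → HasDerivAt c (fun k => eval (c t) (V k)) t) (P : Pol N) (k : ℕ) (t : ℝ)
    (ht : |t| < δ) :
    HasDerivAt (fun s => eval (c s) ((vf V)^[k] P)) (eval (c t) ((vf V)^[k + 1] P)) t := by
  rw [Function.iterate_succ_apply']
  exact flow_eval V c t (hc t ht) _

theorem taylor_step (V : Fin N → Pol N) (c : ℝ → Pt N) (δ : ℝ) (hδ : 0 < δ)
    (hc : ∀ t, |t| < δ → HasDerivAt c (fun k => eval (c t) (V k)) t) (P Q : Pol N)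
    (phi : ℝ → ℝ) (hphi : ContinuousAt phi 0)
    (hPQ : ∀ t, |t| < δ → eval (c t) Q * phi t = eval (c t) P) (b : ℕ)
    (hlow : ∀ k, k < b → eval (c 0) ((vf V)^[k] Q) = 0) :
    eval (c 0) ((vf V)^[b] P) = phi 0 * eval (c 0) ((vf V)^[b] Q) := by
  have h1 : Filter.Tendsto (fun t => eval (c t) Q / t ^ b) (nhdsWithin 0 {0}ᶜ)
      (nhds (eval (c 0) ((vf V)^[b] Q) / b.factorial)) :=
    taylor_lim (fun k t => eval (c t) ((vf V)^[k] Q)) δ hδ
      (fun k t ht => tay_der V c δ hc Q k t ht) b hlow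
  have h2 : Filter.Tendsto phi (nhdsWithin 0 {0}ᶜ) (nhds (phi 0)) :=
    hphi.tendsto.mono_left nhdsWithin_le_nhds
  have h3 : Filter.Tendsto (fun t => eval (c t) P / t ^ b) (nhdsWithin 0 {0}ᶜ)
      (nhds (phi 0 * (eval (c 0) ((vf V)^[b] Q) / b.factorial))) := by
    refine (h2.mul h1).congr' (tay_small hδ fun t ht => ?_)
    show phi t * (eval (c t) Q / t ^ b) = eval (c t) P / t ^ b
    rw [← hPQ t ht]
    ring
  have hlim : ∀ k, (∀ j, j < k → eval (c 0) ((vf V)^[j] P) = 0) →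
      Filter.Tendsto (fun t => eval (c t) P / t ^ k) (nhdsWithin 0 {0}ᶜ)
      (nhds (eval (c 0) ((vf V)^[k] P) / k.factorial)) := fun k hk =>
    taylor_lim (fun k t => eval (c t) ((vf V)^[k] P)) δ hδ
      (fun k t ht => tay_der V c δ hc P k t ht) k hk
  have hlow2 : ∀ k, k < b → eval (c 0) ((vf V)^[k] P) = 0 := by
    intro k
    induction k using Nat.strong_induction_on with
    | _ k ih =>
      intro hk
      have h4 := hlim k fun j hj => ih j hj (lt_trans hj hk)
      have h5 : Filter.Tendsto (fun t : ℝ => t ^ (b - k)) (nhdsWithin 0 {0}ᶜ) (nhds 0) := by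
        have h6 : ContinuousAt (fun t : ℝ => t ^ (b - k)) 0 := by fun_prop
        have h7 := h6.tendsto.mono_left (nhdsWithin_le_nhds (s := ({0}ᶜ : Set ℝ)))
        have h8 : (0 : ℝ) ^ (b - k) = 0 := zero_pow (Nat.sub_ne_zero_of_lt hk)
        rwa [h8] at h7
      have h6 := h5.mul h3
      rw [zero_mul] at h6
      have h7 : Filter.Tendsto (fun t => eval (c t) P / t ^ k) (nhdsWithin 0 {0}ᶜ) (nhds 0) := by
        refine h6.congr' ?_
        filter_upwards [self_mem_nhdsWithin] with t ht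
        have ht0 : t ≠ 0 := ht
        have h8 : t ^ b = t ^ (b - k) * t ^ k := by
          rw [← pow_add, Nat.sub_add_cancel hk.le]
        rw [h8]
        field_simp
      have h8 := tendsto_nhds_unique h4 h7
      rcases div_eq_zero_iff.1 h8 with h9 | h9
      · exact h9
      · exact absurd h9 (by exact_mod_cast Nat.factorial_ne_zero k)
  have h4 := tendsto_nhds_unique (hlim b hlow2) h3
  have h5 : ((b.factorial : ℕ) : ℝ) ≠ 0 := by exact_mod_cast Nat.factorial_ne_zero b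
  rw [← mul_div_assoc] at h4
  exact (div_left_inj' h5).1 h4

end H71.RN
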