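import Pool.Agent.H71.RN.Dense
import Pool.Agent.H71.RN.Flat
import Pool.Agent.H71.RN.Leq
import Pool.Agent.H71.RN.Tay

/-!
# [H71 RN HRP] continuous rational functions are hereditarily rational, 70-110 lines

Choose `x ∈ W` (`vI W ≠ ⊤`). Local equations `h` of `X` at `x`, chart `T`, `T.h = h`, `dl x ≠ 0`. There are `v, k` with `(vf (T.V v))^[k] Q ≠ 0` at `x`: otherwise `flat` gives `U` with `Q = 0` on `Z(h) ∩ U ⊇ X ∩ U`, against `dense_ne`. Put `V = T.V v`, `b` the least `k` with `(vf V)^[k] Q ∉ vI W` (`Nat.find`),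
`Q' = T.dl * (vf V)^[b] Q` (`∉ vI W`: prime, `dl x ≠ 0`, `x ∈ W`), `P' = T.dl * (vf V)^[b] P`. Let `z ∈ W`. If `dl z = 0` both sides are `0`. Otherwise let `c` be the flow of `V` from `z` (`flow`). `h i (c t) = 0` for `|t| < δ` (its derivative is `eval (c t) (vf V (h i)) = 0` by `chart_h`, and `h i z = 0`). By `loc_eq` and continuity of `c`,
`c t ∈ X` for `|t| < δ'`. Apply `taylor_step` with `phi t = phi (c t)` (continuous at `0`: `phi` is continuous on `X`, `c t ∈ X` near `0`; if necessary restrict `δ'`), `hlow` from the minimality of `b` (`z ∈ W`).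
-/

set_option autoImplicit false

namespace H71.RN

open MvPolynomial

variable {N : ℕ}

theorem hr_prime {X : Set (Pt N)} {n : ℕ} (hXa : IsAlgebraic X) (hX : IsNonsingular n X)
    (phi : Pt N → ℝ) (hphi : ContinuousOn phi X) (P Q : Pol N)
    (hPQ : ∀ z ∈ X, eval z Q * phi z = eval z P)
    (hQ : ∀ g : Pol N, (∀ z ∈ X, eval z Q ≠ 0 → eval z g = 0) → g ∈ vI X)
    {W : Set (Pt N)} (hWX : W ⊆ X) (hWp : (vI W).IsPrime) :
    ∃ Q' P' : Pol N, Q' ∉ vI W ∧ ∀ z ∈ W, eval z Q' * phi z = eval z P' := by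
  classical
  have h1 : (1 : Pol N) ∉ vI W := fun h => hWp.ne_top ((Ideal.eq_top_iff_one _).mpr h)
  obtain ⟨x, hxW, -⟩ := not_mem_vI.mp h1
  have hxX := hWX hxW
  obtain ⟨c0, h, hcn, hh, hind, -⟩ := hX x hxX
  obtain ⟨T, rfl, hdl⟩ := exists_chart h hcn x hind
  have hTX : ∀ i, T.h i ∈ vI X := fun i z hz => hh i z hz
  obtain ⟨v, k0, hk0⟩ : ∃ (v : Fin n → ℝ) (k : ℕ), eval x ((vf (T.V v))^[k] Q) ≠ 0 := by
    by_contra hcon
    push Not at hcon
    obtain ⟨U, hU, hUz⟩ := flat T x hdl (fun i => hh i x hxX) Q hcon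
    obtain ⟨z, hz, hzU, hzQ⟩ := dense_ne hXa hX Q hQ x hxX U hU
    exact hzQ (hUz z hzU (fun i => hh i z hz))
  have hex : ∃ k, (vf (T.V v))^[k] Q ∉ vI W := ⟨k0, fun hm => hk0 (hm x hxW)⟩
  set b := Nat.find hex with hb
  have hbs : (vf (T.V v))^[b] Q ∉ vI W := Nat.find_spec hex
  have hbm : ∀ k, k < b → (vf (T.V v))^[k] Q ∈ vI W := fun k hk => by
    by_contra hcon
    exact Nat.find_min hex hk hcon
  refine ⟨T.dl * (vf (T.V v))^[b] Q, T.dl * (vf (T.V v))^[b] P, ?_, ?_⟩
  · intro hm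
    rcases hWp.mem_or_mem hm with h | h
    · exact hdl (h x hxW)
    · exact hbs h
  · intro z hzW
    have hzX := hWX hzW
    rw [map_mul, map_mul]
    by_cases hd : eval z T.dl = 0
    · rw [hd, zero_mul, zero_mul, zero_mul]
    obtain ⟨c, δ, hδ, hc0, hc⟩ := flow (T.V v) z
    have hhc : ∀ t, |t| < δ → ∀ i, eval (c t) (T.h i) = 0 := by
      intro t ht i
      have hs : IsOpen (Metric.ball (0 : ℝ) δ) := Metric.isOpen_ball
      have hs' : IsPreconnected (Metric.ball (0 : ℝ) δ) := (convex_ball 0 δ).isPreconnected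
      have hmem : ∀ s ∈ Metric.ball (0 : ℝ) δ, |s| < δ := by
        intro s hs
        rwa [Metric.mem_ball, dist_zero_right, Real.norm_eq_abs] at hs
      have hder : ∀ s ∈ Metric.ball (0 : ℝ) δ, HasDerivAt (fun s => eval (c s) (T.h i)) 0 s := by
        intro s hs
        have := flow_eval (T.V v) c s (hc s (hmem s hs)) (T.h i)
        rwa [chart_h, map_zero] at this
      have h2 := hs.is_const_of_deriv_eq_zero hs'
        (fun s hs => (hder s hs).differentiableAt.differentiableWithinAt)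
        (fun s hs => (hder s hs).deriv) (x := t) (y := 0)
        (by rwa [Metric.mem_ball, dist_zero_right, Real.norm_eq_abs])
        (Metric.mem_ball_self hδ)
      rw [h2, hc0]
      exact hh i z hzX
    obtain ⟨U, hU, hUX⟩ := loc_eq hX T hTX z hzX hd
    have hcc : ContinuousAt c 0 := (hc 0 (by rwa [abs_zero])).continuousAt
    have hU' : ∀ᶠ t in nhds (0 : ℝ), c t ∈ U := hcc (by rw [hc0]; exact hU)
    obtain ⟨δ1, hδ1, hδU⟩ := Metric.eventually_nhds_iff.mp hU'
    have hX' : ∀ t, |t| < min δ δ1 → c t ∈ X := by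
      intro t ht
      refine hUX _ (hδU ?_) (hhc t (ht.trans_le (min_le_left _ _)))
      rw [dist_zero_right, Real.norm_eq_abs]
      exact ht.trans_le (min_le_right _ _)
    have hδ' : 0 < min δ δ1 := lt_min hδ hδ1
    have hphi' : ContinuousAt (fun t => phi (c t)) 0 := by
      have h3 : Filter.Tendsto c (nhds 0) (nhdsWithin z X) := by
        rw [tendsto_nhdsWithin_iff]
        refine ⟨by rw [← hc0]; exact hcc, ?_⟩
        rw [Metric.eventually_nhds_iff]
        refine ⟨min δ δ1, hδ', fun t ht => hX' t ?_⟩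
        rwa [dist_zero_right, Real.norm_eq_abs] at ht
      have h4 := (hphi z hzX).tendsto.comp h3
      show Filter.Tendsto (fun t => phi (c t)) (nhds 0) (nhds (phi (c 0)))
      rw [hc0]
      exact h4
    have h5 := taylor_step (T.V v) c (min δ δ1) hδ'
      (fun t ht => hc t (ht.trans_le (min_le_left _ _))) P Q (fun t => phi (c t)) hphi'
      (fun t ht => hPQ _ (hX' t ht)) b (fun k hk => by
        rw [hc0]
        exact hbm k hk z hzW)
    simp only [hc0] at h5
    rw [h5]
    ring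

end H71.RN
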