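import Pool.Agent.H71.RN.Chart
import Pool.Agent.H71.RN.Flow

/-!
# [H71 RN LINV] the analytic local inverse of a chart map, 70-120 lines

`T.map` is analytic (`contDiff_eval` with `r = ω`, `contDiff_pi`), with strict derivative `L` at `x` (`chart_map_deriv`); `L` is injective (its matrix `(T.M).map (eval x)` has determinant `eval x T.dl ≠ 0`), so a continuous linear equivalence `L'`. Use `ContDiffAt.toOpenPartialHomeomorph` (or `HasStrictFDerivAt.toOpenPartialHomeomorph`): `E` with `x ∈ E.source`, `E = T.map` on the source.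
`Psi = E.symm`. `eval · T.dl ≠ 0` and membership in the interior of `O` hold near `x`; let `U₀` be an open set containing `x` in `E.source ∩ interior O ∩ {dl ≠ 0}`; `T.map '' U₀ = E '' U₀` is open, contains a ball of radius `ρ` around `T.map x`; `U = U₀ ∩ T.map ⁻¹' (ball)`. `Psi` is analytic at every point `w` of the ball: `OpenPartialHomeomorph.contDiffAt_symm` at `w`
(the derivative of `T.map` at `Psi w ∈ U₀` is invertible as `dl ≠ 0` there), with `r = ω` (`ContDiffAt ℝ ω` is analyticity, `contDiffAt_omega_iff_analyticAt`).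
-/

set_option autoImplicit false

namespace H71.RN

open MvPolynomial

variable {N c n : ℕ}

/-- the derivative of a chart map is invertible where the Jacobian determinant does not vanish -/
theorem linv_equiv (T : Chart N c n) (z : Pt N) (hz : eval z T.dl ≠ 0) :
    ∃ L' : Pt N ≃L[ℝ] Pt N, HasStrictFDerivAt T.map (L' : Pt N →L[ℝ] Pt N) z := by
  obtain ⟨L, hL, hd⟩ := chart_map_deriv T z
  have hdet : ((T.M).map (eval z)).det ≠ 0 := by
    have h1 : eval z T.dl = ((T.M).map (eval z)).det := by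
      unfold Chart.dl
      rw [RingHom.map_det, RingHom.mapMatrix_apply]
    rwa [← h1]
  have hinj : Function.Injective L.toLinearMap := by
    rw [injective_iff_map_eq_zero]
    intro v hv
    have h1 : ((T.M).map (eval z)).mulVec v = 0 := by
      funext r
      have h2 : L v r = 0 := congrFun hv r
      rw [hL v r] at h2
      simpa [Matrix.mulVec, dotProduct] using h2
    exact Matrix.eq_zero_of_mulVec_eq_zero hdet h1
  have heq : (((LinearEquiv.ofInjectiveEndo L.toLinearMap hinj).toContinuousLinearEquiv :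
      Pt N ≃L[ℝ] Pt N) : Pt N →L[ℝ] Pt N) = L := by
    ext v
    rfl
  exact ⟨(LinearEquiv.ofInjectiveEndo L.toLinearMap hinj).toContinuousLinearEquiv, by
    rw [heq]
    exact hd⟩

theorem linv_contDiff (T : Chart N c n) (r : WithTop ℕ∞) : ContDiff ℝ r T.map :=
  contDiff_pi.2 fun k => contDiff_eval (T.Phi k) r

theorem chart_inv (T : Chart N c n) (x : Pt N) (hx : eval x T.dl ≠ 0) (O : Set (Pt N))
    (hO : O ∈ nhds x) :
    ∃ (ρ : ℝ) (Psi : Pt N → Pt N) (U : Set (Pt N)), 0 < ρ ∧ IsOpen U ∧ x ∈ U ∧ U ⊆ O ∧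
      AnalyticOnNhd ℝ Psi (Metric.ball (T.map x) ρ) ∧
      (∀ w ∈ Metric.ball (T.map x) ρ, Psi w ∈ U ∧ T.map (Psi w) = w) ∧
      (∀ z ∈ U, T.map z ∈ Metric.ball (T.map x) ρ ∧ Psi (T.map z) = z) ∧
      ∀ z ∈ U, eval z T.dl ≠ 0 := by
  obtain ⟨L', hL'⟩ := linv_equiv T x hx
  obtain ⟨E, hE⟩ : ∃ E : OpenPartialHomeomorph (Pt N) (Pt N),
      E = hL'.toOpenPartialHomeomorph T.map := ⟨_, rfl⟩
  have hEc : ∀ z, E z = T.map z := by
    intro z
    rw [hE, hL'.toOpenPartialHomeomorph_coe]
  have hxE : x ∈ E.source := by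
    rw [hE]
    exact hL'.mem_toOpenPartialHomeomorph_source
  obtain ⟨V0, hV0⟩ : ∃ V0 : Set (Pt N),
      V0 = (E.source ∩ interior O) ∩ {z | eval z T.dl ≠ 0} := ⟨_, rfl⟩
  have hV0open : IsOpen V0 := by
    rw [hV0]
    refine (E.open_source.inter isOpen_interior).inter ?_
    exact isOpen_ne_fun (contDiff_eval T.dl 0).continuous continuous_const
  have hxV0 : x ∈ V0 := by
    rw [hV0]
    exact ⟨⟨hxE, mem_interior_iff_mem_nhds.2 hO⟩, hx⟩
  have hV0s : V0 ⊆ E.source := by
    rw [hV0]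
    exact fun z hz => hz.1.1
  have hV0O : V0 ⊆ O := by
    rw [hV0]
    exact fun z hz => interior_subset hz.1.2
  have hV0d : ∀ z ∈ V0, eval z T.dl ≠ 0 := by
    rw [hV0]
    exact fun z hz => hz.2
  have himg : IsOpen (E '' V0) := E.isOpen_image_of_subset_source hV0open hV0s
  have hximg : T.map x ∈ E '' V0 := ⟨x, hxV0, hEc x⟩
  obtain ⟨ρ, hρ, hball⟩ := Metric.isOpen_iff.1 himg _ hximg
  have hcont : Continuous T.map := (linv_contDiff T 0).continuous
  have hback : ∀ w ∈ Metric.ball (T.map x) ρ, E.symm w ∈ V0 ∧ T.map (E.symm w) = w := by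
    intro w hw
    obtain ⟨z, hz, hzw⟩ := hball hw
    have h1 : E.symm w = z := by
      rw [← hzw]
      exact E.left_inv (hV0s hz)
    rw [h1]
    exact ⟨hz, by rw [← hEc z, hzw]⟩
  refine ⟨ρ, E.symm, V0 ∩ T.map ⁻¹' Metric.ball (T.map x) ρ, hρ,
    hV0open.inter (Metric.isOpen_ball.preimage hcont), ⟨hxV0, Metric.mem_ball_self hρ⟩,
    fun z hz => hV0O hz.1, ?_, ?_, ?_, fun z hz => hV0d z hz.1⟩
  · intro w hw
    obtain ⟨h1, h2⟩ := hback w hw
    obtain ⟨L1, hL1⟩ := linv_equiv T (E.symm w) (hV0d _ h1)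
    have hwt : w ∈ E.target := by
      have h3 := E.map_source (hV0s h1)
      rwa [hEc, h2] at h3
    have hfun : (E : Pt N → Pt N) = T.map := funext hEc
    have h4 : ContDiffAt ℝ (⊤ : WithTop ℕ∞) E.symm w := by
      refine E.contDiffAt_symm (f₀' := L1) hwt ?_ ?_
      · rw [hfun]
        exact hL1.hasFDerivAt
      · rw [hfun]
        exact (linv_contDiff T _).contDiffAt
    exact h4.analyticAt
  · intro w hw
    obtain ⟨h1, h2⟩ := hback w hw
    refine ⟨⟨h1, ?_⟩, h2⟩
    rw [Set.mem_preimage, h2]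
    exact hw
  · intro z hz
    refine ⟨hz.2, ?_⟩
    rw [← hEc z]
    exact E.left_inv (hV0s hz.1)

end H71.RN
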