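import Pool.Agent.H71.RN.Flow

/-!
# [H71 RN STAY] the flow of a vector field preserving the ideal stays in the algebraic set, 80-130 lines

`vI W` is generated by finitely many `g_1, ..., g_s` (Noetherian); `vf V g_k = ∑ A_kl g_l` (`Submodule.mem_span_finset` or similar). For fixed `T`, `0 ≤ T < δ`, the curve `y t = (eval (c t) g_k)_k ∈ Fin s → ℝ` has `y' = A (c t) y` on `[0, T]`,
with `‖y'‖ ≤ K ‖y‖` (`A_kl (c t)` is bounded on the compact `[0, T]`: `c` is continuous there), `y 0 = 0`; so `y = 0` by Gronwall (`norm_le_gronwallBound_of_norm_deriv_right_le` with `δ = 0`, `ε = 0`, `gronwallBound_x0` ... or `eq_zero_of_abs_deriv_le_mul_abs_self_of_eq_zero_right` type lemmas).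
Then every element of `vI W` vanishes at `c T`, and `c T ∈ zcl W = W`.
-/

set_option autoImplicit false

namespace H71.RN

open MvPolynomial

variable {N : ℕ}

theorem stay {W : Set (Pt N)} (hW : IsAlgebraic W) (V : Fin N → Pol N)
    (hV : ∀ g ∈ vI W, vf V g ∈ vI W) (c : ℝ → Pt N) (δ : ℝ)
    (hc : ∀ t, |t| < δ → HasDerivAt c (fun k => eval (c t) (V k)) t) (h0 : c 0 ∈ W) :
    ∀ t, 0 ≤ t → t < δ → c t ∈ W := by
  intro T hT0 hTδ
  obtain ⟨S, hS⟩ := (inferInstance : IsNoetherianRing (Pol N)).noetherian (vI W)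
  have hin : ∀ g ∈ S, g ∈ vI W := fun g hg => hS ▸ Ideal.subset_span hg
  have hA : ∀ g : S, ∃ A : S → Pol N, ∑ l, A l • (l : Pol N) = vf V g := by
    intro g
    have h1 : vf V g ∈ Submodule.span (Pol N) (S : Set (Pol N)) := by
      have h2 := hV g (hin g g.2)
      rw [← hS] at h2
      exact h2
    exact Submodule.mem_span_finset'.1 h1
  choose A hA using hA
  have habs : ∀ t ∈ Set.Icc (0:ℝ) T, |t| < δ := by
    intro t ht
    rw [abs_of_nonneg ht.1]
    exact ht.2.trans_lt hTδ
  have hcc : ContinuousOn c (Set.Icc 0 T) := fun t ht =>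
    (hc t (habs t ht)).continuousAt.continuousWithinAt
  have hF : ContinuousOn (fun t => ∑ g : S, ∑ l : S, |eval (c t) (A g l)|) (Set.Icc 0 T) := by
    apply continuousOn_finset_sum
    intro g _
    apply continuousOn_finset_sum
    intro l _
    exact ((contDiff_eval (A g l) 0).continuous.comp_continuousOn hcc).abs
  obtain ⟨K, hK⟩ := isCompact_Icc.exists_bound_of_continuousOn hF
  have hy : ∀ t ∈ Set.Icc (0:ℝ) T, HasDerivAt (fun s => fun g : S => eval (c s) (g : Pol N))
      (fun g : S => ∑ l : S, eval (c t) (A g l) * eval (c t) (l : Pol N)) t := by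
    intro t ht
    rw [hasDerivAt_pi]
    intro g
    have h1 := flow_eval V c t (hc t (habs t ht)) g
    rw [← hA g, map_sum] at h1
    simp only [smul_eq_mul, map_mul] at h1
    exact h1
  have hzero := eq_zero_of_abs_deriv_le_mul_abs_self_of_eq_zero_right
    (f := fun s => fun g : S => eval (c s) (g : Pol N))
    (f' := fun t => fun g : S => ∑ l : S, eval (c t) (A g l) * eval (c t) (l : Pol N))
    (K := K) (a := 0) (b := T)
    (fun t ht => (hy t ht).continuousAt.continuousWithinAt)
    (fun t ht => (hy t ⟨ht.1, ht.2.le⟩).hasDerivWithinAt)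
    (by
      funext g
      exact hin g g.2 (c 0) h0)
    (by
      intro t ht
      have hK' := hK t ⟨ht.1, ht.2.le⟩
      have hK0 : 0 ≤ K := (norm_nonneg _).trans hK'
      rw [Real.norm_eq_abs] at hK'
      have hK2 := (le_abs_self _).trans hK'
      rw [pi_norm_le_iff_of_nonneg (mul_nonneg hK0 (norm_nonneg _))]
      intro g
      rw [Real.norm_eq_abs]
      calc |∑ l : S, eval (c t) (A g l) * eval (c t) (l : Pol N)|
          ≤ ∑ l : S, |eval (c t) (A g l) * eval (c t) (l : Pol N)| := Finset.abs_sum_le_sum_abs _ _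
        _ ≤ ∑ l : S, |eval (c t) (A g l)| * ‖fun g : S => eval (c t) (g : Pol N)‖ := by
            apply Finset.sum_le_sum
            intro l _
            rw [abs_mul]
            apply mul_le_mul_of_nonneg_left _ (abs_nonneg _)
            exact norm_le_pi_norm (fun g : S => eval (c t) (g : Pol N)) l
        _ = (∑ l : S, |eval (c t) (A g l)|) * ‖fun g : S => eval (c t) (g : Pol N)‖ := by
            rw [Finset.sum_mul]
        _ ≤ K * ‖fun g : S => eval (c t) (g : Pol N)‖ := by
            apply mul_le_mul_of_nonneg_right _ (norm_nonneg _)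
            refine le_trans ?_ hK2
            exact Finset.single_le_sum (f := fun g : S => ∑ l : S, |eval (c t) (A g l)|)
              (fun g _ => Finset.sum_nonneg fun l _ => abs_nonneg _) (Finset.mem_univ g))
    T ⟨hT0, le_rfl⟩
  rw [← zcl_eq hW]
  intro h hh
  have h1 : vI W ≤ RingHom.ker (eval (c T) : Pol N →+* ℝ) := by
    rw [← hS, Submodule.span_le]
    intro g hg
    show eval (c T) g = 0
    exact congrFun hzero ⟨g, hg⟩
  exact h1 hh

end H71.RN
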