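import Pool.Agent.H71.RN.Derp
import Pool.Agent.H71.RN.Stay

/-!
# [H71 RN MXP] maximal points are not generic, 90-140 lines

`exists_vf` with `d = 2`, `a = ![P, G]`, `b = ![Q, 1]` (its hypothesis is `hind`, since `phi x = P x / Q x` if `Q x ≠ 0`). It gives `h ∉ vI W`, `V 0`, `V 1` preserving `vI W`, and on `W`: `Q * V0 P - P * V0 Q = h * Q^2`, `Q * V1 P - P * V1 Q = 0`, `V0 G = 0`, `V1 G = h` (write `Vi g` for `vf (V i) g`; `vf V 1 = 0`).
`W' = {x ∈ W, (Q * h) x = 0}`: algebraic, `≠ W` since `Q * h ∉ vI W` (prime). Let `x ∈ W`, `Q x ≠ 0`, `h x ≠ 0` and suppose `IsMx X phi G x`. Let `s = 1` or `-1` be the sign of `phi x`, `V k = C s * h * V 0 k - h * V 1 k`; so `vf V g = C s * h * V0 g - h * V1 g` (`vf_apply`) preserves `vI W`. Let `c` be the flow of `V` from `x` (`flow`), `c t ∈ W` for `0 ≤ t < δ` (`stay`).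
At `t = 0` (`flow_eval`): `(G ∘ c)' 0 = - h(x)^2 < 0`, and `u t = eval (c t) P / eval (c t) Q` has `u' 0 = s * h(x)^2`, so `(s * u)' 0 = h(x)^2 > 0`. So for small `t > 0`: `G (c t) < G x`, `s * u t > s * u 0 = |phi x|`, `Q (c t) ≠ 0`, and `phi (c t) = u t` as `c t ∈ W`: `|phi (c t)| > |phi x|` although `c t ∈ X`, `G (c t) ≤ G x`. Contradiction.
(For the strict monotonicity at `0` use `HasDerivAt.tendsto_slope` or `hasDerivAt_iff_isLittleO`, e.g. `HasDerivAt.eventually...`/`eventually_nhdsWithin` of the slope being positive.)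
-/

set_option autoImplicit false

namespace H71.RN

open MvPolynomial

variable {N : ℕ}

private theorem mxp_ev (f : ℝ → ℝ) (f' : ℝ) (h : HasDerivAt f f' 0) (hf : 0 < f') :
    ∀ᶠ t in nhdsWithin (0 : ℝ) (Set.Ioi 0), f 0 < f t := by
  have h1 := hasDerivAt_iff_tendsto_slope_zero.1 h
  have h2 : Filter.Tendsto (fun t : ℝ => t⁻¹ • (f (0 + t) - f 0)) (nhdsWithin 0 (Set.Ioi 0))
      (nhds f') := h1.mono_left (nhdsWithin_mono _ fun t ht => (ne_of_gt ht))
  filter_upwards [h2.eventually (lt_mem_nhds hf), self_mem_nhdsWithin] with t ht ht0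
  rw [zero_add, smul_eq_mul] at ht
  have ht0' : (0 : ℝ) < t := ht0
  have h3 : 0 < t * (t⁻¹ * (f t - f 0)) := mul_pos ht0' ht
  rw [← mul_assoc, mul_inv_cancel₀ ht0'.ne', one_mul] at h3
  linarith

theorem maxp {X W : Set (Pt N)} (hWX : W ⊆ X) (hWa : IsAlgebraic W) (hWp : (vI W).IsPrime)
    (phi : Pt N → ℝ) (G P Q : Pol N) (hQ : Q ∉ vI W)
    (hPQ : ∀ z ∈ W, eval z Q * phi z = eval z P)
    (hind : ∀ H : MvPolynomial (Fin 2) ℝ, H ≠ 0 →
      ∃ x ∈ W, eval x Q ≠ 0 ∧ eval ![phi x, eval x G] H ≠ 0) :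
    ∃ W' : Set (Pt N), IsAlgebraic W' ∧ W' ⊆ W ∧ W' ≠ W ∧ ∀ x ∈ W, IsMx X phi G x → x ∈ W' := by
  classical
  have h1W : (1 : Pol N) ∉ vI W := fun h => hWp.ne_top ((Ideal.eq_top_iff_one _).2 h)
  obtain ⟨h, V, hh, hV, hVij⟩ := exists_vf hWp ![P, G] ![Q, 1] (by
    intro i
    fin_cases i
    · exact hQ
    · exact h1W) (by
    intro H hH
    obtain ⟨x, hx, hQx, hxH⟩ := hind H hH
    refine ⟨x, hx, ?_, ?_⟩
    · intro i
      fin_cases i
      · exact hQx
      · show eval x (1 : Pol N) ≠ 0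
        rw [map_one]
        exact one_ne_zero
    · have e1 : (fun i => eval x ((![P, G] : Fin 2 → Pol N) i) /
          eval x ((![Q, 1] : Fin 2 → Pol N) i)) = ![phi x, eval x G] := by
        funext i
        fin_cases i
        · show eval x P / eval x Q = phi x
          rw [div_eq_iff hQx, ← hPQ x hx, mul_comm]
        · show eval x G / eval x (1 : Pol N) = eval x G
          rw [map_one, div_one]
      rw [e1]
      exact hxH)
  refine ⟨{x | x ∈ W ∧ eval x (Q * h) = 0}, isAlgebraic_zero hWa _, fun x hx => hx.1, ?_, ?_⟩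
  · intro hEq
    have h1 : Q * h ∈ vI W := by
      intro x hx
      rw [← hEq] at hx
      exact hx.2
    rcases hWp.mem_or_mem h1 with h2 | h2
    · exact hQ h2
    · exact hh h2
  intro x hxW hmx
  refine ⟨hxW, ?_⟩
  by_contra hne
  rw [map_mul] at hne
  have hQx : eval x Q ≠ 0 := left_ne_zero_of_mul hne
  have hhx : eval x h ≠ 0 := right_ne_zero_of_mul hne
  obtain ⟨hxX, hphi, hmax⟩ := hmx
  -- values at `x`
  have a00 : eval x Q * eval x (vf (V 0) P) - eval x P * eval x (vf (V 0) Q) =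
      eval x h * eval x Q ^ 2 := by
    have e := hVij 0 0 x hxW
    simp only [Matrix.cons_val_zero, if_true, map_sub, map_mul, map_pow] at e
    linarith
  have a10 : eval x Q * eval x (vf (V 1) P) - eval x P * eval x (vf (V 1) Q) = 0 := by
    have e := hVij 1 0 x hxW
    simp only [Matrix.cons_val_zero, map_sub, map_mul] at e
    rw [if_neg (by decide), map_zero, sub_zero] at e
    exact e
  have a01 : eval x (vf (V 0) G) = 0 := by
    have e0 := hVij 0 1
    rw [if_neg (by decide)] at e0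
    have e : (1 : Pol N) * vf (V 0) G - G * vf (V 0) 1 - 0 ∈ vI W := e0
    have e1 := e x hxW
    rw [Derivation.map_one_eq_zero, mul_zero, sub_zero, sub_zero, one_mul] at e1
    exact e1
  have a11 : eval x (vf (V 1) G) = eval x h := by
    have e0 := hVij 1 1
    rw [if_pos rfl] at e0
    have e : (1 : Pol N) * vf (V 1) G - G * vf (V 1) 1 - h * 1 ^ 2 ∈ vI W := e0
    have e1 := e x hxW
    rw [Derivation.map_one_eq_zero, mul_zero, sub_zero, one_mul, one_pow, mul_one, map_sub] at e1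
    linarith
  obtain ⟨s, hs1, hs2⟩ : ∃ s : ℝ, s * s = 1 ∧ s * phi x = |phi x| := by
    rcases le_or_gt 0 (phi x) with h0 | h0
    · exact ⟨1, by norm_num, by rw [one_mul, abs_of_nonneg h0]⟩
    · exact ⟨-1, by norm_num, by rw [abs_of_neg h0]; ring⟩
  set Vn : Fin N → Pol N := fun k => C s * h * V 0 k - h * V 1 k with hVn
  have hvf : ∀ g, vf Vn g = C s * h * vf (V 0) g - h * vf (V 1) g := by
    intro g
    rw [vf_apply, vf_apply, vf_apply, Finset.mul_sum, Finset.mul_sum, ← Finset.sum_sub_distrib]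
    refine Finset.sum_congr rfl fun k _ => ?_
    simp only [hVn]
    ring
  have hVnI : ∀ g ∈ vI W, vf Vn g ∈ vI W := by
    intro g hg
    rw [hvf]
    exact (vI W).sub_mem ((vI W).mul_mem_left _ (hV 0 g hg)) ((vI W).mul_mem_left _ (hV 1 g hg))
  obtain ⟨c, δ, hδ, hc0, hc⟩ := flow Vn x
  have hstay := stay hWa Vn hVnI c δ hc (by rw [hc0]; exact hxW)
  have hc' := hc 0 (by rw [abs_zero]; exact hδ)
  have dG := flow_eval Vn c 0 hc' G
  have dP := flow_eval Vn c 0 hc' P
  have dQ := flow_eval Vn c 0 hc' Q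
  rw [hc0, hvf, map_sub, map_mul, map_mul, map_mul, eval_C] at dG dP dQ
  rw [a01, a11] at dG
  have dG' : HasDerivAt (fun t => -eval (c t) G) (eval x h ^ 2) 0 := by
    have e : HasDerivAt (fun t => -eval (c t) G) _ 0 := dG.neg
    exact e.congr_deriv (by ring)
  have hQ0 : eval (c 0) Q ≠ 0 := by
    rw [hc0]
    exact hQx
  have dU : HasDerivAt (fun t => s * (eval (c t) P / eval (c t) Q)) (eval x h ^ 2) 0 := by
    have e : HasDerivAt (fun t => s * (eval (c t) P / eval (c t) Q)) _ 0 :=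
      (dP.div dQ hQ0).const_mul s
    rw [hc0] at e
    refine e.congr_deriv ?_
    have e2 : (s * eval x h * eval x (vf (V 0) P) - eval x h * eval x (vf (V 1) P)) * eval x Q -
        eval x P * (s * eval x h * eval x (vf (V 0) Q) - eval x h * eval x (vf (V 1) Q)) =
        s * eval x h ^ 2 * eval x Q ^ 2 := by
      linear_combination (s * eval x h) * a00 - eval x h * a10
    rw [e2, mul_div_assoc, div_self (pow_ne_zero 2 hQx), mul_one, ← mul_assoc, hs1, one_mul]
  have hpos : 0 < eval x h ^ 2 := by positivity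
  have e1 := mxp_ev _ _ dG' hpos
  have e2 := mxp_ev _ _ dU hpos
  have e3 : ∀ᶠ t in nhdsWithin (0 : ℝ) (Set.Ioi 0), t < δ :=
    nhdsWithin_le_nhds (Iio_mem_nhds hδ)
  have e4 : ∀ᶠ t in nhdsWithin (0 : ℝ) (Set.Ioi 0), eval (c t) Q ≠ 0 :=
    nhdsWithin_le_nhds (dQ.continuousAt.eventually_ne hQ0)
  have e5 : ∀ᶠ t in nhdsWithin (0 : ℝ) (Set.Ioi 0), (0 : ℝ) < t := self_mem_nhdsWithin
  obtain ⟨t, t1, t2, t3, t4, t5⟩ := (e1.and (e2.and (e3.and (e4.and e5)))).exists
  have hW' : c t ∈ W := hstay t t5.le t3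
  have hphi' : phi (c t) = eval (c t) P / eval (c t) Q := by
    rw [eq_div_iff t4, ← hPQ _ hW', mul_comm]
  have hphi0 : phi x = eval x P / eval x Q := by
    rw [eq_div_iff hQx, ← hPQ _ hxW, mul_comm]
  have hle := hmax (c t) (hWX hW') (by
    rw [hc0] at t1
    linarith)
  rw [← hphi', hc0, ← hphi0, hs2] at t2
  have habs : s * phi (c t) ≤ |phi (c t)| := by
    have hsabs : |s| = 1 := by
      have h3 : |s| * |s| = 1 := by rw [← abs_mul, hs1, abs_one]
      nlinarith [abs_nonneg s]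
    calc s * phi (c t) ≤ |s * phi (c t)| := le_abs_self _
      _ = |phi (c t)| := by rw [abs_mul, hsabs, one_mul]
  linarith

end H71.RN
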