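import Pool.Agent.H71.RN.Dim
import Pool.Agent.H71.RN.Derp

/-!
# [H71 RN NS] a nonsingular set of dimension n has algebraic dimension <= n, 70-110 lines

* `ns_dim`: otherwise there is `g : Fin (n+1) → Pol N` with: for every `H ≠ 0` there is `x ∈ W` with `H (g x) ≠ 0`. `exists_vf` (`a = g`, `b = 1`) gives `h`, `V`; choose `x ∈ W` with `h x ≠ 0` (`not_mem_vI`). Let `hh` be the local equations of `X` at `x` (`c + n = N`). The vectors `ξ i = (eval x (V i k))_k`, `i : Fin (n+1)`, satisfy
  `∑_k eval x (pderiv k (g j)) * ξ i k = eval x (vf (V i) (g j)) = if i = j then h x else 0` (`vf_apply`), so they are linearly independent; and `∑_k eval x (pderiv k (hh r)) * ξ i k = eval x (vf (V i) (hh r)) = 0`, since `hh r ∈ vI X ≤ vI W`. So they lie in the orthogonal complement (for the dot product) of `c` linearly independent vectors, which has dimension `N - c = n`: contradiction.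
* `ns_dim_all`: `noeth` with `Φ W = (W ⊆ X → DimLt W (n+1))`.
-/

set_option autoImplicit false

namespace H71.RN

open MvPolynomial

variable {N : ℕ}

private theorem ns_lin {N n c : ℕ} (hc : c + n = N) (G : Matrix (Fin c) (Fin N) ℝ)
    (hG : LinearIndependent ℝ (fun (i : Fin c) (k : Fin N) => G i k))
    (ξ : Fin (n + 1) → Fin N → ℝ) (hξ : LinearIndependent ℝ ξ)
    (h0 : ∀ i r, ∑ k, ξ i k * G r k = 0) : False := by
  have h1 : ∀ i, ξ i ∈ LinearMap.ker G.mulVecLin := by
    intro i
    rw [LinearMap.mem_ker, Matrix.mulVecLin_apply]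
    funext r
    rw [Matrix.mulVec, dotProduct, Pi.zero_apply, ← h0 i r]
    exact Finset.sum_congr rfl fun k _ => mul_comm _ _
  have h2 : LinearIndependent ℝ (fun i => (⟨ξ i, h1 i⟩ : LinearMap.ker G.mulVecLin)) :=
    LinearIndependent.of_comp (Submodule.subtype _) hξ
  have h3 := h2.fintype_card_le_finrank
  have h4 := LinearMap.finrank_range_add_finrank_ker G.mulVecLin
  have h5 : Module.finrank ℝ (LinearMap.range G.mulVecLin) = c := by
    have := LinearIndependent.rank_matrix (M := G) hG
    rw [Fintype.card_fin] at this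
    exact this
  rw [h5, Module.finrank_fin_fun] at h4
  rw [Fintype.card_fin] at h3
  omega

theorem ns_dim {X : Set (Pt N)} {n : ℕ} (hX : IsNonsingular n X) {W : Set (Pt N)} (hWX : W ⊆ X)
    (hp : (vI W).IsPrime) : DimLt W (n + 1) := by
  by_contra hcon
  unfold DimLt at hcon
  push Not at hcon
  obtain ⟨g, hg⟩ := hcon
  have h1 : (1 : Pol N) ∉ vI W := fun h => hp.ne_top ((Ideal.eq_top_iff_one _).2 h)
  obtain ⟨h', V', hh', hV1, hV2'⟩ := exists_vf hp g (fun _ => 1) (fun _ => h1) (fun H hH => by
    obtain ⟨x, hx, hx2⟩ := hg H hH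
    refine ⟨x, hx, fun i => ?_, ?_⟩
    · rw [map_one]
      exact one_ne_zero
    · simp only [map_one, div_one]
      exact hx2)
  obtain ⟨x, hx, hhx⟩ := not_mem_vI.1 hh'
  obtain ⟨c, e, hcn, he, hind, -⟩ := hX x (hWX hx)
  have hev : ∀ (i : Fin (n + 1)) (p : Pol N),
      eval x (vf (V' i) p) = ∑ k, eval x (V' i k) * eval x (pderiv k p) := by
    intro i p
    rw [vf_apply, map_sum]
    exact Finset.sum_congr rfl fun k _ => map_mul _ _ _
  have hdual : ∀ i j, ∑ k, eval x (V' i k) * eval x (pderiv k (g j)) =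
      if i = j then eval x h' else 0 := by
    intro i j
    have h2 := hV2' i j x hx
    rw [map_sub, map_sub, map_mul, map_mul, map_one, one_mul, Derivation.map_one_eq_zero, map_zero,
      mul_zero, sub_zero, hev] at h2
    rw [sub_eq_zero.1 h2]
    split_ifs
    · rw [map_mul, map_pow, map_one, one_pow, mul_one]
    · rw [map_zero]
  refine ns_lin hcn (fun r k => eval x (pderiv k (e r))) hind
    (fun i k => eval x (V' i k)) ?_ ?_
  · rw [Fintype.linearIndependent_iff]
    intro a ha j
    have h3 : ∑ k, (∑ i, a i • fun k => eval x (V' i k)) k * eval x (pderiv k (g j)) = 0 := by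
      rw [ha]
      simp
    have h4 : ∑ k, (∑ i, a i • fun k => eval x (V' i k)) k * eval x (pderiv k (g j)) =
        ∑ i, a i * (if i = j then eval x h' else 0) := by
      have h6 : ∀ i, a i * (if i = j then eval x h' else 0) =
          ∑ k, a i * (eval x (V' i k) * eval x (pderiv k (g j))) := by
        intro i
        rw [← hdual i j, Finset.mul_sum]
      rw [Finset.sum_congr rfl fun i _ => h6 i]
      rw [Finset.sum_comm]
      refine Finset.sum_congr rfl fun k _ => ?_
      rw [Finset.sum_apply, Finset.sum_mul]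
      refine Finset.sum_congr rfl fun i _ => ?_
      rw [Pi.smul_apply, smul_eq_mul, mul_assoc]
    rw [h4, Finset.sum_eq_single j] at h3
    · rw [if_pos rfl] at h3
      exact (mul_eq_zero.1 h3).resolve_right hhx
    · intro i _ hij
      rw [if_neg hij, mul_zero]
    · intro h5
      exact absurd (Finset.mem_univ _) h5
  · intro i r
    have h5 : e r ∈ vI W := vI_mono hWX (he r)
    have h6 := hV1 i (e r) h5 x hx
    rw [hev] at h6
    exact h6

theorem ns_dim_all {X : Set (Pt N)} {n : ℕ} (hXa : IsAlgebraic X) (hX : IsNonsingular n X) :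
    DimLt X (n + 1) := by
  refine noeth (fun W => W ⊆ X → DimLt W (n + 1)) ?_ ?_ ?_ X hXa (Set.Subset.refl X)
  · intro _ g
    exact ⟨1, one_ne_zero, fun x hx => absurd hx (Set.notMem_empty x)⟩
  · intro A B _ _ hA hB hAB
    exact (hA (Set.subset_union_left.trans hAB)).union (hB (Set.subset_union_right.trans hAB))
  · intro W _ hp _ hWX
    exact ns_dim hX hWX hp

end H71.RN
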