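import Pool.Agent.H71.RN.Dim
import Pool.Agent.H71.RN.Eva

/-!
# [H71 RN RAT] rational functions on a prime algebraic set of dimension < n are dependent, 60-110 lines

`A = Pol N ⧸ vI W`, `F = FractionRing A`. If the `u i = mk (a i) / mk (b i)` are algebraically dependent in `F`, there is `H ≠ 0` with `aeval u H = 0`; use `eva`. Otherwise `n ≤ trdeg ℝ F` (`AlgebraicIndependent.lift_cardinalMk_le_trdeg`), and `trdeg ℝ F = trdeg ℝ A` (`Algebra.trdeg_add_eq` for `ℝ → A → F`, `F` is algebraic over `A`).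
So a transcendence basis of `A` over `ℝ` (it has `trdeg ℝ A` elements) contains `n` elements, the classes of polynomials `g_1, ..., g_n`; `hW` gives `H ≠ 0` with `aeval g H ∈ vI W`: contradiction to the algebraic independence.
-/

set_option autoImplicit false

namespace H71.RN

open MvPolynomial

variable {N : ℕ}

private theorem rat_trdeg {A : Type} [CommRing A] [IsDomain A] [Algebra ℝ A] {n : ℕ}
    (u : Fin n → FractionRing A) (hu : AlgebraicIndependent ℝ u) :
    ∃ v : Fin n → A, AlgebraicIndependent ℝ v := by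
  have h1 := hu.cardinalMk_le_trdeg
  have h2 : Algebra.trdeg ℝ A + Algebra.trdeg A (FractionRing A) =
      Algebra.trdeg ℝ (FractionRing A) := trdeg_add_eq ℝ A
  have hal : Algebra.IsAlgebraic A (FractionRing A) :=
    IsLocalization.isAlgebraic _ (nonZeroDivisors A)
  have h3 : Algebra.trdeg A (FractionRing A) = 0 := trdeg_eq_zero
  rw [h3, add_zero] at h2
  obtain ⟨s, hs⟩ := exists_isTranscendenceBasis ℝ A
  rw [← h2, ← hs.cardinalMk_eq_trdeg, Cardinal.le_def] at h1
  obtain ⟨f⟩ := h1
  exact ⟨fun i => (f i : A), hs.1.comp f f.injective⟩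

theorem rat {W : Set (Pt N)} (hp : (vI W).IsPrime) {n : ℕ} (hW : DimLt W n)
    (a b : Fin n → Pol N) (hb : ∀ i, b i ∉ vI W) :
    ∃ H : MvPolynomial (Fin n) ℝ, H ≠ 0 ∧ ∀ x ∈ W, (∀ i, eval x (b i) ≠ 0) →
      eval (fun i => eval x (a i) / eval x (b i)) H = 0 := by
  obtain ⟨u, hu⟩ : ∃ u : Fin n → FractionRing (Pol N ⧸ vI W), u = fun i =>
    algebraMap (Pol N ⧸ vI W) (FractionRing (Pol N ⧸ vI W))
        (Ideal.Quotient.mk (vI W) (a i)) /
      algebraMap (Pol N ⧸ vI W) (FractionRing (Pol N ⧸ vI W))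
        (Ideal.Quotient.mk (vI W) (b i)) := ⟨_, rfl⟩
  by_cases hind : AlgebraicIndependent ℝ u
  · exfalso
    have : IsDomain (Pol N ⧸ vI W) := Ideal.Quotient.isDomain _
    obtain ⟨v, hv⟩ := rat_trdeg u hind
    choose g hg using fun i => Ideal.Quotient.mk_surjective (v i)
    obtain ⟨H, hH0, hH⟩ := hW g
    have h1 : aeval g H ∈ vI W := by
      intro x hx
      rw [← hH x hx]
      have h2 : (eval x).comp (aeval g : MvPolynomial (Fin n) ℝ →ₐ[ℝ] Pol N).toRingHom =
          eval (fun i => eval x (g i)) := by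
        refine MvPolynomial.ringHom_ext (fun r => ?_) fun i => ?_
        · simp
        · simp
      exact RingHom.congr_fun h2 H
    have h3 : aeval v H = 0 := by
      have h4 : aeval v H = Ideal.Quotient.mk (vI W) (aeval g H) := by
        have h5 : v = fun i => (Ideal.Quotient.mkₐ ℝ (vI W)) (g i) := by
          funext i
          exact (hg i).symm
        rw [h5]
        exact (MvPolynomial.comp_aeval_apply g (Ideal.Quotient.mkₐ ℝ (vI W)) H).symm
      rw [h4]
      exact Ideal.Quotient.eq_zero_iff_mem.2 h1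
    exact hH0 (algebraicIndependent_iff.1 hv H h3)
  · rw [algebraicIndependent_iff] at hind
    push Not at hind
    obtain ⟨H, hH, hH0⟩ := hind
    refine ⟨H, hH0, ?_⟩
    rw [hu] at hH
    exact eva a b hb H hH

end H71.RN
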